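import Pool.Agent.Work.MP_8a95ee_gt.Eu.Defs2

/-!
# Evaluation of the bounded Euler class: statements of the items
-/

namespace MP8a95ee

namespace Eu

open Classical

/-! ### Products, walks and dual chains -/

/-- Z1: the product of lists. -/
def S_Z1 : Prop :=
  ∀ (α β : Type) (x : List α) (y : List β), x ≠ [] → y ≠ [] →
    (3 ≤ x.length + y.length → bd ℝ (Pr x y) = lin ℝ (fun x' => Pr x' y) (faces ℝ x) +
      ((-1 : ℝ) ^ (x.length - 1)) • lin ℝ (fun y' => Pr x y') (faces ℝ y)) ∧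
    (∀ l ∈ (Pr x y).support, l.length + 1 = x.length + y.length ∧ ∀ a ∈ l, a.1 ∈ x ∧ a.2 ∈ y) ∧
    (∀ y' : List β, y'.length = y.length → mapm ℝ Prod.fst (Pr x y) = mapm ℝ Prod.fst (Pr x y')) ∧
    (∀ b : β, Pr x [b] = Finsupp.single (x.map (fun a => (a, b))) 1) ∧
    (∀ f : α → α, Pr (x.map f) y = mapm ℝ (fun a => (f a.1, a.2)) (Pr x y))

/-- Z2: existence of the dual chains. -/
def S_Z2 : Prop :=
  ∀ (n : ℕ) (L : Finset (Finset ℕ)) (o : (Fin n → ℕ) → ℤ), 0 < n →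
    IsSimplicialCycle L n o → Nonempty (Dual n L o)

/-- Z3: boundary of an alternating sum of walks. -/
def S_Z3 : Prop :=
  ∀ (H : Type) [Group H] (M M' : Type) [AddCommGroup M] [Module ℝ M] [AddCommGroup M']
    [Module ℝ M'] (r : ℕ → H) (V : Finset ℕ)
    (j : ℕ) (g : H) (D : List ℕ → M) (f : List H → M →ₗ[ℝ] M'), 0 < j →
    (∀ (s₁ : List ℕ) (a b : ℕ) (s₂ : List ℕ), s₁.length + s₂.length + 2 = j →
      D (s₁ ++ a :: b :: s₂) = - D (s₁ ++ b :: a :: s₂)) →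
    (∀ (s₁ : List ℕ) (a b : ℕ) (s₂ : List ℕ), s₁.length + s₂.length + 2 = j →
      D (s₁ ++ a :: b :: s₂) ≠ 0 → r a * r b = r b * r a) →
    sumV V j (fun s => (lin ℝ f (faces ℝ (wk r g s))) (D s)) =
      sumV V j (fun s => f (wk r (g * r (s.headD 0)) s.tail) (D s)) +
      ((-1 : ℝ) ^ j) • sumV V j (fun s => f (wk r g s.dropLast) (D s))

/-- Z4: the main identity for equivariant functions. -/
def S_Z4 : Prop :=
  ∀ (n : ℕ) (L : Finset (Finset ℕ)) (o : (Fin n → ℕ) → ℤ) (Dl : Dual n L o) (H : Type) [Group H]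
    (χ : H →* ℤˣ) (r : ℕ → H), 0 < n → IsFlag L → (∀ v ∈ verts L, χ (r v) = -1) →
    (∀ u v : ℕ, ({u, v} : Finset ℕ) ∈ L → r u * r v = r v * r u) →
    ∀ f : List (H × Finset ℕ) → ℝ, Eqv χ f →
    ∑ j ∈ Finset.range (n + 1), (2 : ℝ) ^ (n - j) * lin ℝ f (bd ℝ (Zj Dl r j)) = 0

/-- Z5: the boundary of the last chain, and the first components. -/
def S_Z5 : Prop :=
  ∀ (n : ℕ) (L : Finset (Finset ℕ)) (o : (Fin n → ℕ) → ℤ) (Dl : Dual n L o) (H : Type) [Group H]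
    (r : ℕ → H), 0 < n → IsFlag L →
    (∀ u v : ℕ, ({u, v} : Finset ℕ) ∈ L → r u * r v = r v * r u) →
    bd ℝ (Zj Dl r n) = Yc n (oL o) r (verts L) ∧
    (∀ j < n, mapm ℝ Prod.fst (Zj Dl r j) = 0) ∧
    mapm ℝ Prod.fst (Zj Dl r n) = sumV (verts L) n (fun s => oL o s • Finsupp.single (wk r 1 s) 1)

/-- Z6: the chain `Y` for an alternating function. -/
def S_Z6 : Prop :=
  ∀ (n : ℕ) (L : Finset (Finset ℕ)) (V : Finset ℕ) (q : List ℕ → ℝ) (H : Type) [Group H]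
    (r : ℕ → H), 0 < n → IsFlag L →
    (∀ (s₁ : List ℕ) (a b : ℕ) (s₂ : List ℕ), q (s₁ ++ a :: b :: s₂) = - q (s₁ ++ b :: a :: s₂)) →
    (∀ s : List ℕ, q s ≠ 0 → s.toFinset ∈ L) →
    (∀ u v : ℕ, ({u, v} : Finset ℕ) ∈ L → r u * r v = r v * r u) →
    bd ℝ (sumV V n (fun s => q s • Finsupp.single (lab s.toFinset (wk r 1 s)) 1)) = Yc n q r V ∧
    bd ℝ (Yc n q r V) = 0

/-! ### The comparison of the two chain maps -/

/-- H0: facts on the group elements of a datum. -/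
def S_H0 : Prop :=
  ∀ (n : ℕ) (F : Type) [NormedAddCommGroup F] [InnerProductSpace ℝ F] (L : Finset (Finset ℕ))
    (Dt : Dat n F L), IsFlag L →
    (∀ v ∈ verts L, Dt.r v * Dt.r v = 1 ∧ chi n F (Dt.r v) = -1 ∧ (Dt.r v).1.1 = refl (Dt.e v)) ∧
    (∀ u v : ℕ, ({u, v} : Finset ℕ) ∈ L → Dt.r u * Dt.r v = Dt.r v * Dt.r u) ∧
    (∀ (g : G n F) (x y : E n F), B (g.1.1 x) (g.1.1 y) = B x y) ∧
    (∀ ρ ∈ L, ∀ w ∈ Subgroup.closure (Dt.r '' (ρ : Set ℕ)), ∀ x : E n F,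
      w.1.1 x - x ∈ Submodule.span ℝ (Dt.e '' (ρ : Set ℕ)))

/-- H1: the lists in small cosets are mapped to positive lists. -/
def S_H1 : Prop :=
  ∀ (n : ℕ) (F : Type) [NormedAddCommGroup F] [InnerProductSpace ℝ F] (L : Finset (Finset ℕ))
    (Dt : Dat n F L), IsFlag L →
    ∀ l : List (G n F × Finset ℕ), KL Dt l → PosL (th Dt l)

/-- H2: the homotopy. -/
def S_H2 : Prop :=
  ∀ (n : ℕ) (F : Type) [NormedAddCommGroup F] [InnerProductSpace ℝ F] (L : Finset (Finset ℕ))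
    (Dt : Dat n F L) (K : Pkg n F), 0 < n → IsFlag L →
    ∃ d : List (G n F × Finset ℕ) → ℝ, Eqv (chi n F) d ∧
      ∀ y : List (G n F × Finset ℕ) →₀ ℝ, (∀ l ∈ y.support, l.length = n ∧ KL Dt l) →
        bd ℝ y = 0 →
        K.deg (lin ℝ K.φ (mapm ℝ Prod.fst y)) = lin ℝ d y + K.deg (lin ℝ (thc Dt) y)

/-- H3: which lists occur. -/
def S_H3 : Prop :=
  ∀ (n : ℕ) (F : Type) [NormedAddCommGroup F] [InnerProductSpace ℝ F] (L : Finset (Finset ℕ))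
    (Dt : Dat n F L) (o : (Fin n → ℕ) → ℤ) (Dl : Dual n L o), 0 < n → IsFlag L →
    (∀ j < n, ∀ l ∈ (Zj Dl Dt.r j).support, l.length = n + 1 ∧ KL Dt l) ∧
    (∀ q : List ℕ → ℝ, (∀ s : List ℕ, q s ≠ 0 → s.toFinset ∈ L ∧ s.toFinset.card = n) →
      ∀ l ∈ (Yc n q Dt.r (verts L)).support, l.length = n ∧ KL Dt l)

/-- EV: the evaluation of the cocycle in terms of the explicit chain. -/
def S_EV : Prop :=
  ∀ (n : ℕ) (F : Type) [NormedAddCommGroup F] [InnerProductSpace ℝ F] (L : Finset (Finset ℕ))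
    (Dt : Dat n F L) (K : Pkg n F) (o : (Fin n → ℕ) → ℤ), 0 < n → IsFlag L →
    IsSimplicialCycle L n o →
    sumV (verts L) n (fun s => oL o s * K.Fl (wk Dt.r 1 s)) =
      K.deg (lin ℝ (thc Dt) (Yc n (oL o) Dt.r (verts L)))

/-! ### The explicit value -/

/-- The vectors `x k = ∑ j, (-1 if j < k, else 1) • b j`. -/
def cubeV {n : ℕ} (b : Fin n → Fin n → ℝ) (k : ℕ) : Fin n → ℝ :=
  ∑ j : Fin n, (if (j : ℕ) < k then (-1 : ℝ) else 1) • b j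

/-- CU: the signed counts of the simplices of a cube. -/
def S_CU : Prop :=
  ∀ (n : ℕ) (b : Fin n → Fin n → ℝ) (z : Fin n → ℝ), 0 < n → Matrix.det b ≠ 0 → (∀ j, 0 < z j) →
    Function.Injective z →
    Df (∑ j, z j • b j) (fun k : Fin n => cubeV b k) =
      (if StrictMono z then ((SignType.sign (Matrix.det b) : SignType) : ℝ) else 0) ∧
    Df (∑ j, z j • b j) (fun k : Fin n => cubeV b ((k : ℕ) + 1)) = 0 ∧
    (∀ i : Fin n, ∑ j, z j • b j ∉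
      Submodule.span ℝ ((fun k : Fin n => cubeV b k) '' {j | j ≠ i})) ∧
    (∀ i : Fin n, ∑ j, z j • b j ∉
      Submodule.span ℝ ((fun k : Fin n => cubeV b ((k : ℕ) + 1)) '' {j | j ≠ i}))

/-- SV1: one facet. -/
def S_SV1 : Prop :=
  ∀ (n : ℕ) (F : Type) [NormedAddCommGroup F] [InnerProductSpace ℝ F] (L : Finset (Finset ℕ))
    (Dt : Dat n F L) (K : DegPkg n F) (q : List ℕ → ℝ) (σ : Finset ℕ), 0 < n → IsFlag L →
    σ ∈ L → σ.card = n →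
    (∀ (s₁ : List ℕ) (a b : ℕ) (s₂ : List ℕ), q (s₁ ++ a :: b :: s₂) = - q (s₁ ++ b :: a :: s₂)) →
    (∀ s : List ℕ, q s ≠ 0 → s.toFinset = σ ∧ s.length = n) →
    K.deg (lin ℝ (thc Dt) (Yc n q Dt.r (verts L))) = (-1) ^ n * q (σ.sort (· ≤ ·)) *
      ((SignType.sign (Matrix.det (fun i : Fin n => (Dt.e ((σ.sort (· ≤ ·)).getD i 0)).1)) :
        SignType) : ℝ) *
      ∏ i : Fin n, ((SignType.sign (Matrix.det (fun i : Fin n =>
          (Dt.e ((σ.sort (· ≤ ·)).getD i 0)).1) *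
        Matrix.det (Matrix.updateRow (fun i : Fin n => (Dt.e ((σ.sort (· ≤ ·)).getD i 0)).1) i
          Dt.p)) : SignType) : ℝ)

/-- SV2: the value. -/
def S_SV2 : Prop :=
  ∀ (n : ℕ) (F : Type) [NormedAddCommGroup F] [InnerProductSpace ℝ F] (L : Finset (Finset ℕ))
    (Dt : Dat n F L) (K : DegPkg n F) (o : (Fin n → ℕ) → ℤ), 0 < n → IsFlag L →
    IsSimplicialCycle L n o →
    (n.factorial : ℝ) * K.deg (lin ℝ (thc Dt) (Yc n (oL o) Dt.r (verts L))) =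
      (-1) ^ n * Sval (verts L) o (fun v => (Dt.e v).1) Dt.p

/-- SV3: scaling. -/
def S_SV3 : Prop :=
  ∀ (n : ℕ) (V : Finset ℕ) (o : (Fin n → ℕ) → ℤ) (P P' : ℕ → Fin n → ℝ) (p : Fin n → ℝ)
    (a : ℝ), 0 < a → (∀ v ∈ V, P' v = a • P v) → Sval V o P' p = Sval V o P p

/-- SV4: sums over lists and over tuples. -/
def S_SV4 : Prop :=
  ∀ (n : ℕ) (V : Finset ℕ) (f : List ℕ → ℝ),
    sumV V n f = ∑ s ∈ Fintype.piFinset (fun _ : Fin n => V), f (List.ofFn s)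

/-- BC: the bounded cocycle. -/
def S_BC : Prop :=
  ∀ (n : ℕ) (F : Type) [NormedAddCommGroup F] [InnerProductSpace ℝ F] (K : Pkg n F), 0 < n →
    ∃ Kc : BCocycle (G n F) (chi n F) n, Kc.C = K.C ∧ ∀ v, Kc.F v = K.Fl (List.ofFn v)

/-- WK: walks and partial products. -/
def S_WK : Prop :=
  ∀ (H : Type) [Group H] (n : ℕ) (r : ℕ → H) (s : Fin n → ℕ),
    List.ofFn (Fin.partialProd fun i => r (s i)) = wk r 1 (List.ofFn s)

/-! ### Data from a positive matrix -/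

/-- QF: the quadratic form. -/
def S_QF : Prop :=
  ∀ (n : ℕ) (L : Finset (Finset ℕ)) (P : ℕ → Fin n → ℝ) (N : ℕ → ℕ → ℝ), IsPositive L P N →
    ∃ a δ : ℝ, 0 < a ∧ 0 < δ ∧ ∀ y : ℕ → ℝ,
      δ * ∑ v ∈ verts L, y v ^ 2 ≤ a * ∑ i : Fin n, (∑ v ∈ verts L, y v * P v i) ^ 2 +
        ∑ u ∈ verts L, ∑ v ∈ verts L, y u * y v * N u v

/-- GR: Gram vectors. -/
def S_GR : Prop :=
  ∀ (F : Type) [NormedAddCommGroup F] [InnerProductSpace ℝ F], ¬ FiniteDimensional ℝ F →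
    ∀ (V : Finset ℕ) (Y : ℕ → ℕ → ℝ), (∀ u v, Y u v = Y v u) →
    (∀ y : ℕ → ℝ, 0 ≤ ∑ u ∈ V, ∑ v ∈ V, y u * y v * Y u v) →
    ∃ Q : ℕ → F, ∀ u ∈ V, ∀ v ∈ V, inner ℝ (Q u) (Q v) = Y u v

/-- DT: the datum. -/
def S_DT : Prop :=
  ∀ (n : ℕ) (F : Type) [NormedAddCommGroup F] [InnerProductSpace ℝ F], ¬ FiniteDimensional ℝ F →
    ∀ (L : Finset (Finset ℕ)) (P : ℕ → Fin n → ℝ) (N : ℕ → ℕ → ℝ) (p : Fin n → ℝ), IsFlag L →
    IsPositive L P N →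
    (∀ ρ ∈ L, ρ.card < n → p ∉ Submodule.span ℝ (P '' (ρ : Set ℕ))) →
    ∃ (Dt : Dat n F L) (a : ℝ), 0 < a ∧ Dt.p = p ∧ ∀ v ∈ verts L, (Dt.e v).1 = a • P v

/-- INF: an infinite-dimensional inner product space. -/
def S_INF : Prop := ¬ FiniteDimensional ℝ (lp (fun _ : ℕ => ℝ) 2)

/-- MA: the general inequality. -/
def S_MA : Prop :=
  ∀ n : ℕ, 0 < n → ∃ C : ℝ, 0 < C ∧ ∀ (L : Finset (Finset ℕ)) (o : (Fin n → ℕ) → ℤ)
    (P : ℕ → Fin n → ℝ) (N : ℕ → ℕ → ℝ) (p : Fin n → ℝ), IsFlag L → IsSimplicialCycle L n o →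
    IsPositive L P N →
    (∀ ρ ∈ L, ρ.card < n → p ∉ Submodule.span ℝ (P '' (ρ : Set ℕ))) →
    ∀ (X : Type) [TopologicalSpace X] (f : C(X, RZ L)) (lam : ℝ) (z : SChain X n)
      (w : SChain (RZ L) (n + 1)), push f z = lam • momentCycle L n o + MP8a95ee.bd w →
      2 ^ (verts L).card * |lam * Sval (verts L) o P p| ≤ C * l1 z

/-! ### Fans -/

/-- FN0: simple consequences of completeness. -/
def S_FN0 : Prop :=
  ∀ (n : ℕ) (L : Finset (Finset ℕ)) (P : ℕ → Fin n → ℝ), IsFlag L → IsCompleteFan L P →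
    (∀ σ ∈ L, LinearIndepOn ℝ P (σ : Set ℕ) ∧ σ.card ≤ n) ∧
    (∀ σ ∈ L, ∀ τ ∈ L, ∀ c d : ℕ → ℝ, (∀ v ∈ σ, 0 ≤ c v) → (∀ v ∈ τ, 0 ≤ d v) →
      ∑ v ∈ σ, c v • P v = ∑ v ∈ τ, d v • P v →
      (∀ v ∈ σ, v ∈ τ → c v = d v) ∧ (∀ v ∈ σ, v ∉ τ → c v = 0) ∧ (∀ v ∈ τ, v ∉ σ → d v = 0)) ∧
    (∀ x : Fin n → ℝ, ∃ σ ∈ L, ∃ c : ℕ → ℝ, (∀ v ∈ σ, 0 ≤ c v) ∧ ∑ v ∈ σ, c v • P v = x)

/-- FN1: the star of a face is complete. -/
def S_FN1 : Prop :=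
  ∀ (n : ℕ) (L : Finset (Finset ℕ)) (P : ℕ → Fin n → ℝ), IsFlag L → IsCompleteFan L P →
    ∀ p : Fin n → ℝ, (∀ ρ ∈ L, ρ.card < n → p ∉ Submodule.span ℝ (P '' (ρ : Set ℕ))) →
    ∀ ρ ∈ L, ∃! σ : Finset ℕ, σ ∈ L ∧ σ.card = n ∧ ρ ⊆ σ ∧
      ∃ c : ℕ → ℝ, ∑ v ∈ σ, c v • P v = p ∧ ∀ v ∈ σ, v ∉ ρ → 0 < c v

open Classical in
/-- The orientation of a fan. -/
noncomputable def ofan {n : ℕ} (L : Finset (Finset ℕ)) (P : ℕ → Fin n → ℝ) (s : Fin n → ℕ) : ℤ :=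
  if Function.Injective s ∧ Finset.univ.image s ∈ L then
    ((SignType.sign (Matrix.det (fun i => P (s i))) : SignType) : ℤ) else 0

/-- FN2: the orientation is a cycle. -/
def S_FN2 : Prop :=
  ∀ (n : ℕ) (L : Finset (Finset ℕ)) (P : ℕ → Fin n → ℝ), IsFlag L → IsCompleteFan L P →
    IsSimplicialCycle L n (ofan L P) ∧
    ∀ s : Fin n → ℕ, Function.Injective s → Finset.univ.image s ∈ L → |ofan L P s| = 1

/-- FN3: the value for a fan. -/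
def S_FN3 : Prop :=
  ∀ (n : ℕ) (L : Finset (Finset ℕ)) (P : ℕ → Fin n → ℝ), IsFlag L → IsCompleteFan L P →
    ∀ p : Fin n → ℝ, (∀ ρ ∈ L, ρ.card < n → p ∉ Submodule.span ℝ (P '' (ρ : Set ℕ))) →
    2 ^ (verts L).card * Sval (verts L) (ofan L P) P p =
      n.factorial * 2 ^ n * (eulerChar L : ℝ)

/-- FN4: generic points. -/
def S_FN4 : Prop :=
  ∀ (n : ℕ) (L : Finset (Finset ℕ)) (P : ℕ → Fin n → ℝ), 0 < n →
    ∃ p : Fin n → ℝ, ∀ ρ ∈ L, ρ.card < n → p ∉ Submodule.span ℝ (P '' (ρ : Set ℕ))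

/-- FN5: the fan of the cross-polytope. -/
def S_FN5 : Prop := ∀ n : ℕ, PosFan n (cross n)

/-- FN6: subdivision of a complete fan. -/
def S_FN6 : Prop :=
  ∀ (n : ℕ) (L : Finset (Finset ℕ)) (P : ℕ → Fin n → ℝ), IsFlag L → IsCompleteFan L P →
    ∀ u v w : ℕ, u ≠ v → ({u, v} : Finset ℕ) ∈ L → w ∉ verts L →
    IsCompleteFan (subdiv L u v w) (Function.update P w (P u + P v))

/-- FN7: subdivision of a positive matrix. -/
def S_FN7 : Prop :=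
  ∀ (n : ℕ) (L : Finset (Finset ℕ)) (P : ℕ → Fin n → ℝ) (N : ℕ → ℕ → ℝ), IsFlag L →
    IsPositive L P N →
    ∀ u v w : ℕ, u ≠ v → ({u, v} : Finset ℕ) ∈ L → w ∉ verts L →
    ∃ N' : ℕ → ℕ → ℝ, IsPositive (subdiv L u v w) (Function.update P w (P u + P v)) N'

end Eu

end MP8a95ee
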