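import Pool.Agent.Work.MP_8a95ee_gt.Eu.Stmts

/-!
# AC: cycles of length less than n of positive lists are boundaries
-/

set_option autoImplicit false

namespace MP8a95ee.Eu

open Classical

namespace AC

variable {n : ℕ} {F : Type} [NormedAddCommGroup F] [InnerProductSpace ℝ F]

/-- The contraction of the negative part. -/
noncomputable def gam (s : ℝ) (x : E n F) : E n F := (x.1, (1 - s) • x.2)

/-- The contraction as a linear map. -/
noncomputable def gamL (s : ℝ) : E n F →ₗ[ℝ] E n F where
  toFun := gam s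
  map_add' x y := by
    unfold gam
    ext1
    · rfl
    · simp only [Prod.snd_add, smul_add]
  map_smul' c x := by
    unfold gam
    ext1
    · rfl
    · simp only [Prod.smul_snd, RingHom.id_apply]
      rw [smul_comm]

theorem map_set {α β : Type} (f : α → β) (l : List α) :
    {x | x ∈ l.map f} = f '' {x | x ∈ l} := by
  ext x
  simp

theorem pos_gam (l : List (E n F)) (hl : PosL l) (s : ℝ) (hs : s ∈ Set.Icc (0 : ℝ) 1) :
    PosL (l.map (gam s)) := by
  intro w hw
  have h1 : convexHull ℝ {x | x ∈ l.map (gam s)} = gamL s '' convexHull ℝ {x | x ∈ l} := by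
    rw [LinearMap.image_convexHull, map_set]
    rfl
  rw [h1] at hw
  obtain ⟨v, hv, rfl⟩ := hw
  have hB := hl v hv
  have h2 : B (gamL s v) (gamL s v) = v.1 ⬝ᵥ v.1 - (1 - s) ^ 2 * inner ℝ v.2 v.2 := by
    have : gamL s v = (v.1, (1 - s) • v.2) := rfl
    rw [this]
    unfold B
    simp only [inner_smul_left, inner_smul_right, RCLike.conj_to_real]
    ring
  rw [h2]
  unfold B at hB
  have h3 : 0 ≤ inner ℝ v.2 v.2 := real_inner_self_nonneg
  have h4 : (1 - s) ^ 2 ≤ 1 := by
    have := hs.1
    have := hs.2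
    nlinarith
  nlinarith

theorem pos_cons (l : List (E n F)) (hne : l ≠ []) (hl : PosL l) (h0 : ∀ x ∈ l, x.2 = 0)
    (a0 : Fin n → ℝ) (ha : a0 ∉ Submodule.span ℝ (Prod.fst '' {x | x ∈ l})) :
    PosL ((a0, 0) :: l) := by
  intro w hw
  set U := Submodule.span ℝ (Prod.fst '' {x | x ∈ l}) with hU
  have hset : {x | x ∈ ((a0, 0) : E n F) :: l} = insert (a0, 0) {x | x ∈ l} := by
    ext x
    simp
  have hnon : ({x | x ∈ l} : Set (E n F)).Nonempty := by
    obtain ⟨y, hy⟩ := List.exists_mem_of_ne_nil l hne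
    exact ⟨y, hy⟩
  rw [hset, convexHull_insert hnon, mem_convexJoin] at hw
  obtain ⟨c, hc, y, hy, hw⟩ := hw
  rw [Set.mem_singleton_iff] at hc
  subst hc
  obtain ⟨a, b, ha0, hb0, hab, rfl⟩ := hw
  have hyP : y ∈ (U.prod (⊥ : Submodule ℝ F)) := by
    have hsub : convexHull ℝ {x | x ∈ l} ⊆ ((U.prod (⊥ : Submodule ℝ F) : Submodule ℝ (E n F)) :
        Set (E n F)) := by
      apply convexHull_min
      · intro x hx
        refine ⟨Submodule.subset_span ⟨x, hx, rfl⟩, ?_⟩
        exact h0 x hx
      · exact Submodule.convex _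
    exact hsub hy
  obtain ⟨hyU, hy0⟩ := hyP
  have hy0' : y.2 = 0 := hy0
  rcases eq_or_lt_of_le ha0 with h | h
  · have hb : b = 1 := by linarith
    rw [← h, hb, zero_smul, one_smul, zero_add]
    exact hl y hy
  · have hfst : (a • ((a0, 0) : E n F) + b • y).1 ≠ 0 := by
      intro hcon
      apply ha
      have h5 : a • a0 + b • y.1 = 0 := hcon
      have h6 : a0 = (-(b / a)) • y.1 := by
        have h7 : a • a0 = - (b • y.1) := eq_neg_of_add_eq_zero_left h5
        calc a0 = a⁻¹ • (a • a0) := by rw [smul_smul, inv_mul_cancel₀ h.ne', one_smul]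
          _ = _ := by rw [h7, ← neg_smul, smul_smul]; congr 1; field_simp
      rw [h6]
      exact U.smul_mem _ hyU
    have hsnd : (a • ((a0, 0) : E n F) + b • y).2 = 0 := by
      rw [Prod.snd_add, Prod.smul_snd, Prod.smul_snd, hy0', smul_zero, smul_zero, add_zero]
    unfold B
    rw [hsnd, inner_zero_left, sub_zero]
    have h8 : 0 ≤ (a • ((a0, 0) : E n F) + b • y).1 ⬝ᵥ (a • ((a0, 0) : E n F) + b • y).1 := by
      unfold dotProduct
      exact Finset.sum_nonneg fun i _ => mul_self_nonneg _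
    refine lt_of_le_of_ne h8 fun h9 => hfst ?_
    exact dotProduct_self_eq_zero.1 h9.symm

theorem exists_a0 (S : Finset (List (E n F))) (k : ℕ) (hk : k < n)
    (hS : ∀ l ∈ S, l.length = k) :
    ∃ a0 : Fin n → ℝ, ∀ l ∈ S, a0 ∉ Submodule.span ℝ (Prod.fst '' {x | x ∈ l}) := by
  set T : Finset (Subspace ℝ (Fin n → ℝ)) :=
    S.image fun l => Submodule.span ℝ (Prod.fst '' {x | x ∈ l}) with hT
  have htop : ⊤ ∉ T := by
    intro hmem
    rw [hT, Finset.mem_image] at hmem
    obtain ⟨l, hl, hlt⟩ := hmem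
    have h1 : Prod.fst '' {x | x ∈ l} = (((l.map Prod.fst).toFinset : Finset (Fin n → ℝ)) :
        Set (Fin n → ℝ)) := by
      ext x
      simp
    rw [h1] at hlt
    have h2 := finrank_span_finset_le_card (R := ℝ) (l.map Prod.fst).toFinset
    have h3 : Set.finrank ℝ (((l.map Prod.fst).toFinset : Finset (Fin n → ℝ)) :
        Set (Fin n → ℝ)) = n := by
      unfold Set.finrank
      rw [hlt, finrank_top, Module.finrank_fin_fun]
    have h4 := List.toFinset_card_le (l.map Prod.fst)
    rw [List.length_map, hS l hl] at h4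
    omega
  have hne := Subspace.biUnion_ne_univ_of_top_notMem htop
  rw [Ne, Set.eq_univ_iff_forall, not_forall] at hne
  obtain ⟨a0, ha0⟩ := hne
  refine ⟨a0, fun l hl hmem => ha0 ?_⟩
  simp only [Set.mem_iUnion]
  exact ⟨_, Finset.mem_image.2 ⟨l, hl, rfl⟩, hmem⟩

theorem mem_support_mapm {α β : Type} (f : α → β) (z : List α →₀ ℝ) (l' : List β)
    (h : l' ∈ (mapm ℝ f z).support) : ∃ l ∈ z.support, l' = l.map f := by
  have h1 := Finsupp.mapDomain_support h
  rw [Finset.mem_image] at h1
  obtain ⟨l, hl, rfl⟩ := h1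
  exact ⟨l, hl, rfl⟩

theorem mem_support_consm {α : Type} (a : α) (z : List α →₀ ℝ) (l' : List α)
    (h : l' ∈ (consm ℝ a z).support) : ∃ l ∈ z.support, l' = a :: l := by
  have h1 := Finsupp.mapDomain_support h
  rw [Finset.mem_image] at h1
  obtain ⟨l, hl, rfl⟩ := h1
  exact ⟨l, hl, rfl⟩

end AC

theorem prfAC (h1 : S_LC1) (hh : S_HO) : S_AC := by
  intro n F _ _ k hk hkn z hz hbd
  obtain ⟨hcons, -, hnat, -, -⟩ := h1 ℝ (E n F) (E n F)
  obtain ⟨w1, hw1, hbw1⟩ := hh n F k AC.gam z
    (fun x => by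
      unfold AC.gam
      exact continuousOn_const.prodMk
        (((continuous_const.sub continuous_id).smul continuous_const).continuousOn))
    (fun l hl => ⟨(hz l hl).1, fun s hs => AC.pos_gam l (hz l hl).2 s hs⟩) hbd
  have hid : mapm ℝ (AC.gam 0) z = z := by
    have : (AC.gam 0 : E n F → E n F) = id := by
      funext x
      simp [AC.gam]
    rw [this]
    unfold mapm
    rw [Finsupp.lmapDomain_apply]
    have h2 : List.map (id : E n F → E n F) = id := by
      funext l
      simp
    rw [h2, Finsupp.mapDomain_id]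
  rw [hid] at hbw1
  set z1 := mapm ℝ (AC.gam 1) z with hz1
  have hbz1 : bd ℝ z1 = 0 := by
    rw [hz1, hnat, hbd, map_zero]
  obtain ⟨a0, ha0⟩ := AC.exists_a0 z1.support k hkn (fun l hl => by
    obtain ⟨l', hl', rfl⟩ := AC.mem_support_mapm _ _ _ hl
    rw [List.length_map]
    exact (hz l' hl').1)
  refine ⟨consm ℝ (a0, 0) z1 - w1, ?_, ?_⟩
  · intro l hl
    have h3 := Finsupp.support_sub hl
    rw [Finset.mem_union] at h3
    rcases h3 with h3 | h3
    · obtain ⟨l', hl', rfl⟩ := AC.mem_support_consm _ _ _ h3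
      obtain ⟨l'', hl'', hl3⟩ := AC.mem_support_mapm _ _ _ hl'
      have hlen : l'.length = k := by
        rw [hl3, List.length_map]
        exact (hz l'' hl'').1
      refine ⟨by rw [List.length_cons, hlen], ?_⟩
      apply AC.pos_cons
      · intro h4
        rw [h4, List.length_nil] at hlen
        omega
      · rw [hl3]
        exact AC.pos_gam l'' (hz l'' hl'').2 1 (by constructor <;> norm_num)
      · intro x hx
        rw [hl3, List.mem_map] at hx
        obtain ⟨y, -, rfl⟩ := hx
        simp [AC.gam]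
      · exact ha0 l' hl'
    · exact hw1 l h3
  · rw [map_sub, hcons, hbz1, map_zero, sub_zero, hbw1]
    abel

end MP8a95ee.Eu
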