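import Pool.Agent.Work.MP_8a95ee_gt.Eu.Stmts2

/-!
# CU: signed counts of the simplices of a cube
-/

namespace MP8a95ee.Eu

open Classical

namespace CU

/-- The coefficient matrix of the first tuple. -/
def A (m : ℕ) : Matrix (Fin (m + 1)) (Fin (m + 1)) ℝ :=
  fun k j => if (j : ℕ) < (k : ℕ) then (-1 : ℝ) else 1

/-- The coefficient matrix of the second tuple. -/
def A' (m : ℕ) : Matrix (Fin (m + 1)) (Fin (m + 1)) ℝ :=
  fun k j => if (j : ℕ) < (k : ℕ) + 1 then (-1 : ℝ) else 1

theorem det_A (m : ℕ) : (A m).det = 2 ^ m := by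
  set Bm : Matrix (Fin (m + 1)) (Fin (m + 1)) ℝ :=
    fun k j => if k = 0 then (1 : ℝ) else if (j : ℕ) + 1 = (k : ℕ) then -2 else 0 with hB
  have h1 : (A m).det = Bm.det := by
    refine Matrix.det_eq_of_forall_row_eq_smul_add_pred (fun _ => (1 : ℝ)) ?_ ?_
    · intro j
      simp [A, hB]
    · intro i j
      simp only [A, hB, Fin.val_succ, Fin.val_castSucc, Fin.succ_ne_zero, if_false]
      rcases lt_trichotomy (j : ℕ) (i : ℕ) with h | h | h
      · rw [if_pos (by omega), if_neg (by omega), if_pos h]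
        ring
      · rw [if_pos (by omega), if_pos (by omega), if_neg (by omega)]
        ring
      · rw [if_neg (by omega), if_neg (by omega), if_neg (by omega)]
        ring
  rw [h1, Matrix.det_succ_column Bm (Fin.last m), Fin.sum_univ_succ]
  have h2 : ∀ i : Fin m, Bm i.succ (Fin.last m) = 0 := by
    intro i
    simp only [hB, Fin.succ_ne_zero, if_false, Fin.val_last, Fin.val_succ]
    rw [if_neg]
    have := i.2
    omega
  have h3 : Bm.submatrix (Fin.succAbove 0) (Fin.last m).succAbove =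
      (-2 : ℝ) • (1 : Matrix (Fin m) (Fin m) ℝ) := by
    ext i j
    rw [Matrix.submatrix_apply, Fin.succAbove_zero, Fin.succAbove_last, Matrix.smul_apply,
      Matrix.one_apply]
    simp only [hB, Fin.succ_ne_zero, if_false, Fin.val_succ, Fin.val_castSucc]
    by_cases h : i = j
    · rw [if_pos (by rw [h]), if_pos h]
      simp
    · rw [if_neg, if_neg h]
      · simp
      · intro h'
        apply h
        ext
        omega
  rw [Finset.sum_eq_zero (fun i _ => by rw [h2]; ring), h3, Matrix.det_smul, Matrix.det_one]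
  simp only [hB, if_true, Fin.val_zero, Fin.val_last, zero_add, add_zero, mul_one,
    Fintype.card_fin]
  rw [← mul_pow]
  norm_num

theorem det_A' (m : ℕ) : (A' m).det ≠ 0 := by
  set Bm : Matrix (Fin (m + 1)) (Fin (m + 1)) ℝ :=
    fun k j => if k = 0 then (if (j : ℕ) = 0 then (-1 : ℝ) else 1)
      else if (j : ℕ) = (k : ℕ) then -2 else 0 with hB
  have h1 : (A' m).det = Bm.det := by
    refine Matrix.det_eq_of_forall_row_eq_smul_add_pred (fun _ => (1 : ℝ)) ?_ ?_
    · intro j
      simp only [A', hB, if_true, Fin.val_zero, zero_add, Nat.lt_one_iff]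
    · intro i j
      simp only [A', hB, Fin.val_succ, Fin.val_castSucc, Fin.succ_ne_zero, if_false]
      rcases lt_trichotomy (j : ℕ) (i + 1 : ℕ) with h | h | h
      · rw [if_pos (by omega), if_neg (by omega), if_pos h]
        ring
      · rw [if_pos (by omega), if_pos (by omega), if_neg (by omega)]
        ring
      · rw [if_neg (by omega), if_neg (by omega), if_neg (by omega)]
        ring
  rw [h1, Matrix.det_succ_column_zero Bm, Fin.sum_univ_succ]
  have h2 : ∀ i : Fin m, Bm i.succ 0 = 0 := by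
    intro i
    have h0 : ¬ ((0 : Fin (m + 1)) : ℕ) = (i.succ : ℕ) := by
      rw [Fin.val_zero, Fin.val_succ]
      omega
    simp only [hB, Fin.succ_ne_zero, if_false]
    exact if_neg h0
  have h3 : Bm.submatrix (Fin.succAbove 0) Fin.succ =
      (-2 : ℝ) • (1 : Matrix (Fin m) (Fin m) ℝ) := by
    ext i j
    rw [Matrix.submatrix_apply, Fin.succAbove_zero, Matrix.smul_apply,
      Matrix.one_apply]
    simp only [hB, Fin.succ_ne_zero, if_false, Fin.val_succ]
    by_cases h : i = j
    · rw [if_pos (by rw [h]), if_pos h]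
      simp
    · rw [if_neg, if_neg h]
      · simp
      · intro h'
        apply h
        ext
        omega
  rw [Finset.sum_eq_zero (fun i _ => by rw [h2]; ring), h3, Matrix.det_smul, Matrix.det_one]
  simp only [hB, if_true, Fin.val_zero, pow_zero, add_zero, mul_one, Fintype.card_fin, one_mul]
  have : ((-2 : ℝ) ^ m) ≠ 0 := pow_ne_zero _ (by norm_num)
  intro h
  apply this
  linarith

theorem tA {m : ℕ} (b : Fin (m + 1) → Fin (m + 1) → ℝ) :
    (fun k : Fin (m + 1) => cubeV b k) = A m * (Matrix.of b) := by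
  funext k
  ext i
  rw [Matrix.mul_apply]
  simp only [cubeV, A, Finset.sum_apply, Pi.smul_apply, smul_eq_mul, Matrix.of_apply]

theorem tA' {m : ℕ} (b : Fin (m + 1) → Fin (m + 1) → ℝ) :
    (fun k : Fin (m + 1) => cubeV b ((k : ℕ) + 1)) = A' m * (Matrix.of b) := by
  funext k
  ext i
  rw [Matrix.mul_apply]
  simp only [cubeV, A', Finset.sum_apply, Pi.smul_apply, smul_eq_mul, Matrix.of_apply]

/-- The sequence of coefficients. -/
noncomputable def lam (m : ℕ) (z : ℕ → ℝ) (k : ℕ) : ℝ :=
  if k = 0 then (z 0 + z m) / 2 else (z k - z (k - 1)) / 2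

theorem sum_lam (m : ℕ) (z : ℕ → ℝ) (j : ℕ) : ∀ N : ℕ,
    ∑ k ∈ Finset.range (N + 1), lam m z k * (if j < k then (-1 : ℝ) else 1) =
      (z 0 + z m) / 2 + (if N ≤ j then (z N - z 0) / 2 else (z j - z 0) / 2 - (z N - z j) / 2) := by
  intro N
  induction N with
  | zero => simp [lam]
  | succ N ih =>
    rw [Finset.sum_range_succ, ih]
    have h0 : lam m z (N + 1) = (z (N + 1) - z N) / 2 := by simp [lam]
    rw [h0]
    rcases lt_trichotomy N j with h | h | h
    · rw [if_pos (by omega), if_neg (by omega), if_pos (by omega)]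
      ring
    · rw [if_pos (by omega), if_pos (by omega), if_neg (by omega), h]
      ring
    · rw [if_neg (by omega), if_pos (by omega), if_neg (by omega)]
      ring

theorem sum_lam_eq (m : ℕ) (z : ℕ → ℝ) (j : ℕ) (hj : j ≤ m) :
    ∑ k ∈ Finset.range (m + 1), lam m z k * (if j < k then (-1 : ℝ) else 1) = z j := by
  rw [sum_lam]
  split_ifs with h
  · have : j = m := le_antisymm hj h
    rw [this]
    ring
  · ring

/-- The extension of `z` to natural numbers. -/
noncomputable def ext {m : ℕ} (z : Fin (m + 1) → ℝ) (k : ℕ) : ℝ :=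
  if h : k < m + 1 then z ⟨k, h⟩ else 0

theorem ext_val {m : ℕ} (z : Fin (m + 1) → ℝ) (k : Fin (m + 1)) : ext z k = z k := by
  unfold ext
  rw [dif_pos k.2]

theorem p_eq {m : ℕ} (b : Fin (m + 1) → Fin (m + 1) → ℝ) (z : Fin (m + 1) → ℝ) :
    ∑ j, z j • b j = ∑ k : Fin (m + 1), lam m (ext z) k • cubeV b k := by
  simp only [cubeV, Finset.smul_sum]
  rw [Finset.sum_comm]
  refine Finset.sum_congr rfl fun j _ => ?_
  simp only [smul_smul]
  rw [← Finset.sum_smul]
  congr 1
  have h := sum_lam_eq m (ext z) j (Nat.lt_succ_iff.mp j.2)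
  rw [ext_val] at h
  rw [← h, ← Fin.sum_univ_eq_sum_range
    (fun k => lam m (ext z) k * (if (j : ℕ) < k then (-1 : ℝ) else 1))]

theorem x0 {m : ℕ} (b : Fin (m + 1) → Fin (m + 1) → ℝ) : cubeV b 0 = - cubeV b (m + 1) := by
  unfold cubeV
  rw [← Finset.sum_neg_distrib]
  refine Finset.sum_congr rfl fun j _ => ?_
  rw [if_neg (Nat.not_lt_zero _), if_pos j.2, neg_smul, neg_neg]

theorem p_eq' {m : ℕ} (b : Fin (m + 1) → Fin (m + 1) → ℝ) (z : Fin (m + 1) → ℝ) :
    ∑ j, z j • b j = ∑ k : Fin (m + 1),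
      (if (k : ℕ) = m then - lam m (ext z) 0 else lam m (ext z) ((k : ℕ) + 1)) •
        cubeV b ((k : ℕ) + 1) := by
  rw [p_eq, Fin.sum_univ_succ, Fin.sum_univ_castSucc (n := m) (f := fun k : Fin (m + 1) =>
    (if (k : ℕ) = m then - lam m (ext z) 0 else lam m (ext z) ((k : ℕ) + 1)) •
        cubeV b ((k : ℕ) + 1))]
  refine (_root_.add_comm _ _).trans ?_
  congr 1
  · refine Finset.sum_congr rfl fun k _ => ?_
    rw [Fin.val_castSucc, if_neg (by have := k.2; omega), Fin.val_succ]
  · rw [Fin.val_last, if_pos rfl, Fin.val_zero, x0, smul_neg, neg_smul]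

theorem span_det {n : ℕ} (t : Matrix (Fin n) (Fin n) ℝ) (i : Fin n) (v : Fin n → ℝ)
    (hv : v ∈ Submodule.span ℝ (t '' {j | j ≠ i})) : (t.updateRow i v).det = 0 := by
  induction hv using Submodule.span_induction with
  | mem x hx =>
    obtain ⟨j, hj, rfl⟩ := hx
    refine Matrix.det_zero_of_row_eq (i := i) (j := j) (Ne.symm hj) ?_
    rw [Matrix.updateRow_self, Matrix.updateRow_ne hj]
  | zero =>
    have := Matrix.det_updateRow_smul t i 0 (0 : Fin n → ℝ)
    simpa using this
  | add x y _ _ h1 h2 => rw [Matrix.det_updateRow_add, h1, h2, add_zero]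
  | smul c x _ h => rw [Matrix.det_updateRow_smul, h, mul_zero]

theorem det_upd {n : ℕ} (t : Matrix (Fin n) (Fin n) ℝ) (c : Fin n → ℝ) (i : Fin n) :
    (t.updateRow i (∑ k, c k • t k)).det = c i * t.det :=
  Matrix.det_updateRow_sum t i c

theorem not_span {n : ℕ} (t : Matrix (Fin n) (Fin n) ℝ) (c : Fin n → ℝ) (i : Fin n)
    (ht : t.det ≠ 0) (hc : c i ≠ 0) : ∑ k, c k • t k ∉ Submodule.span ℝ (t '' {j | j ≠ i}) := by
  intro h
  have h1 := span_det t i _ h
  rw [det_upd] at h1
  exact mul_ne_zero hc ht h1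

end CU

theorem prfCU : S_CU := by
  intro n b z hn hb hz hinj
  obtain ⟨m, rfl⟩ : ∃ m, n = m + 1 := ⟨n - 1, by omega⟩
  have hdt : Matrix.det (fun k : Fin (m + 1) => cubeV b k) = 2 ^ m * Matrix.det b := by
    rw [CU.tA, Matrix.det_mul, CU.det_A]
    rfl
  have hdt' : Matrix.det (fun k : Fin (m + 1) => cubeV b ((k : ℕ) + 1)) ≠ 0 := by
    rw [CU.tA', Matrix.det_mul]
    exact mul_ne_zero (CU.det_A' m) hb
  have h2 : (0 : ℝ) < 2 ^ m := by positivity
  have hdt0 : Matrix.det (fun k : Fin (m + 1) => cubeV b k) ≠ 0 := by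
    rw [hdt]
    exact mul_ne_zero h2.ne' hb
  have hlam0 : 0 < CU.lam m (CU.ext z) 0 := by
    unfold CU.lam
    rw [if_pos rfl]
    have h0 := hz 0
    have h1 := hz (Fin.last m)
    rw [← CU.ext_val z 0] at h0
    rw [← CU.ext_val z (Fin.last m)] at h1
    rw [Fin.val_zero] at h0
    rw [Fin.val_last] at h1
    linarith
  have hlamk : ∀ k : ℕ, ∀ hk : k + 1 < m + 1, CU.lam m (CU.ext z) (k + 1) =
      (z ⟨k + 1, hk⟩ - z ⟨k, by omega⟩) / 2 := by
    intro k hk
    unfold CU.lam CU.ext
    rw [if_neg (by omega), dif_pos hk, Nat.add_sub_cancel, dif_pos (by omega)]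
  have hlamne : ∀ k : ℕ, k < m + 1 → CU.lam m (CU.ext z) k ≠ 0 := by
    intro k hk
    rcases k with _ | k
    · exact hlam0.ne'
    · rw [hlamk k hk]
      intro h
      have h3 : z ⟨k + 1, hk⟩ = z ⟨k, by omega⟩ := by linarith
      have h4 := hinj h3
      rw [Fin.mk.injEq] at h4
      omega
  have hpos : (∀ k : Fin (m + 1), 0 < CU.lam m (CU.ext z) k) ↔ StrictMono z := by
    rw [Fin.strictMono_iff_lt_succ]
    constructor
    · intro h i
      have h1 := h i.succ
      rw [Fin.val_succ, hlamk i (by have := i.2; omega)] at h1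
      have h3 : z ⟨(i : ℕ) + 1, by have := i.2; omega⟩ = z i.succ := rfl
      have h4 : z ⟨(i : ℕ), by have := i.2; omega⟩ = z i.castSucc := rfl
      rw [h3, h4] at h1
      linarith
    · intro h k
      refine Fin.cases ?_ ?_ k
      · exact hlam0
      · intro i
        rw [Fin.val_succ, hlamk i (by have := i.2; omega)]
        have h1 := h i
        have h3 : z ⟨(i : ℕ) + 1, by have := i.2; omega⟩ = z i.succ := rfl
        have h4 : z ⟨(i : ℕ), by have := i.2; omega⟩ = z i.castSucc := rfl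
        rw [h3, h4]
        linarith
  have key1 : ∀ i : Fin (m + 1), Matrix.det (Matrix.updateRow
      (fun k : Fin (m + 1) => cubeV b k) i (∑ j, z j • b j)) =
      CU.lam m (CU.ext z) i * Matrix.det (fun k : Fin (m + 1) => cubeV b k) := by
    intro i
    rw [CU.p_eq]
    exact CU.det_upd (fun k : Fin (m + 1) => cubeV b k) (fun k => CU.lam m (CU.ext z) k) i
  refine ⟨?_, ?_, ?_, ?_⟩
  · unfold Df
    have hiff : (∀ i : Fin (m + 1), 0 < Matrix.det (fun k : Fin (m + 1) => cubeV b k) *
        Matrix.det (Matrix.updateRow (fun k : Fin (m + 1) => cubeV b k) i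
          (∑ j, z j • b j))) ↔ StrictMono z := by
      rw [← hpos]
      refine forall_congr' fun i => ?_
      rw [key1]
      have h3 : 0 < Matrix.det (fun k : Fin (m + 1) => cubeV b k) *
        Matrix.det (fun k : Fin (m + 1) => cubeV b k) := mul_self_pos.mpr hdt0
      have h4 : Matrix.det (fun k : Fin (m + 1) => cubeV b k) *
        (CU.lam m (CU.ext z) i * Matrix.det (fun k : Fin (m + 1) => cubeV b k)) =
        (Matrix.det (fun k : Fin (m + 1) => cubeV b k) *
        Matrix.det (fun k : Fin (m + 1) => cubeV b k)) * CU.lam m (CU.ext z) i := by ring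
      rw [h4]
      constructor
      · intro h
        exact (mul_pos_iff_of_pos_left h3).mp h
      · intro h
        exact mul_pos h3 h
    by_cases h : StrictMono z
    · rw [if_pos (hiff.mpr h), if_pos h, hdt, sign_mul, sign_pos h2, one_mul]
    · rw [if_neg (fun h' => h (hiff.mp h')), if_neg h]
  · unfold Df
    rw [if_neg]
    intro h
    have h1 := h (Fin.last m)
    rw [CU.p_eq'] at h1
    have h3 := CU.det_upd (fun k : Fin (m + 1) => cubeV b ((k : ℕ) + 1))
      (fun k => if (k : ℕ) = m then - CU.lam m (CU.ext z) 0 else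
        CU.lam m (CU.ext z) ((k : ℕ) + 1)) (Fin.last m)
    rw [h3, Fin.val_last, if_pos rfl] at h1
    have h4 : 0 < Matrix.det (fun k : Fin (m + 1) => cubeV b ((k : ℕ) + 1)) *
        Matrix.det (fun k : Fin (m + 1) => cubeV b ((k : ℕ) + 1)) := mul_self_pos.mpr hdt'
    nlinarith [mul_pos h4 hlam0]
  · intro i
    rw [CU.p_eq]
    exact CU.not_span (fun k : Fin (m + 1) => cubeV b k) (fun k => CU.lam m (CU.ext z) k) i
      hdt0 (hlamne i i.2)
  · intro i
    rw [CU.p_eq']
    refine CU.not_span (fun k : Fin (m + 1) => cubeV b ((k : ℕ) + 1))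
      (fun k => if (k : ℕ) = m then - CU.lam m (CU.ext z) 0 else
        CU.lam m (CU.ext z) ((k : ℕ) + 1)) i hdt' ?_
    split_ifs with h
    · exact neg_ne_zero.mpr hlam0.ne'
    · exact hlamne _ (by have := i.2; omega)

end MP8a95ee.Eu
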