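import Pool.Agent.Work.MP_8a95ee_gt.Eu.Stmts

namespace MP8a95ee.Eu

open Classical

namespace DG2

/-- Coordinates of the representation with vanishing `i`-th coordinate. -/
noncomputable def cc {m : ℕ} (D x : Fin m → ℝ) (i k : Fin m) : ℝ := x k + (-x i / D i) * D k

/-- All other coordinates are positive. -/
def Q {m : ℕ} (D x : Fin m → ℝ) (i : Fin m) : Prop := ∀ k, k ≠ i → 0 < cc D x i k

theorem cc_neg {m : ℕ} (D x : Fin m → ℝ) (i k : Fin m) :
    cc (fun j => - D j) x i k = cc D x i k := by
  unfold cc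
  rw [div_neg]
  ring

theorem Q_neg {m : ℕ} (D x : Fin m → ℝ) (i : Fin m) : Q (fun j => - D j) x i ↔ Q D x i := by
  unfold Q
  simp only [cc_neg]

theorem cc_self {m : ℕ} (D x : Fin m → ℝ) (i : Fin m) (h : D i ≠ 0) : cc D x i i = 0 := by
  unfold cc
  rw [div_mul_cancel₀ _ h]
  ring

theorem cc_eq {m : ℕ} (D x : Fin m → ℝ) (i k : Fin m) (hk : D k ≠ 0) :
    cc D x i k = D k * (-x i / D i - -x k / D k) := by
  unfold cc
  field_simp
  ring

theorem pos_iff {m : ℕ} (D x : Fin m → ℝ) (i k : Fin m) (hk : 0 < D k) :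
    0 < cc D x i k ↔ -x k / D k < -x i / D i := by
  rw [cc_eq D x i k hk.ne', mul_pos_iff_of_pos_left hk, sub_pos]

theorem neg_iff {m : ℕ} (D x : Fin m → ℝ) (i k : Fin m) (hk : D k < 0) :
    0 < cc D x i k ↔ -x i / D i < -x k / D k := by
  rw [cc_eq D x i k hk.ne]
  constructor
  · intro h
    by_contra h2
    have h3 : 0 ≤ -x i / D i - -x k / D k := by linarith
    nlinarith
  · intro h
    exact mul_pos_of_neg_of_neg hk (by linarith)

theorem uniq {m : ℕ} (D x : Fin m → ℝ) (i j : Fin m) (hi : 0 < D i) (hj : 0 < D j)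
    (qi : Q D x i) (qj : Q D x j) : i = j := by
  by_contra h
  have h1 := (pos_iff D x i j hj).1 (qi j (Ne.symm h))
  have h2 := (pos_iff D x j i hi).1 (qj i h)
  exact lt_asymm h1 h2

theorem uniq' {m : ℕ} (D x : Fin m → ℝ) (i j : Fin m) (hi : D i < 0) (hj : D j < 0)
    (qi : Q D x i) (qj : Q D x j) : i = j :=
  uniq (fun j => - D j) x i j (by simpa using hi) (by simpa using hj)
    ((Q_neg D x i).2 qi) ((Q_neg D x j).2 qj)

theorem imp {m : ℕ} (D x : Fin m → ℝ) (gen : ∀ i, D i ≠ 0 → ∀ k, k ≠ i → cc D x i k ≠ 0)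
    (hN : ∃ i, D i < 0) (hP : ∃ i, 0 < D i ∧ Q D x i) : ∃ j, D j < 0 ∧ Q D x j := by
  obtain ⟨i0, hi0⟩ := hN
  obtain ⟨i, hi, qi⟩ := hP
  obtain ⟨j, hj, hmin⟩ := Finset.exists_min_image (Finset.univ.filter fun k => D k < 0)
    (fun k => -x k / D k) ⟨i0, by simp [hi0]⟩
  have hj0 : D j < 0 := by simpa using hj
  refine ⟨j, hj0, ?_⟩
  have hij : j ≠ i := by
    rintro rfl
    exact lt_asymm hi hj0
  have h1 := (neg_iff D x i j hj0).1 (qi j hij)
  intro k hk
  rcases lt_trichotomy (D k) 0 with h | h | h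
  · rw [neg_iff D x j k h]
    have h2 := hmin k (by simp [h])
    refine lt_of_le_of_ne h2 fun h3 => ?_
    apply gen j hj0.ne k hk
    rw [cc_eq D x j k h.ne, h3, sub_self, mul_zero]
  · have h2 : k ≠ i := by
      rintro rfl
      exact hi.ne' h
    have h3 := qi k h2
    unfold cc at h3 ⊢
    rw [h, mul_zero] at h3 ⊢
    exact h3
  · rw [pos_iff D x j k h]
    by_cases h2 : k = i
    · rw [h2]
      exact h1
    · exact lt_trans ((pos_iff D x i k h).1 (qi k h2)) h1

theorem imp' {m : ℕ} (D x : Fin m → ℝ) (gen : ∀ i, D i ≠ 0 → ∀ k, k ≠ i → cc D x i k ≠ 0)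
    (hP : ∃ i, 0 < D i) (hN : ∃ i, D i < 0 ∧ Q D x i) : ∃ j, 0 < D j ∧ Q D x j := by
  obtain ⟨j, h1, h2⟩ := imp (fun j => - D j) x
    (fun i hi k hk => by rw [cc_neg]; exact gen i (by simpa using hi) k hk)
    (by simpa using hP) (by simpa [Q_neg] using hN)
  exact ⟨j, by simpa using h1, (Q_neg D x j).1 h2⟩

/-- The abstract sum. -/
noncomputable def S {m : ℕ} (D x : Fin m → ℝ) : ℝ :=
  ∑ i, if Q D x i then ((SignType.sign (D i) : SignType) : ℝ) else 0

theorem S_neg {m : ℕ} (D x : Fin m → ℝ) : S (fun j => - D j) x = - S D x := by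
  unfold S
  rw [← Finset.sum_neg_distrib]
  refine Finset.sum_congr rfl fun i _ => ?_
  simp only [Q_neg]
  split_ifs
  · rw [Left.sign_neg, SignType.coe_neg]
  · simp

theorem S_both {m : ℕ} (D x : Fin m → ℝ) (gen : ∀ i, D i ≠ 0 → ∀ k, k ≠ i → cc D x i k ≠ 0)
    (hP : ∃ i, 0 < D i) (hN : ∃ i, D i < 0) : S D x = 0 := by
  unfold S
  by_cases h : ∃ i, 0 < D i ∧ Q D x i
  · obtain ⟨j, hj, qj⟩ := imp D x gen hN h
    obtain ⟨i, hi, qi⟩ := h
    have key : ∀ k, (if Q D x k then ((SignType.sign (D k) : SignType) : ℝ) else 0)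
        = (if k = i then 1 else 0) + (if k = j then -1 else 0) := by
      intro k
      by_cases qk : Q D x k
      · rw [if_pos qk]
        rcases lt_trichotomy (D k) 0 with h | h | h
        · have e1 : k = j := uniq' D x k j h hj qk qj
          have e2 : k ≠ i := by
            rintro rfl
            exact lt_asymm h hi
          rw [if_pos e1, if_neg e2, sign_neg h]
          simp
        · have e1 : k ≠ j := by
            rintro rfl
            exact hj.ne h
          have e2 : k ≠ i := by
            rintro rfl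
            exact hi.ne' h
          rw [if_neg e1, if_neg e2, h]
          simp
        · have e1 : k = i := uniq D x k i h hi qk qi
          have e2 : k ≠ j := by
            rintro rfl
            exact lt_asymm h hj
          rw [if_pos e1, if_neg e2, sign_pos h]
          simp
      · rw [if_neg qk]
        have e1 : k ≠ j := by
          rintro rfl
          exact qk qj
        have e2 : k ≠ i := by
          rintro rfl
          exact qk qi
        rw [if_neg e1, if_neg e2, add_zero]
    simp only [key]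
    rw [Finset.sum_add_distrib]
    simp
  · have h2 : ¬ ∃ i, D i < 0 ∧ Q D x i := fun h3 => h (imp' D x gen hP h3)
    refine Finset.sum_eq_zero fun k _ => ?_
    split_ifs with qk
    · rcases lt_trichotomy (D k) 0 with h4 | h4 | h4
      · exact absurd ⟨k, h4, qk⟩ h2
      · rw [h4]
        simp
      · exact absurd ⟨k, h4, qk⟩ h
    · rfl

theorem S_pos {m : ℕ} (D x : Fin (m + 1) → ℝ)
    (gen : ∀ i, D i ≠ 0 → ∀ k, k ≠ i → cc D x i k ≠ 0)
    (hP : ∀ i, 0 < D i) : S D x = 1 := by
  obtain ⟨j, -, hmax⟩ := Finset.exists_max_image (Finset.univ : Finset (Fin (m + 1)))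
    (fun k => -x k / D k) ⟨0, Finset.mem_univ _⟩
  have qj : Q D x j := by
    intro k hk
    rw [pos_iff D x j k (hP k)]
    refine lt_of_le_of_ne (hmax k (Finset.mem_univ k)) fun h3 => ?_
    apply gen j (hP j).ne' k hk
    rw [cc_eq D x j k (hP k).ne', h3, sub_self, mul_zero]
  unfold S
  rw [Finset.sum_eq_single j]
  · rw [if_pos qj, sign_pos (hP j)]
    simp
  · intro k _ hk
    rw [if_neg]
    intro qk
    exact hk (uniq D x k j (hP k) (hP j) qk qj)
  · intro h
    exact absurd (Finset.mem_univ j) h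

theorem Df_eq {n : ℕ} (p : Fin n → ℝ) (t : Fin n → Fin n → ℝ) (c : Fin n → ℝ)
    (ht : Matrix.det t ≠ 0) (hp : p = ∑ j, c j • t j) :
    Df p t = if ∀ j, 0 < c j then ((SignType.sign (Matrix.det t) : SignType) : ℝ) else 0 := by
  unfold Df
  have h1 : ∀ j : Fin n, Matrix.det (Matrix.updateRow t j p) = c j * Matrix.det t := by
    intro j
    rw [hp]
    have := Matrix.det_updateRow_sum (A := t) j c
    rw [this, smul_eq_mul]
  have h2 : (∀ i : Fin n, 0 < (Matrix.det t) * (Matrix.det (Matrix.updateRow t i p)))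
      ↔ ∀ j, 0 < c j := by
    refine forall_congr' fun j => ?_
    rw [h1 j]
    have h3 : 0 < Matrix.det t * Matrix.det t := mul_self_pos.2 ht
    have h4 : Matrix.det t * (c j * Matrix.det t) = c j * (Matrix.det t * Matrix.det t) := by ring
    rw [h4]
    exact mul_pos_iff_of_pos_right h3
  simp only [h2]

end DG2

open DG2

theorem prfDG2 (h1 : S_DG1) : S_DG2 := by
  intro n y p hgen
  set D : Fin (n + 1) → ℝ := fun i => (-1 : ℝ) ^ (i : ℕ) *
    Matrix.det (fun j : Fin n => y (i.succAbove j)) with hD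
  have hrel : ∑ i, D i • y i = 0 := h1 n y
  -- everything follows from a nonvanishing minor
  have main : (∃ i, D i ≠ 0) → ∃ x : Fin (n + 1) → ℝ,
      (∀ i, D i ≠ 0 → ∀ k, k ≠ i → cc D x i k ≠ 0) ∧
      ∑ i : Fin (n + 1), (-1 : ℝ) ^ (i : ℕ) * Df p (fun j => y (i.succAbove j)) = S D x := by
    rintro ⟨i, hi⟩
    have hdet : Matrix.det (fun j : Fin n => y (i.succAbove j)) ≠ 0 := by
      intro h
      apply hi
      rw [hD]
      simp only [h, mul_zero]
    -- p is a combination of the vectors
    obtain ⟨x, hx⟩ : ∃ x : Fin (n + 1) → ℝ, p = ∑ k, x k • y k := by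
      set t : Matrix (Fin n) (Fin n) ℝ := fun j : Fin n => y (i.succAbove j) with ht
      refine ⟨Fin.insertNth i 0 (Matrix.vecMul p t⁻¹), ?_⟩
      rw [Fin.sum_univ_succAbove _ i]
      simp only [Fin.insertNth_apply_same, zero_smul, zero_add, Fin.insertNth_apply_succAbove]
      have h2 : Matrix.vecMul (Matrix.vecMul p t⁻¹) t = p := by
        rw [Matrix.vecMul_vecMul, Matrix.nonsing_inv_mul t (isUnit_iff_ne_zero.2 hdet),
          Matrix.vecMul_one]
      rw [Matrix.vecMul_eq_sum] at h2
      exact h2.symm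
    have hrep : ∀ i, p = ∑ k, cc D x i k • y k := by
      intro i
      unfold cc
      simp only [add_smul, mul_smul]
      rw [Finset.sum_add_distrib, ← Finset.smul_sum, hrel, smul_zero, add_zero]
      exact hx
    have hgen2 : ∀ i, D i ≠ 0 → ∀ k, k ≠ i → cc D x i k ≠ 0 := by
      intro i hi k hk h0
      apply hgen i k (Ne.symm hk)
      have h3 : ∑ j, cc D x i j • y j ∈ Submodule.span ℝ (y '' {j | j ≠ i ∧ j ≠ k}) := by
        refine Submodule.sum_mem _ fun j _ => ?_
        by_cases hji : j = i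
        · rw [hji, cc_self D x i hi, zero_smul]
          exact Submodule.zero_mem _
        · by_cases hjk : j = k
          · rw [hjk, h0, zero_smul]
            exact Submodule.zero_mem _
          · exact Submodule.smul_mem _ _ (Submodule.subset_span ⟨j, ⟨hji, hjk⟩, rfl⟩)
      rw [← hrep i] at h3
      exact h3
    refine ⟨x, hgen2, ?_⟩
    unfold S
    refine Finset.sum_congr rfl fun i _ => ?_
    by_cases hi : D i = 0
    · have hdet0 : Matrix.det (fun j : Fin n => y (i.succAbove j)) = 0 := by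
        rw [hD] at hi
        rcases mul_eq_zero.1 hi with h | h
        · exact absurd h (pow_ne_zero _ (by norm_num))
        · exact h
      have e1 : Df p (fun j => y (i.succAbove j)) = 0 := by
        unfold Df
        rw [hdet0]
        simp
      rw [e1, hi]
      simp
    · have hdet1 : Matrix.det (fun j : Fin n => y (i.succAbove j)) ≠ 0 := by
        intro h
        apply hi
        rw [hD]
        simp only [h, mul_zero]
      have hp : p = ∑ j : Fin n, cc D x i (i.succAbove j) • y (i.succAbove j) := by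
        have := hrep i
        rw [Fin.sum_univ_succAbove _ i, cc_self D x i hi, zero_smul, zero_add] at this
        exact this
      rw [Df_eq p (fun j => y (i.succAbove j)) (fun j => cc D x i (i.succAbove j)) hdet1 hp]
      have hQ : (∀ j : Fin n, 0 < cc D x i (i.succAbove j)) ↔ Q D x i := by
        constructor
        · intro h k hk
          obtain ⟨j, rfl⟩ := Fin.exists_succAbove_eq hk
          exact h j
        · intro h j
          exact h _ (Fin.succAbove_ne i j)
      simp only [hQ]
      by_cases q : Q D x i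
      · rw [if_pos q, if_pos q]
        have : D i = (-1 : ℝ) ^ (i : ℕ) * Matrix.det (fun j : Fin n => y (i.succAbove j)) := rfl
        rw [this, sign_mul, SignType.coe_mul]
        congr 1
        rcases neg_one_pow_eq_or ℝ (i : ℕ) with h | h
        · rw [h]
          simp
        · rw [h]
          simp
      · rw [if_neg q, if_neg q, mul_zero]
  refine ⟨fun hP hN => ?_, fun hP => ?_, fun hN => ?_⟩
  · obtain ⟨i, hi⟩ := hP
    obtain ⟨x, hg, hs⟩ := main ⟨i, ne_of_gt hi⟩
    rw [hs]
    exact S_both D x hg ⟨i, hi⟩ hN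
  · obtain ⟨x, hg, hs⟩ := main ⟨0, ne_of_gt (hP 0)⟩
    rw [hs]
    exact S_pos D x hg hP
  · obtain ⟨x, hg, hs⟩ := main ⟨0, ne_of_lt (hN 0)⟩
    rw [hs]
    have h2 := S_pos (fun j => - D j) x
      (fun i hi k hk => by rw [cc_neg]; exact hg i (by simpa using hi) k hk)
      (fun i => by simpa using hN i)
    rw [S_neg] at h2
    linarith

end MP8a95ee.Eu
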