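import Pool.Agent.Work.MP_8a95ee_gt.Eu.Stmts

/-!
# Item DG3: independence of the generic point, boundaries of positive chains
-/

namespace MP8a95ee

namespace Eu

open Classical

namespace DG3

/-- The signed minors. -/
noncomputable def dd {n : ℕ} (y : Fin (n + 1) → Fin n → ℝ) (i : Fin (n + 1)) : ℝ :=
  (-1 : ℝ) ^ (i : ℕ) * Matrix.det (fun j : Fin n => y (i.succAbove j))

/-- The signed count of the facets. -/
noncomputable def cc {n : ℕ} (p : Fin n → ℝ) (y : Fin (n + 1) → Fin n → ℝ) : ℝ :=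
  ∑ i : Fin (n + 1), (-1 : ℝ) ^ (i : ℕ) * Df p (fun j => y (i.succAbove j))

/-- Genericity with respect to `n + 1` vectors. -/
def GG {n : ℕ} (p : Fin n → ℝ) (y : Fin (n + 1) → Fin n → ℝ) : Prop :=
  ∀ i j : Fin (n + 1), i ≠ j → p ∉ Submodule.span ℝ (y '' {k | k ≠ i ∧ k ≠ j})

theorem cc_zero {n : ℕ} (hn : 0 < n) (p : Fin n → ℝ) (y : Fin (n + 1) → Fin n → ℝ)
    (h : ∀ i, dd y i = 0) : cc p y = 0 := by
  unfold cc
  refine Finset.sum_eq_zero fun i _ => ?_
  have hd : Matrix.det (fun j : Fin n => y (i.succAbove j)) = 0 := by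
    have := h i
    unfold dd at this
    rcases mul_eq_zero.1 this with h1 | h1
    · exact absurd h1 (pow_ne_zero _ (by norm_num))
    · exact h1
  unfold Df
  rw [if_neg, mul_zero]
  intro hc
  have := hc ⟨0, hn⟩
  rw [hd, zero_mul] at this
  exact lt_irrefl _ this

section

variable {n : ℕ} {F : Type} [NormedAddCommGroup F] [InnerProductSpace ℝ F]

/-- The linear functional. -/
noncomputable def LL (p : Fin n → ℝ) : (List (E n F) →₀ ℝ) →ₗ[ℝ] ℝ :=
  Finsupp.linearCombination ℝ (D p)

theorem LL_apply (p : Fin n → ℝ) (z : List (E n F) →₀ ℝ) :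
    LL p z = z.sum fun l a => a * D p l := by
  rw [LL, Finsupp.linearCombination_apply]
  rfl

theorem LL_bd (p : Fin n → ℝ) (w : List (E n F) →₀ ℝ) :
    LL p (bd ℝ w) = w.sum fun l a => a * LL p (faces ℝ l) := by
  rw [bd, Finsupp.linearCombination_apply, map_finsuppSum]
  refine Finsupp.sum_congr fun l _ => ?_
  rw [map_smul, smul_eq_mul]

/-- The vectors of a list. -/
def yy (n : ℕ) (l : List (E n F)) (k : Fin (n + 1)) : Fin n → ℝ := (l.getD k 0).1

theorem getD_erase (l : List (E n F)) (i : Fin (n + 1)) (j : Fin n) :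
    ((l.eraseIdx i).getD j 0).1 = yy n l (i.succAbove j) := by
  unfold yy
  rw [List.getD_eq_getElem?_getD, List.getD_eq_getElem?_getD, List.getElem?_eraseIdx]
  by_cases h : (j : ℕ) < i
  · rw [if_pos h, Fin.succAbove_of_castSucc_lt i j (by simpa [Fin.lt_def] using h)]
    rfl
  · rw [if_neg h, Fin.succAbove_of_le_castSucc i j (by simpa [Fin.le_def] using h)]
    rfl

theorem LL_faces (h5 : ∀ l : List (E n F), faces ℝ l = ∑ i ∈ Finset.range l.length,
      Finsupp.single (l.eraseIdx i) ((-1 : ℝ) ^ i)) (p : Fin n → ℝ) (l : List (E n F))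
    (hl : l.length = n + 1) : LL p (faces ℝ l) = cc p (yy n l) := by
  rw [h5 l, map_sum, hl, Finset.sum_range]
  unfold cc
  refine Finset.sum_congr rfl fun i _ => ?_
  rw [LL, Finsupp.linearCombination_single, smul_eq_mul]
  congr 1
  have hm : mat (l.eraseIdx (i : ℕ)) = fun j : Fin n => yy n l (i.succAbove j) := by
    funext j
    exact getD_erase l i j
  unfold D Df
  rw [hm]

theorem posL_rel {l : List (E n F)} (h : PosL l) {ι : Type} [Fintype ι] (x : ι → E n F)
    (hx : ∀ i, x i ∈ l) (c : ι → ℝ) (hc : ∀ i, 0 ≤ c i) (hs : 0 < ∑ i, c i)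
    (h0 : ∑ i, c i • (x i).1 = 0) : False := by
  have hmem : ∑ i, (c i / ∑ j, c j) • x i ∈ convexHull ℝ {x | x ∈ l} := by
    refine (convex_convexHull ℝ _).sum_mem (fun i _ => div_nonneg (hc i) hs.le) ?_
      (fun i _ => subset_convexHull ℝ _ (hx i))
    rw [← Finset.sum_div, div_self hs.ne']
  have h1 := h _ hmem
  have h2 : (∑ i, (c i / ∑ j, c j) • x i).1 = 0 := by
    rw [Prod.fst_sum]
    have : ∀ i, ((c i / ∑ j, c j) • x i).1 = (∑ j, c j)⁻¹ • (c i • (x i).1) := by
      intro i
      rw [Prod.smul_fst, smul_smul]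
      congr 1
      ring
    rw [Finset.sum_congr rfl fun i _ => this i, ← Finset.smul_sum, h0, smul_zero]
  unfold B at h1
  rw [h2, zero_dotProduct, zero_sub] at h1
  have h3 : (0 : ℝ) ≤ inner ℝ (∑ i, (c i / ∑ j, c j) • x i).2 (∑ i, (c i / ∑ j, c j) • x i).2 :=
    real_inner_self_nonneg
  linarith

theorem both {l : List (E n F)} (h : PosL l) {ι : Type} [Fintype ι] (x : ι → E n F)
    (hx : ∀ i, x i ∈ l) (c : ι → ℝ) (h0 : ∑ i, c i • (x i).1 = 0) (hne : ∃ i, c i ≠ 0) :
    (∃ i, 0 < c i) ∧ ∃ i, c i < 0 := by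
  obtain ⟨i, hi⟩ := hne
  constructor
  · by_contra hcon
    push Not at hcon
    refine posL_rel h x hx (fun i => - c i) (fun i => by linarith [hcon i]) ?_ ?_
    · refine Finset.sum_pos' (fun i _ => by linarith [hcon i]) ⟨i, Finset.mem_univ _, ?_⟩
      have := lt_of_le_of_ne (hcon i) hi
      linarith
    · simp only [neg_smul]
      rw [Finset.sum_neg_distrib, h0, neg_zero]
  · by_contra hcon
    push Not at hcon
    refine posL_rel h x hx c hcon ?_ h0
    exact Finset.sum_pos' (fun i _ => hcon i) ⟨i, Finset.mem_univ _,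
      lt_of_le_of_ne (hcon i) (Ne.symm hi)⟩

theorem GG_of (l : List (E n F)) (p : Fin n → ℝ)
    (h : ∀ i : Fin (n + 1), Gen p (l.eraseIdx i)) : GG p (yy n l) := by
  intro i j hij hp
  obtain ⟨j', hj'⟩ := Fin.exists_succAbove_eq (Ne.symm hij)
  refine h i j' (Submodule.span_mono ?_ hp)
  rintro _ ⟨k, ⟨hk1, hk2⟩, rfl⟩
  obtain ⟨k', hk'⟩ := Fin.exists_succAbove_eq hk1
  refine ⟨k', ?_, ?_⟩
  · intro h1
    apply hk2
    rw [← hk', h1, hj']
  · show ((l.eraseIdx i).getD k' 0).1 = yy n l k
    rw [getD_erase, hk']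

theorem getD_mem (l : List (E n F)) (k : ℕ) (hk : k < l.length) : l.getD k 0 ∈ l := by
  rw [List.getD_eq_getElem l 0 hk]
  exact List.getElem_mem hk

end

/-- A finite union of proper subspaces is not everything. -/
theorem avoid {n : ℕ} {ι : Type} (t : Finset ι) (V : ι → Submodule ℝ (Fin n → ℝ)) :
    ∃ a : Fin n → ℝ, ∀ i ∈ t, V i ≠ ⊤ → a ∉ V i := by
  have h := Subspace.biUnion_ne_univ_of_top_notMem
    (s := (t.image V).filter (fun W => W ≠ ⊤)) (by simp)
  rw [Ne, Set.eq_univ_iff_forall, not_forall] at h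
  obtain ⟨a, ha⟩ := h
  refine ⟨a, fun i hi hV hmem => ha ?_⟩
  rw [Set.mem_iUnion₂]
  exact ⟨V i, by simp only [Finset.mem_filter, Finset.mem_image]; exact ⟨⟨i, hi, rfl⟩, hV⟩, hmem⟩

theorem span_ne_top {n : ℕ} (s : Finset (Fin n → ℝ)) (hs : s.card < n) :
    Submodule.span ℝ (s : Set (Fin n → ℝ)) ≠ ⊤ := by
  intro h
  have h1 := finrank_span_finset_le_card (R := ℝ) s
  rw [Set.finrank, h, finrank_top, Module.finrank_fin_fun] at h1
  omega

theorem span_ne_top1 {n : ℕ} (f : Fin n → Fin n → ℝ) (i : Fin n) :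
    Submodule.span ℝ (f '' {k | k ≠ i}) ≠ ⊤ := by
  have h1 : f '' {k | k ≠ i} = (((Finset.univ.erase i).image f : Finset (Fin n → ℝ)) :
      Set (Fin n → ℝ)) := by
    ext v
    simp
  rw [h1]
  apply span_ne_top
  refine lt_of_le_of_lt Finset.card_image_le ?_
  rw [Finset.card_erase_of_mem (Finset.mem_univ _), Finset.card_univ, Fintype.card_fin]
  have := i.2
  omega

theorem span_ne_top2 {n : ℕ} (f : Fin n → Fin n → ℝ) (q : Fin n → ℝ) (i j : Fin n)
    (hij : i ≠ j) :
    Submodule.span ℝ (insert q (f '' {k | k ≠ i ∧ k ≠ j})) ≠ ⊤ := by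
  have h1 : insert q (f '' {k | k ≠ i ∧ k ≠ j}) =
      ((insert q (((Finset.univ.erase i).erase j).image f) : Finset (Fin n → ℝ)) :
      Set (Fin n → ℝ)) := by
    ext v
    simp [and_comm]
  rw [h1]
  apply span_ne_top
  refine lt_of_le_of_lt (Finset.card_insert_le _ _) ?_
  have h2 : (((Finset.univ.erase i).erase j).image f).card ≤
      ((Finset.univ.erase i).erase j).card := Finset.card_image_le
  have h3 : j ∈ Finset.univ.erase i := Finset.mem_erase.2 ⟨Ne.symm hij, Finset.mem_univ _⟩
  rw [Finset.card_erase_of_mem h3, Finset.card_erase_of_mem (Finset.mem_univ _),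
    Finset.card_univ, Fintype.card_fin] at h2
  have h4 : 2 ≤ n := by
    have := i.2
    have := j.2
    have : (i : ℕ) ≠ j := fun h => hij (Fin.ext h)
    omega
  omega

end DG3

open DG3 in
theorem prfDG3 (h1 : S_LC1) (ha : S_DG1) (hb : S_DG2) : S_DG3 := by
  intro n F _ _ hn
  have h11 := (h1 ℝ (E n F) (E n F)).1
  have h5 := (h1 ℝ (E n F) (E n F)).2.2.2.2
  refine ⟨?_, ?_⟩
  · -- independence of the point
    intro z hz p p' hp hp'
    obtain ⟨hzP, hz0⟩ := hz
    -- a generic vector
    obtain ⟨a, ha'⟩ := avoid (z.support ×ˢ (Finset.univ : Finset (Fin n × Fin n × Fin 3)))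
      (fun t => if t.2.2.2 = 0 then
          Submodule.span ℝ ((fun j : Fin n => (t.1.getD j 0).1) '' {j | j ≠ t.2.1})
        else Submodule.span ℝ (insert (if t.2.2.2 = 1 then p else p')
          ((fun j : Fin n => (t.1.getD j 0).1) '' {j | j ≠ t.2.1 ∧ j ≠ t.2.2.1})))
    have hga : ∀ l ∈ z.support, ∀ i : Fin n,
        a ∉ Submodule.span ℝ ((fun j : Fin n => (l.getD j 0).1) '' {j | j ≠ i}) := by
      intro l hl i
      have := ha' (l, i, i, 0) (by simpa using hl)
      simp only [if_true] at this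
      exact this (span_ne_top1 _ i)
    have hgp : ∀ l ∈ z.support, ∀ i j : Fin n, i ≠ j →
        a ∉ Submodule.span ℝ (insert p
          ((fun j : Fin n => (l.getD j 0).1) '' {k | k ≠ i ∧ k ≠ j})) := by
      intro l hl i j hij
      have := ha' (l, i, j, 1) (by simpa using hl)
      simp only [if_true] at this
      exact this (span_ne_top2 _ p i j hij)
    have hgp' : ∀ l ∈ z.support, ∀ i j : Fin n, i ≠ j →
        a ∉ Submodule.span ℝ (insert p'
          ((fun j : Fin n => (l.getD j 0).1) '' {k | k ≠ i ∧ k ≠ j})) := by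
      intro l hl i j hij
      have := ha' (l, i, j, 2) (by simpa using hl)
      simp only [show ((2 : Fin 3) = 0) = False from by simp,
        show ((2 : Fin 3) = 1) = False from by simp, if_false] at this
      exact this (span_ne_top2 _ p' i j hij)
    set A : E n F := (a, 0) with hA
    have hw : bd ℝ (consm ℝ A z) = z := by
      rw [h11, hz0, map_zero, sub_zero]
    have hLL : ∀ q : Fin n → ℝ, (z.sum fun l b => b * D q l) =
        z.sum fun l b => b * cc q (yy n (A :: l)) := by
      intro q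
      rw [← LL_apply]
      conv_lhs => rw [← hw]
      rw [LL_bd]
      have : consm ℝ A z = Finsupp.mapDomain (List.cons A) z := rfl
      rw [this, Finsupp.sum_mapDomain_index_inj List.cons_injective]
      refine Finsupp.sum_congr fun l hl => ?_
      rw [LL_faces h5 q (A :: l) (by rw [List.length_cons, (hzP l hl).1])]
    rw [hLL p, hLL p']
    refine Finsupp.sum_congr fun l hl => ?_
    congr 1
    -- the vectors
    have hy0 : yy n (A :: l) 0 = a := rfl
    have hys : ∀ k : Fin n, yy n (A :: l) k.succ = (l.getD k 0).1 := fun k => rfl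
    have hGG : ∀ q : Fin n → ℝ, Gen q l →
        (∀ i j : Fin n, i ≠ j → a ∉ Submodule.span ℝ (insert q
          ((fun j : Fin n => (l.getD j 0).1) '' {k | k ≠ i ∧ k ≠ j}))) →
        GG q (yy n (A :: l)) := by
      intro q hq hqa i j hij hmem
      rcases Fin.eq_zero_or_eq_succ i with rfl | ⟨i', rfl⟩
      · rcases Fin.eq_zero_or_eq_succ j with rfl | ⟨j', rfl⟩
        · exact hij rfl
        · refine hq j' (Submodule.span_mono ?_ hmem)
          rintro _ ⟨k, ⟨hk1, hk2⟩, rfl⟩
          rcases Fin.eq_zero_or_eq_succ k with rfl | ⟨k', rfl⟩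
          · exact absurd rfl hk1
          · exact ⟨k', fun h => hk2 (by rw [h]), rfl⟩
      · rcases Fin.eq_zero_or_eq_succ j with rfl | ⟨j', rfl⟩
        · refine hq i' (Submodule.span_mono ?_ hmem)
          rintro _ ⟨k, ⟨hk1, hk2⟩, rfl⟩
          rcases Fin.eq_zero_or_eq_succ k with rfl | ⟨k', rfl⟩
          · exact absurd rfl hk2
          · exact ⟨k', fun h => hk1 (by rw [h]), rfl⟩
        · have hij' : i' ≠ j' := fun h => hij (by rw [h])
          refine hqa i' j' hij' (mem_span_insert_exchange ?_ ?_)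
          · refine Submodule.span_mono ?_ hmem
            rintro _ ⟨k, ⟨hk1, hk2⟩, rfl⟩
            rcases Fin.eq_zero_or_eq_succ k with rfl | ⟨k', rfl⟩
            · exact Set.mem_insert _ _
            · exact Set.mem_insert_of_mem _ ⟨k', ⟨fun h => hk1 (by rw [h]),
                fun h => hk2 (by rw [h])⟩, rfl⟩
          · intro h
            refine hq i' (Submodule.span_mono ?_ h)
            rintro _ ⟨k, ⟨hk1, hk2⟩, rfl⟩
            exact ⟨k, hk1, rfl⟩
    have hG := hGG p (hp l hl) (hgp l hl)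
    have hG' := hGG p' (hp' l hl) (hgp' l hl)
    have hrel := ha n (yy n (A :: l))
    have hrel' : dd (yy n (A :: l)) 0 • a +
        ∑ k : Fin n, dd (yy n (A :: l)) k.succ • (l.getD k 0).1 = 0 := by
      rw [Fin.sum_univ_succ] at hrel
      exact hrel
    obtain ⟨hB0, hB1, hB2⟩ := hb n (yy n (A :: l)) p hG
    obtain ⟨hB0', hB1', hB2'⟩ := hb n (yy n (A :: l)) p' hG'
    have key : (∀ i, dd (yy n (A :: l)) i = 0) ∨ (∀ i, 0 < dd (yy n (A :: l)) i) ∨
        (∀ i, dd (yy n (A :: l)) i < 0) ∨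
        ((∃ i, 0 < dd (yy n (A :: l)) i) ∧ ∃ i, dd (yy n (A :: l)) i < 0) := by
      by_cases h0 : dd (yy n (A :: l)) 0 = 0
      · by_cases hall : ∀ i, dd (yy n (A :: l)) i = 0
        · exact Or.inl hall
        · right; right; right
          push Not at hall
          obtain ⟨i, hi⟩ := hall
          rcases Fin.eq_zero_or_eq_succ i with rfl | ⟨i', rfl⟩
          · exact absurd h0 hi
          · rw [h0, zero_smul, zero_add] at hrel'
            obtain ⟨⟨u, hu⟩, ⟨v, hv⟩⟩ := both (hzP l hl).2 (fun k : Fin n => l.getD k 0)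
              (fun k => getD_mem l k (by rw [(hzP l hl).1]; exact k.2))
              (fun k => dd (yy n (A :: l)) k.succ) hrel' ⟨i', hi⟩
            exact ⟨⟨_, hu⟩, ⟨_, hv⟩⟩
      · have hne : ∀ i, dd (yy n (A :: l)) i ≠ 0 := by
          intro i hi
          rcases Fin.eq_zero_or_eq_succ i with rfl | ⟨i', rfl⟩
          · exact h0 hi
          · refine hga l hl i' ?_
            have e1 : a = (-(dd (yy n (A :: l)) 0)⁻¹) •
                ∑ k : Fin n, dd (yy n (A :: l)) k.succ • (l.getD k 0).1 := by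
              have e2 : ∑ k : Fin n, dd (yy n (A :: l)) k.succ • (l.getD k 0).1 =
                  -(dd (yy n (A :: l)) 0 • a) := by
                rw [eq_neg_iff_add_eq_zero, add_comm]
                exact hrel'
              rw [e2, smul_neg, neg_smul, neg_neg, smul_smul, inv_mul_cancel₀ h0, one_smul]
            rw [e1]
            refine Submodule.smul_mem _ _ (Submodule.sum_mem _ fun k _ => ?_)
            by_cases hk : k = i'
            · rw [hk, hi, zero_smul]
              exact Submodule.zero_mem _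
            · exact Submodule.smul_mem _ _ (Submodule.subset_span ⟨k, hk, rfl⟩)
        by_cases hpos : ∀ i, 0 < dd (yy n (A :: l)) i
        · exact Or.inr (Or.inl hpos)
        · by_cases hneg : ∀ i, dd (yy n (A :: l)) i < 0
          · exact Or.inr (Or.inr (Or.inl hneg))
          · right; right; right
            push Not at hpos hneg
            obtain ⟨u, hu⟩ := hpos
            obtain ⟨v, hv⟩ := hneg
            exact ⟨⟨v, lt_of_le_of_ne hv (Ne.symm (hne v))⟩, ⟨u, lt_of_le_of_ne hu (hne u)⟩⟩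
    rcases key with h | h | h | ⟨h, h'⟩
    · rw [cc_zero hn p _ h, cc_zero hn p' _ h]
    · exact (hB1 h).trans (hB1' h).symm
    · exact (hB2 h).trans (hB2' h).symm
    · exact (hB0 h h').trans (hB0' h h').symm
  · -- boundaries
    intro w hw p hp
    rw [← LL_apply, LL_bd]
    refine Finset.sum_eq_zero fun l hl => ?_
    have hlen := (hw l hl).1
    have hG : GG p (yy n l) := by
      refine GG_of l p fun i => hp l hl _ ?_ ?_
      · rw [List.length_eraseIdx_of_lt (by rw [hlen]; exact i.2), hlen]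
        rfl
      · intro x hx
        exact List.mem_of_mem_eraseIdx hx
    show w l * LL p (faces ℝ l) = 0
    rw [LL_faces h5 p l hlen]
    by_cases hall : ∀ i, dd (yy n l) i = 0
    · rw [cc_zero hn p _ hall, mul_zero]
    · push Not at hall
      obtain ⟨i, hi⟩ := hall
      obtain ⟨h, h'⟩ := both (hw l hl).2 (fun k : Fin (n + 1) => l.getD k 0)
        (fun k => getD_mem l k (by rw [hlen]; exact k.2)) (dd (yy n l)) (ha n (yy n l)) ⟨i, hi⟩
      have := (hb n (yy n l) p hG).1 h h'
      have h2 : cc p (yy n l) = 0 := this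
      rw [h2, mul_zero]

end Eu

end MP8a95ee
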