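import Pool.Agent.Work.MP_8a95ee_gt.Eu.Stmts

/-!
# DG6: the degree package, equivariance
-/

set_option autoImplicit false

namespace MP8a95ee.Eu

open Classical

namespace DG6

variable {n : ℕ} {F : Type} [NormedAddCommGroup F] [InnerProductSpace ℝ F]

/-! ### chains -/

theorem mapm_comp {α β γ : Type} (f : β → γ) (g : α → β) (z : List α →₀ ℝ) :
    mapm ℝ (fun x => f (g x)) z = mapm ℝ f (mapm ℝ g z) := by
  unfold mapm
  rw [Finsupp.lmapDomain_apply, Finsupp.lmapDomain_apply, Finsupp.lmapDomain_apply,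
    ← Finsupp.mapDomain_comp]
  congr 1
  funext l
  simp only [Function.comp_apply, List.map_map]
  rfl

theorem mapm_id' {α : Type} (z : List α →₀ ℝ) : mapm ℝ (fun x : α => x) z = z := by
  unfold mapm
  rw [Finsupp.lmapDomain_apply]
  have h2 : List.map (fun x : α => x) = id := by
    funext l
    simp
  rw [h2, Finsupp.mapDomain_id]

theorem mem_support_mapm {α β : Type} (f : α → β) (z : List α →₀ ℝ) (l' : List β)
    (h : l' ∈ (mapm ℝ f z).support) : ∃ l ∈ z.support, l' = l.map f := by
  have h1 := Finsupp.mapDomain_support h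
  rw [Finset.mem_image] at h1
  obtain ⟨l, hl, rfl⟩ := h1
  exact ⟨l, hl, rfl⟩

theorem sum_mapm {α β : Type} (f : α → β) (z : List α →₀ ℝ) (h : List β → ℝ) :
    (mapm ℝ f z).sum (fun l a => a * h l) = z.sum fun l a => a * h (l.map f) := by
  unfold mapm
  rw [Finsupp.lmapDomain_apply, Finsupp.sum_mapDomain_index]
  · intro b
    ring
  · intro b m₁ m₂
    ring

theorem act_one (z : List (E n F) →₀ ℝ) : act ℝ (1 : G n F) z = z := mapm_id' z

theorem act_mul (g g' : G n F) (z : List (E n F) →₀ ℝ) :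
    act ℝ (g * g') z = act ℝ g (act ℝ g' z) :=
  mapm_comp (fun x => (g.1.1 : E n F → E n F) x) (fun x => (g'.1.1 : E n F → E n F) x) z

theorem zc_act (h1 : S_LC1) (hp : S_PO) (g : G n F) (z : List (E n F) →₀ ℝ) (hz : Zc z) :
    Zc (act ℝ g z) := by
  refine ⟨fun l hl => ?_, ?_⟩
  · obtain ⟨l', hl', rfl⟩ := mem_support_mapm _ _ _ hl
    refine ⟨by rw [List.length_map]; exact (hz.1 l' hl').1, ?_⟩
    exact (hp n F).2.1 l' g (hz.1 l' hl').2
  · unfold act
    rw [(h1 ℝ (E n F) (E n F)).2.2.1, hz.2, map_zero]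

/-! ### the linear algebra of the reflection in a horizontal unit vector -/

/-- The reflection of `ℝ ^ n`. -/
noncomputable def rr (u x : Fin n → ℝ) : Fin n → ℝ := x - (2 * (x ⬝ᵥ u)) • u

/-- Its matrix. -/
noncomputable def RR (u : Fin n → ℝ) : Matrix (Fin n) (Fin n) ℝ :=
  1 + Matrix.replicateCol Unit u * Matrix.replicateRow Unit ((-2 : ℝ) • u)

theorem det_RR (u : Fin n → ℝ) (hu : u ⬝ᵥ u = 1) : (RR u).det = -1 := by
  unfold RR
  rw [Matrix.det_one_add_replicateCol_mul_replicateRow, smul_dotProduct, hu]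
  norm_num

theorem vecMul_RR (u x : Fin n → ℝ) : Matrix.vecMul x (RR u) = rr u x := by
  unfold RR rr
  rw [Matrix.vecMul_add, Matrix.vecMul_one, ← Matrix.vecMul_vecMul]
  have h1 : Matrix.vecMul x (Matrix.replicateCol Unit u) = fun _ => x ⬝ᵥ u := by
    ext i
    rfl
  rw [h1]
  have h2 : Matrix.vecMul (fun _ : Unit => x ⬝ᵥ u) (Matrix.replicateRow Unit ((-2 : ℝ) • u)) =
      (x ⬝ᵥ u) • ((-2 : ℝ) • u) := by
    ext i
    simp [Matrix.vecMul, dotProduct]
  rw [h2, smul_smul, sub_eq_add_neg, ← neg_smul]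
  congr 2
  ring

theorem rr_rr (u x : Fin n → ℝ) (hu : u ⬝ᵥ u = 1) : rr u (rr u x) = x := by
  unfold rr
  rw [sub_dotProduct, smul_dotProduct, hu, sub_sub, ← add_smul, smul_eq_mul]
  have : 2 * (x ⬝ᵥ u) + 2 * (x ⬝ᵥ u - 2 * (x ⬝ᵥ u) * 1) = 0 := by ring
  rw [this, zero_smul, sub_zero]

/-- `rr` as a linear map. -/
noncomputable def rrL (u : Fin n → ℝ) : (Fin n → ℝ) →ₗ[ℝ] (Fin n → ℝ) where
  toFun := rr u
  map_add' x y := by
    unfold rr
    rw [add_dotProduct, mul_add, add_smul]
    abel
  map_smul' c x := by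
    unfold rr
    rw [smul_dotProduct, smul_eq_mul, RingHom.id_apply, smul_sub, smul_smul]
    congr 2
    ring

theorem D_refl (u p : Fin n → ℝ) (hu : u ⬝ᵥ u = 1) (f : E n F → E n F)
    (hf : ∀ x, (f x).1 = rr u x.1) (hf0 : f 0 = 0) (l : List (E n F)) :
    D p (l.map f) = - D (rr u p) l ∧ (Gen p (l.map f) → Gen (rr u p) l) := by
  have hent : ∀ i : ℕ, ((l.map f).getD i 0).1 = rr u (l.getD i 0).1 := by
    intro i
    have h := List.getD_map (l := l) (d := (0 : E n F)) (n := i) f
    rw [hf0] at h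
    rw [h, hf]
  have hmat : mat (l.map f) = mat l * RR u := by
    ext i j
    have h1 : (mat l * RR u) i = Matrix.vecMul (mat l i) (RR u) := by
      ext k
      rfl
    rw [h1, vecMul_RR]
    have h2 : mat (l.map f) i = rr u (mat l i) := hent i
    rw [h2]
  have hupd : ∀ i, (mat (l.map f)).updateRow i p = (mat l).updateRow i (rr u p) * RR u := by
    intro i
    ext j k
    have h1 : ((mat l).updateRow i (rr u p) * RR u) j =
        Matrix.vecMul ((mat l).updateRow i (rr u p) j) (RR u) := by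
      ext k
      rfl
    rw [h1, vecMul_RR]
    by_cases hij : j = i
    · subst hij
      rw [Matrix.updateRow_self, Matrix.updateRow_self, rr_rr u p hu]
    · rw [Matrix.updateRow_ne hij, Matrix.updateRow_ne hij]
      have h2 : mat (l.map f) j = rr u (mat l j) := hent j
      rw [h2]
  constructor
  · unfold D
    have hc : (∀ i : Fin n, 0 < (mat (l.map f)).det * ((mat (l.map f)).updateRow i p).det) ↔
        ∀ i : Fin n, 0 < (mat l).det * ((mat l).updateRow i (rr u p)).det := by
      refine forall_congr' fun i => ?_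
      rw [hupd, hmat, Matrix.det_mul, Matrix.det_mul, det_RR u hu]
      have : (mat l).det * -1 * (((mat l).updateRow i (rr u p)).det * -1) =
          (mat l).det * ((mat l).updateRow i (rr u p)).det := by ring
      rw [this]
    by_cases h : ∀ i : Fin n, 0 < (mat l).det * ((mat l).updateRow i (rr u p)).det
    · rw [if_pos (hc.2 h), if_pos h, hmat, Matrix.det_mul, det_RR u hu, mul_neg, mul_one,
        Left.sign_neg]
      simp
    · rw [if_neg (fun h' => h (hc.1 h')), if_neg h, neg_zero]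
  · intro hG i hmem
    apply hG i
    have h3 : p = rrL u (rr u p) := (rr_rr u p hu).symm
    rw [h3]
    have h4 : (fun j : Fin n => ((l.map f).getD j 0).1) '' {j | j ≠ i} =
        rrL u '' ((fun j : Fin n => (l.getD j 0).1) '' {j | j ≠ i}) := by
      rw [Set.image_image]
      refine Set.image_congr fun j _ => ?_
      exact hent j
    rw [h4, ← LinearMap.map_span]
    exact Submodule.mem_map_of_mem hmem

/-! ### the path -/

/-- The path from the horizontal unit vector to `(a, b)`. -/
noncomputable def pth (a : Fin n → ℝ) (b : F) (s : ℝ) : E n F :=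
  ((Real.sqrt (1 + s ^ 2 * inner ℝ b b) / Real.sqrt (1 + inner ℝ b b)) • a, s • b)

theorem B_pth (a : Fin n → ℝ) (b : F) (hab : a ⬝ᵥ a = 1 + inner ℝ b b) (s : ℝ) :
    B (pth a b s) (pth a b s) = 1 := by
  have hb : 0 ≤ inner ℝ b b := real_inner_self_nonneg
  have h1 : 0 < 1 + inner ℝ b b := by linarith
  have h2 : 0 ≤ 1 + s ^ 2 * inner ℝ b b := by positivity
  unfold B pth
  simp only [smul_dotProduct, dotProduct_smul, inner_smul_left, inner_smul_right,
    RCLike.conj_to_real, smul_eq_mul]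
  rw [hab]
  have h3 := Real.mul_self_sqrt h2
  have h4 := Real.mul_self_sqrt h1.le
  have h5 : Real.sqrt (1 + inner ℝ b b) ≠ 0 := (Real.sqrt_pos.2 h1).ne'
  have h6 : Real.sqrt (1 + s ^ 2 * inner ℝ b b) / Real.sqrt (1 + inner ℝ b b) *
      (Real.sqrt (1 + s ^ 2 * inner ℝ b b) / Real.sqrt (1 + inner ℝ b b) * (1 + inner ℝ b b)) =
      1 + s ^ 2 * inner ℝ b b := by
    rw [← mul_assoc, div_mul_div_comm, h3, h4]
    field_simp
  rw [h6]
  ring

theorem pth_cont (a : Fin n → ℝ) (b : F) : Continuous (pth a b) := by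
  have h1 : Continuous fun s : ℝ =>
      (Real.sqrt (1 + s ^ 2 * inner ℝ b b) / Real.sqrt (1 + inner ℝ b b)) • a := by
    have h3 : Continuous fun s : ℝ =>
        Real.sqrt (1 + s ^ 2 * inner ℝ b b) / Real.sqrt (1 + inner ℝ b b) := by
      refine Continuous.div_const ?_ _
      refine Continuous.sqrt ?_
      fun_prop
    exact h3.smul (continuous_const (y := a))
  have h2 : Continuous fun s : ℝ => s • b := by fun_prop
  exact h1.prodMk h2

theorem B_cont (x : E n F) {f : ℝ → E n F} (hf : Continuous f) :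
    Continuous fun s => B x (f s) := by
  unfold B
  refine Continuous.sub ?_ ?_
  · unfold dotProduct
    refine continuous_finsetSum _ fun i _ => ?_
    exact continuous_const.mul ((continuous_apply i).comp (continuous_fst.comp hf))
  · exact continuous_const.inner (continuous_snd.comp hf)

theorem refl_smul (c : ℝ) (hc : c ≠ 0) (e : E n F) (x : E n F) :
    refl (c • e) x = refl e x := by
  rw [refl_apply, refl_apply, B_smul_right, B_smul_left, B_smul_right, smul_smul]
  congr 2
  by_cases h : B e e = 0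
  · rw [h]
    simp
  · field_simp

/-- The generator. -/
noncomputable def gg (e : E n F) (he : 0 < B e e) : G n F :=
  ⟨(refl e, -1), Subgroup.subset_closure ⟨e, he, rfl⟩⟩

theorem gg_apply (e : E n F) (he : 0 < B e e) (z : List (E n F) →₀ ℝ) :
    act ℝ (gg e he) z = mapm ℝ (fun x => refl e x) z := rfl

theorem chi_gg (e : E n F) (he : 0 < B e e) : chi n F (gg e he) = -1 := rfl

end DG6

theorem prfDG6 (h1 : S_LC1) (hp : S_PO) (hh : S_HO) (h4 : S_DG4) (h5 : S_DG5) : S_DG6 := by
  intro n F _ _ hn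
  obtain ⟨deg, hform, hbdry, hadd, hsmul, hle⟩ := h5 n F hn
  -- differences
  have hsub : ∀ z z' : List (E n F) →₀ ℝ, Zc z → Zc z' → deg (z - z') = deg z - deg z' := by
    intro z z' hz hz'
    have hneg : Zc ((-1 : ℝ) • z') := by
      refine ⟨fun l hl => hz'.1 l (Finsupp.support_smul hl), ?_⟩
      rw [map_smul, hz'.2, smul_zero]
    have h2 : z - z' = z + (-1 : ℝ) • z' := by
      rw [neg_one_smul, sub_eq_add_neg]
    rw [h2, hadd z _ hz hneg, hsmul _ _ hz']
    ring
  -- horizontal unit vectors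
  have hhor : ∀ (u : Fin n → ℝ), u ⬝ᵥ u = 1 → ∀ z : List (E n F) →₀ ℝ, Zc z →
      Zc (mapm ℝ (fun x : E n F => refl ((u, 0) : E n F) x) z) →
      deg (mapm ℝ (fun x : E n F => refl ((u, 0) : E n F) x) z) = - deg z := by
    intro u hu z hz hz'
    set f : E n F → E n F := fun x => refl ((u, 0) : E n F) x with hf
    have hBu : B ((u, 0) : E n F) ((u, 0) : E n F) = 1 := by
      unfold B
      simp [hu]
    have hf1 : ∀ x, (f x).1 = DG6.rr u x.1 := by
      intro x
      rw [hf]
      simp only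
      rw [refl_apply, hBu, div_one]
      have : B x ((u, 0) : E n F) = x.1 ⬝ᵥ u := by
        unfold B
        simp
      rw [this]
      rfl
    have hf0 : f 0 = 0 := by
      rw [hf]
      simp
    obtain ⟨p, hpG⟩ := h4 n F hn (z.support.biUnion fun l => (l.map f).toFinset)
    have hG1 : ∀ l ∈ z.support, Gen p (l.map f) := by
      intro l hl
      refine hpG _ (by rw [List.length_map]; exact (hz.1 l hl).1) fun x hx => ?_
      rw [Finset.mem_biUnion]
      exact ⟨l, hl, by simpa using hx⟩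
    have hG2 : ∀ l ∈ (mapm ℝ f z).support, Gen p l := by
      intro l hl
      obtain ⟨l', hl', rfl⟩ := DG6.mem_support_mapm _ _ _ hl
      exact hG1 l' hl'
    rw [hform _ hz' p hG2, DG6.sum_mapm,
      hform z hz (DG6.rr u p) (fun l hl => (DG6.D_refl u p hu f hf1 hf0 l).2 (hG1 l hl))]
    unfold Finsupp.sum
    rw [← Finset.sum_neg_distrib]
    refine Finset.sum_congr rfl fun l _ => ?_
    have h13 := (DG6.D_refl u p hu f hf1 hf0 l).1
    simp only
    rw [h13]
    ring
  -- generators
  have hgen : ∀ (e : E n F) (he : 0 < B e e) (z : List (E n F) →₀ ℝ), Zc z →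
      deg (act ℝ (DG6.gg e he) z) = - deg z := by
    intro e he z hz
    set c := (Real.sqrt (B e e))⁻¹ with hc
    have hs : 0 < Real.sqrt (B e e) := Real.sqrt_pos.2 he
    have hc0 : c ≠ 0 := (inv_pos.2 hs).ne'
    set a := (c • e).1 with ha
    set b := (c • e).2 with hb
    have hBt : B (c • e) (c • e) = 1 := by
      rw [B_smul_left, B_smul_right, ← mul_assoc, hc, ← mul_inv, Real.mul_self_sqrt he.le,
        inv_mul_cancel₀ he.ne']
    have hab : a ⬝ᵥ a = 1 + inner ℝ b b := by
      unfold B at hBt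
      linarith
    have hbb : 0 ≤ inner ℝ b b := real_inner_self_nonneg
    have h1b : 0 < 1 + inner ℝ b b := by linarith
    have hpos : ∀ s, 0 < B (DG6.pth a b s) (DG6.pth a b s) := by
      intro s
      rw [DG6.B_pth a b hab s]
      exact one_pos
    have hp1 : DG6.pth a b 1 = c • e := by
      unfold DG6.pth
      rw [one_pow, one_mul, div_self (Real.sqrt_pos.2 h1b).ne', one_smul, one_smul]
    have hact : act ℝ (DG6.gg e he) z = mapm ℝ (fun x => refl (DG6.pth a b 1) x) z := by
      rw [DG6.gg_apply, hp1]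
      congr 1
      have : (fun x : E n F => refl e x) = fun x => refl (c • e) x := by
        funext x
        exact (DG6.refl_smul c hc0 e x).symm
      rw [this]
    have hz1 : ∀ s, Zc (mapm ℝ (fun x => refl (DG6.pth a b s) x) z) := fun s =>
      DG6.zc_act h1 hp (DG6.gg (DG6.pth a b s) (hpos s)) z hz
    obtain ⟨w, hw, hbw⟩ := hh n F n (fun s x => refl (DG6.pth a b s) x) z
      (fun x => by
        refine Continuous.continuousOn ?_
        have h2 : (fun s => refl (DG6.pth a b s) x) =
            fun s => x - (2 * B x (DG6.pth a b s)) • DG6.pth a b s := by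
          funext s
          rw [refl_apply, DG6.B_pth a b hab s, div_one]
        rw [h2]
        refine continuous_const.sub ?_
        exact (continuous_const.mul (DG6.B_cont x (DG6.pth_cont a b))).smul (DG6.pth_cont a b))
      (fun l hl => ⟨(hz.1 l hl).1, fun s _ =>
        (hp n F).2.1 l (DG6.gg (DG6.pth a b s) (hpos s)) (hz.1 l hl).2⟩) hz.2
    have h3 := hbdry w hw
    rw [hbw, hsub _ _ (hz1 1) (hz1 0)] at h3
    rw [hact, sub_eq_zero.1 h3]
    have h6 : DG6.pth a b 0 = (((Real.sqrt (1 + inner ℝ b b))⁻¹ • a, 0) : E n F) := by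
      unfold DG6.pth
      rw [zero_smul]
      norm_num
    have h7 : (Real.sqrt (1 + inner ℝ b b))⁻¹ • a ⬝ᵥ (Real.sqrt (1 + inner ℝ b b))⁻¹ • a = 1 := by
      rw [smul_dotProduct, dotProduct_smul, hab, smul_eq_mul, smul_eq_mul, ← mul_assoc,
        ← mul_inv, Real.mul_self_sqrt h1b.le, inv_mul_cancel₀ h1b.ne']
    have h8 := hz1 0
    rw [h6] at h8 ⊢
    exact hhor _ h7 z hz h8
  have hequi : ∀ (g : (E n F ≃ₗ[ℝ] E n F) × ℤˣ) (hg : g ∈ Gs n F) (z : List (E n F) →₀ ℝ),
      Zc z → deg (act ℝ (⟨g, hg⟩ : G n F) z) =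
        (((chi n F ⟨g, hg⟩ : ℤˣ) : ℤ) : ℝ) * deg z := by
    intro g hg
    induction hg using Subgroup.closure_induction with
    | mem g hg =>
      intro z hz
      obtain ⟨e, he, rfl⟩ := hg
      have h9 := hgen e he z hz
      have h10 : chi n F (DG6.gg e he) = -1 := rfl
      have h11 : (((chi n F (DG6.gg e he) : ℤˣ) : ℤ) : ℝ) = -1 := by
        rw [h10]
        simp
      have h12 : deg (act ℝ (DG6.gg e he) z) =
          (((chi n F (DG6.gg e he) : ℤˣ) : ℤ) : ℝ) * deg z := by
        rw [h9, h11]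
        ring
      exact h12
    | one =>
      intro z hz
      have h9 : act ℝ (1 : G n F) z = z := DG6.act_one z
      have h10 : deg (act ℝ (1 : G n F) z) = (((chi n F 1 : ℤˣ) : ℤ) : ℝ) * deg z := by
        rw [h9, map_one]
        simp
      exact h10
    | mul g g' hg hg' ih ih' =>
      intro z hz
      have h9 : deg (act ℝ ((⟨g, hg⟩ : G n F) * ⟨g', hg'⟩) z) =
          (((chi n F (⟨g, hg⟩ * ⟨g', hg'⟩) : ℤˣ) : ℤ) : ℝ) * deg z := by
        rw [DG6.act_mul, ih _ (DG6.zc_act h1 hp _ z hz), ih' z hz, map_mul]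
        push_cast
        ring
      exact h9
    | inv g hg ih =>
      intro z hz
      have h9 : deg (act ℝ ((⟨g, hg⟩ : G n F)⁻¹) z) =
          (((chi n F ((⟨g, hg⟩ : G n F)⁻¹) : ℤˣ) : ℤ) : ℝ) * deg z := by
        have h10 := ih _ (DG6.zc_act h1 hp ((⟨g, hg⟩ : G n F)⁻¹) z hz)
        rw [← DG6.act_mul, mul_inv_cancel, DG6.act_one] at h10
        rw [map_inv]
        rcases Int.units_eq_one_or (chi n F ⟨g, hg⟩) with h | h
        · rw [h] at h10 ⊢
          simp at h10 ⊢
          exact h10.symm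
        · rw [h] at h10 ⊢
          simp at h10 ⊢
          rw [h10]
          ring
      exact h9
  exact ⟨⟨deg, hform, hbdry, hadd, hsmul, fun g z hz => hequi g.1 g.2 z hz, hle⟩⟩

end MP8a95ee.Eu
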