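import Pool.Agent.Work.MP_8a95ee_gt.Eu.Stmts2

namespace MP8a95ee.Eu

open Classical

namespace H1

section

variable {n : ℕ} {F : Type} [NormedAddCommGroup F] [InnerProductSpace ℝ F]

theorem B_sum_left {ι : Type} (s : Finset ι) (f : ι → E n F) (z : E n F) :
    B (∑ i ∈ s, f i) z = ∑ i ∈ s, B (f i) z := by
  induction s using Finset.induction_on with
  | empty => simp [B_zero_left]
  | insert a s ha ih => rw [Finset.sum_insert ha, Finset.sum_insert ha, B_add_left, ih]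

theorem B_sum_right {ι : Type} (s : Finset ι) (f : ι → E n F) (z : E n F) :
    B z (∑ i ∈ s, f i) = ∑ i ∈ s, B z (f i) := by
  rw [B_comm, B_sum_left]
  exact Finset.sum_congr rfl fun i _ => B_comm _ _

/-- The projection. -/
noncomputable def pr (ρ : Finset ℕ) (e : ℕ → E n F) : E n F →ₗ[ℝ] E n F where
  toFun y := y - ∑ v ∈ ρ, B y (e v) • e v
  map_add' x y := by
    have : ∑ v ∈ ρ, B (x + y) (e v) • e v =
        ∑ v ∈ ρ, B x (e v) • e v + ∑ v ∈ ρ, B y (e v) • e v := by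
      rw [← Finset.sum_add_distrib]
      exact Finset.sum_congr rfl fun v _ => by rw [B_add_left, add_smul]
    rw [this]
    abel
  map_smul' c x := by
    have : ∑ v ∈ ρ, B (c • x) (e v) • e v = c • ∑ v ∈ ρ, B x (e v) • e v := by
      rw [Finset.smul_sum]
      exact Finset.sum_congr rfl fun v _ => by rw [B_smul_left, mul_smul]
    rw [this, RingHom.id_apply, smul_sub]

theorem pr_apply (ρ : Finset ℕ) (e : ℕ → E n F) (y : E n F) :
    pr ρ e y = y - ∑ v ∈ ρ, B y (e v) • e v := rfl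

variable {ρ : Finset ℕ} {e : ℕ → E n F}

theorem pr_orth (h1 : ∀ v ∈ ρ, B (e v) (e v) = 1)
    (h2 : ∀ u ∈ ρ, ∀ v ∈ ρ, u ≠ v → B (e u) (e v) = 0) (y : E n F) (u : ℕ) (hu : u ∈ ρ) :
    B (pr ρ e y) (e u) = 0 := by
  rw [pr_apply, B_sub_left, B_sum_left, Finset.sum_eq_single u]
  · rw [B_smul_left, h1 u hu, mul_one, sub_self]
  · intro v hv hvu
    rw [B_smul_left, h2 v hv u hu hvu, mul_zero]
  · intro h
    exact absurd hu h

theorem B_pr (h1 : ∀ v ∈ ρ, B (e v) (e v) = 1)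
    (h2 : ∀ u ∈ ρ, ∀ v ∈ ρ, u ≠ v → B (e u) (e v) = 0) (y : E n F) :
    B (pr ρ e y) (pr ρ e y) = B y y - ∑ v ∈ ρ, (B y (e v)) ^ 2 := by
  have hs : B (pr ρ e y) (pr ρ e y) = B (pr ρ e y) (y - ∑ v ∈ ρ, B y (e v) • e v) := rfl
  rw [hs, B_sub_right, B_sum_right]
  have h0 : ∑ v ∈ ρ, B (pr ρ e y) (B y (e v) • e v) = 0 := by
    refine Finset.sum_eq_zero fun v hv => ?_
    rw [B_smul_right, pr_orth h1 h2 y v hv, mul_zero]
  rw [h0, sub_zero, pr_apply, B_sub_left, B_sum_left]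
  congr 1
  refine Finset.sum_congr rfl fun v _ => ?_
  rw [B_smul_left, B_comm (e v) y]
  ring

theorem pr_mem (h1 : ∀ v ∈ ρ, B (e v) (e v) = 1)
    (h2 : ∀ u ∈ ρ, ∀ v ∈ ρ, u ≠ v → B (e u) (e v) = 0) (v : ℕ) (hv : v ∈ ρ) :
    pr ρ e (e v) = 0 := by
  rw [pr_apply, Finset.sum_eq_single v]
  · rw [h1 v hv, one_smul, sub_self]
  · intro u hu huv
    rw [h2 v hv u hu huv.symm, zero_smul]
  · intro h
    exact absurd hv h

theorem pr_span (h1 : ∀ v ∈ ρ, B (e v) (e v) = 1)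
    (h2 : ∀ u ∈ ρ, ∀ v ∈ ρ, u ≠ v → B (e u) (e v) = 0) (x : E n F)
    (hx : x ∈ Submodule.span ℝ (e '' (ρ : Set ℕ))) : pr ρ e x = 0 := by
  have : Submodule.span ℝ (e '' (ρ : Set ℕ)) ≤ LinearMap.ker (pr ρ e) := by
    rw [Submodule.span_le]
    rintro _ ⟨v, hv, rfl⟩
    exact pr_mem h1 h2 v hv
  exact this hx

theorem B_of_fst_zero (z : E n F) (hz : z.1 = 0) : B z z ≤ 0 := by
  unfold B
  rw [hz, zero_dotProduct]
  have : 0 ≤ inner ℝ z.2 z.2 := real_inner_self_nonneg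
  linarith

end

end H1

open H1 in
theorem prfH1 (h0 : S_H0) : S_H1 := by
  intro n F _ _ L Dt hL l hl
  obtain ⟨g, ρ, hρ, hcard, hall⟩ := hl
  obtain ⟨-, -, hiso, hspan⟩ := h0 n F L Dt hL
  have hmem : ∀ σ ∈ L, ∀ v ∈ σ, v ∈ verts L := by
    intro σ hσ v hv
    unfold verts
    rw [Finset.mem_biUnion]
    exact ⟨σ, hσ, hv⟩
  have h1' : ∀ σ ∈ L, ∀ v ∈ σ, B (Dt.e v) (Dt.e v) = 1 := fun σ hσ v hv =>
    Dt.unit v (hmem σ hσ v hv)
  have h2' : ∀ σ ∈ L, ∀ u ∈ σ, ∀ v ∈ σ, u ≠ v → B (Dt.e u) (Dt.e v) = 0 := fun σ hσ u hu v hv huv =>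
    Dt.orth u v huv ((hL σ).1 hσ u hu v hv)
  have h1 := h1' ρ hρ
  have h2 := h2' ρ hρ
  set P := pr ρ Dt.e with hP
  -- positivity
  have hx : ∀ σ ∈ L, σ.card = n → ρ ⊆ σ → 0 < B (P (Dt.x σ)) (P (Dt.x σ)) := by
    intro σ hσ hσn hρσ
    have hm := Dt.x_mem σ hσ hσn
    rw [Submodule.mem_span_image_finset_iff_exists_fun'] at hm
    obtain ⟨c, hc⟩ := hm
    have e1 : P (Dt.x σ) = ∑ v ∈ σ \ ρ, c v • Dt.e v := by
      rw [← hc, map_sum, ← Finset.sum_sdiff hρσ]
      have e2 : ∑ v ∈ ρ, P (c v • Dt.e v) = 0 := by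
        refine Finset.sum_eq_zero fun v hv => ?_
        rw [map_smul, hP, pr_mem h1 h2 v hv, smul_zero]
      rw [e2, add_zero]
      refine Finset.sum_congr rfl fun v hv => ?_
      rw [Finset.mem_sdiff] at hv
      rw [map_smul]
      congr 1
      rw [hP, pr_apply, Finset.sum_eq_zero, sub_zero]
      intro u hu
      rw [h2' σ hσ v hv.1 u (hρσ hu) (fun h => hv.2 (h ▸ hu)), zero_smul]
    have e3 : B (P (Dt.x σ)) (P (Dt.x σ)) = ∑ v ∈ σ \ ρ, (c v) ^ 2 := by
      rw [e1, B_sum_left]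
      refine Finset.sum_congr rfl fun v hv => ?_
      rw [Finset.mem_sdiff] at hv
      rw [B_smul_left, B_sum_right, Finset.sum_eq_single v]
      · rw [B_smul_right, h1' σ hσ v hv.1]
        ring
      · intro u hu huv
        rw [Finset.mem_sdiff] at hu
        rw [B_smul_right, h2' σ hσ v hv.1 u hu.1 huv.symm, mul_zero]
      · intro h
        exact absurd (Finset.mem_sdiff.2 hv) h
    rw [e3]
    by_contra hneg
    have hz : ∀ v ∈ σ \ ρ, c v = 0 := by
      have hs : ∑ v ∈ σ \ ρ, (c v) ^ 2 = 0 :=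
        le_antisymm (not_lt.1 hneg) (Finset.sum_nonneg fun v _ => sq_nonneg _)
      intro v hv
      have := (Finset.sum_eq_zero_iff_of_nonneg (fun v _ => sq_nonneg (c v))).1 hs v hv
      exact pow_eq_zero_iff (two_ne_zero) |>.1 this
    apply Dt.gen ρ hρ hcard
    rw [← Dt.x_fst σ hσ hσn, ← hc, ← Finset.sum_sdiff hρσ, Finset.sum_eq_zero, zero_add]
    · rw [Prod.fst_sum]
      refine Submodule.sum_mem _ fun v hv => ?_
      rw [Prod.smul_fst]
      exact Submodule.smul_mem _ _ (Submodule.subset_span ⟨v, hv, rfl⟩)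
    · intro v hv
      rw [hz v hv, zero_smul]
  -- the convex set
  let C : Set (E n F) := {u | ∃ y : E n F, y.1 = Dt.p ∧ P u = P y ∧ 0 < B (P u) (P u)}
  have hC : Convex ℝ C := by
    intro a ha b hb s t hs ht hst
    obtain ⟨ya, hya, hPa, hQa⟩ := ha
    obtain ⟨yb, hyb, hPb, hQb⟩ := hb
    refine ⟨s • ya + t • yb, ?_, ?_, ?_⟩
    · rw [Prod.fst_add, Prod.smul_fst, Prod.smul_fst, hya, hyb, ← add_smul, hst, one_smul]
    · rw [map_add, map_add, map_smul, map_smul, map_smul, map_smul, hPa, hPb]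
    · have hD : B (P a - P b) (P a - P b) ≤ 0 := by
        rw [hPa, hPb, ← map_sub, hP, B_pr h1 h2]
        have h3 : B (ya - yb) (ya - yb) ≤ 0 := by
          apply B_of_fst_zero
          rw [Prod.fst_sub, hya, hyb, sub_self]
        have h4 : 0 ≤ ∑ v ∈ ρ, (B (ya - yb) (Dt.e v)) ^ 2 :=
          Finset.sum_nonneg fun v _ => sq_nonneg _
        linarith
      rw [B_sub_left, B_sub_right, B_sub_right, B_comm (P b) (P a)] at hD
      rw [map_add, map_smul, map_smul, B_add_left, B_add_right, B_add_right]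
      simp only [B_smul_left, B_smul_right]
      rw [B_comm (P b) (P a)]
      have ht' : t = 1 - s := by linarith
      have h5 : 0 ≤ s * t := mul_nonneg hs ht
      have h6 : s * t * (B (P a) (P a) + B (P b) (P b)) ≤ s * t * (2 * B (P a) (P b)) :=
        mul_le_mul_of_nonneg_left (by linarith) h5
      have h7 : 0 < s * B (P a) (P a) + t * B (P b) (P b) := by
        rcases hs.eq_or_lt with h | h
        · rw [← h] at hst
          rw [← h]
          have : t = 1 := by linarith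
          rw [this]
          linarith
        · have h8 := mul_pos h hQa
          have h9 := mul_nonneg ht hQb.le
          linarith
      have h10 : s * (s * B (P a) (P a)) + t * (t * B (P b) (P b)) +
          s * t * (B (P a) (P a) + B (P b) (P b)) = s * B (P a) (P a) + t * B (P b) (P b) := by
        rw [ht']
        ring
      nlinarith
  -- the image
  have hsub : convexHull ℝ {x | x ∈ th Dt l} ⊆ (g.1.1 : E n F →ₗ[ℝ] E n F) '' C := by
    refine convexHull_min ?_ (hC.linear_image _)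
    intro x hx'
    have hx'' : x ∈ th Dt l := hx'
    unfold th at hx''
    rw [List.mem_map] at hx''
    obtain ⟨a, ha, rfl⟩ := hx''
    obtain ⟨hρa, haL, han, w, hw, hgw⟩ := hall a ha
    have hPw : P (w.1.1 (Dt.x a.2)) = P (Dt.x a.2) := by
      have := pr_span h1 h2 _ (hspan ρ hρ w hw (Dt.x a.2))
      rw [map_sub, sub_eq_zero] at this
      exact this
    refine ⟨w.1.1 (Dt.x a.2), ⟨Dt.x a.2, Dt.x_fst _ haL han, hPw, ?_⟩, ?_⟩
    · rw [hPw]
      exact hx a.2 haL han hρa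
    · rw [hgw]
      rfl
  intro w hw
  obtain ⟨u, ⟨y, -, -, hQ⟩, rfl⟩ := hsub hw
  have e4 : B ((g.1.1 : E n F →ₗ[ℝ] E n F) u) ((g.1.1 : E n F →ₗ[ℝ] E n F) u) = B u u :=
    hiso g u u
  rw [e4]
  rw [hP, B_pr h1 h2] at hQ
  have h4 : 0 ≤ ∑ v ∈ ρ, (B u (Dt.e v)) ^ 2 := Finset.sum_nonneg fun v _ => sq_nonneg _
  linarith

end MP8a95ee.Eu
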