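import Pool.Agent.Work.MP_8a95ee_gt.Eu.Stmts

/-!
# The prism operator for lists
-/

namespace MP8a95ee

namespace Eu

open Classical

namespace HO1

variable {α β : Type}

/-- The prism. -/
noncomputable def Pm (g g' : α → β) : List α → (List β →₀ ℝ)
  | [] => 0
  | a :: l => Finsupp.single (g a :: g' a :: l.map g') 1 - consm ℝ (g a) (Pm g g' l)

theorem consm_single (c : β) (l : List β) (r : ℝ) :
    consm ℝ c (Finsupp.single l r) = Finsupp.single (c :: l) r := by
  unfold consm
  rw [Finsupp.lmapDomain_apply, Finsupp.mapDomain_single]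

theorem bd_single (l : List β) : bd ℝ (Finsupp.single l 1) = faces ℝ l := by
  unfold bd
  rw [Finsupp.linearCombination_single, one_smul]

theorem faces_cons (a : β) (l : List β) :
    faces ℝ (a :: l) = Finsupp.single l 1 - consm ℝ a (faces ℝ l) := rfl

theorem bd_consm (c : β) (z : List β →₀ ℝ) :
    bd ℝ (consm ℝ c z) = z - consm ℝ c (bd ℝ z) := by
  have h : (bd ℝ).comp (consm ℝ c) = LinearMap.id - (consm ℝ c).comp (bd ℝ) := by
    apply Finsupp.lhom_ext'
    intro l
    apply LinearMap.ext_ring
    simp only [LinearMap.comp_apply, Finsupp.lsingle_apply, LinearMap.sub_apply,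
      LinearMap.id_apply]
    rw [consm_single, bd_single, bd_single, faces_cons]
  exact DFunLike.congr_fun h z

theorem faces_map (f : α → β) (l : List α) :
    faces ℝ (l.map f) = mapm ℝ f (faces ℝ l) := by
  induction l with
  | nil =>
    show (0 : List β →₀ ℝ) = mapm ℝ f 0
    rw [map_zero]
  | cons a l ih =>
    rw [List.map_cons, faces_cons, faces_cons, ih, map_sub]
    congr 1
    · unfold mapm
      rw [Finsupp.lmapDomain_apply, Finsupp.mapDomain_single]
    · unfold mapm consm
      simp only [Finsupp.lmapDomain_apply]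
      rw [← Finsupp.mapDomain_comp, ← Finsupp.mapDomain_comp]
      rfl

theorem lin_single {M : Type} [AddCommGroup M] [Module ℝ M] (f : List α → M) (l : List α) :
    lin ℝ f (Finsupp.single l 1) = f l := by
  unfold lin
  rw [Finsupp.linearCombination_single, one_smul]

theorem lin_consm {M : Type} [AddCommGroup M] [Module ℝ M] (f : List α → M) (a : α)
    (z : List α →₀ ℝ) :
    lin ℝ f (consm ℝ a z) = lin ℝ (fun l => f (a :: l)) z := by
  have h : (lin ℝ f).comp (consm ℝ a) = lin ℝ (fun l => f (a :: l)) := by
    apply Finsupp.lhom_ext'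
    intro l
    apply LinearMap.ext_ring
    simp only [LinearMap.comp_apply, Finsupp.lsingle_apply]
    rw [consm_single, lin_single, lin_single]
  exact DFunLike.congr_fun h z

theorem lin_Pm_cons (g g' : α → β) (a : α) (z : List α →₀ ℝ) :
    lin ℝ (fun l => Pm g g' (a :: l)) z =
      consm ℝ (g a) (consm ℝ (g' a) (mapm ℝ g' z)) - consm ℝ (g a) (lin ℝ (Pm g g') z) := by
  have h : lin ℝ (fun l => Pm g g' (a :: l)) =
      (consm ℝ (g a)).comp ((consm ℝ (g' a)).comp (mapm ℝ g')) -
        (consm ℝ (g a)).comp (lin ℝ (Pm g g')) := by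
    apply Finsupp.lhom_ext'
    intro l
    apply LinearMap.ext_ring
    simp only [LinearMap.comp_apply, Finsupp.lsingle_apply, LinearMap.sub_apply]
    rw [lin_single, lin_single]
    show Finsupp.single (g a :: g' a :: l.map g') 1 - consm ℝ (g a) (Pm g g' l) = _
    congr 1
    have : mapm ℝ g' (Finsupp.single l 1) = Finsupp.single (l.map g') 1 := by
      unfold mapm
      rw [Finsupp.lmapDomain_apply, Finsupp.mapDomain_single]
    rw [this, consm_single, consm_single]
  exact DFunLike.congr_fun h z

theorem main (g g' : α → β) (l : List α) :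
    bd ℝ (Pm g g' l) + lin ℝ (Pm g g') (faces ℝ l) =
      Finsupp.single (l.map g') 1 - Finsupp.single (l.map g) 1 := by
  induction l with
  | nil =>
    show bd ℝ 0 + lin ℝ (Pm g g') 0 = Finsupp.single [] 1 - Finsupp.single [] 1
    rw [map_zero, map_zero, add_zero, sub_self]
  | cons a l ih =>
    have e1 : Pm g g' (a :: l) =
      Finsupp.single (g a :: g' a :: l.map g') 1 - consm ℝ (g a) (Pm g g' l) := rfl
    rw [e1, map_sub, bd_single, faces_cons, faces_cons, bd_consm, faces_cons, map_sub, map_sub,
      lin_single, lin_consm, lin_Pm_cons, faces_map]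
    have e2 : bd ℝ (Pm g g' l) = Finsupp.single (l.map g') 1 - Finsupp.single (l.map g) 1 -
      lin ℝ (Pm g g') (faces ℝ l) := by
      rw [← ih]; abel
    rw [e2, map_sub, map_sub, consm_single, consm_single]
    simp only [List.map_cons]
    abel

theorem supp_consm {c : β} {z : List β →₀ ℝ} {l' : List β} (h : l' ∈ (consm ℝ c z).support) :
    ∃ l ∈ z.support, l' = c :: l := by
  unfold consm at h
  rw [Finsupp.lmapDomain_apply] at h
  have h2 := Finsupp.mapDomain_support h
  rw [Finset.mem_image] at h2
  obtain ⟨l, hl, rfl⟩ := h2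
  exact ⟨l, hl, rfl⟩

theorem supp (g g' : α → β) (l : List α) :
    ∀ l' ∈ (Pm g g' l).support, l'.length = l.length + 1 ∧
      ∀ x ∈ l', x ∈ l.map g ++ l.map g' := by
  induction l with
  | nil =>
    intro l' hl'
    exact absurd hl' (by
      show ¬ l' ∈ (0 : List β →₀ ℝ).support
      simp)
  | cons a l ih =>
    intro l' hl'
    have e1 : Pm g g' (a :: l) =
      Finsupp.single (g a :: g' a :: l.map g') 1 - consm ℝ (g a) (Pm g g' l) := rfl
    rw [e1] at hl'
    have h2 := Finsupp.support_sub hl'
    rw [Finset.mem_union] at h2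
    rcases h2 with h2 | h2
    · have h3 := Finsupp.support_single_subset h2
      rw [Finset.mem_singleton] at h3
      subst h3
      constructor
      · simp
      · intro x hx
        simp only [List.mem_cons, List.map_cons, List.mem_append] at hx ⊢
        rcases hx with hx | hx | hx
        · exact Or.inl (Or.inl hx)
        · exact Or.inr (Or.inl hx)
        · exact Or.inr (Or.inr hx)
    · obtain ⟨m, hm, rfl⟩ := supp_consm h2
      obtain ⟨h3, h4⟩ := ih m hm
      constructor
      · simp [h3]
      · intro x hx
        simp only [List.mem_cons, List.map_cons, List.mem_append] at hx ⊢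
        rcases hx with hx | hx
        · exact Or.inl (Or.inl hx)
        · have h5 := h4 x hx
          rw [List.mem_append] at h5
          rcases h5 with h5 | h5
          · exact Or.inl (Or.inr h5)
          · exact Or.inr (Or.inr h5)

end HO1

theorem prfHO1 : S_HO1 := by
  intro α β
  exact ⟨HO1.Pm, fun g g' l => ⟨HO1.main g g' l, HO1.supp g g' l⟩⟩

end Eu

end MP8a95ee
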