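import Pool.Agent.Work.MP_8a95ee_gt.Eu.Stmts

/-!
# MP_8a95ee, Eu, PK: the package
-/

namespace MP8a95ee.Eu

open Classical

namespace PK

variable {α β : Type}

/-- The real chain of an integral chain. -/
noncomputable def cs : (List α →₀ ℤ) →+ (List α →₀ ℝ) :=
  Finsupp.mapRange.addMonoidHom (Int.castAddHom ℝ)

theorem cs_single (l : List α) (m : ℤ) :
    cs (Finsupp.single l m) = Finsupp.single l (m : ℝ) := by
  unfold cs
  rw [Finsupp.mapRange.addMonoidHom_apply, Finsupp.mapRange_single]
  rfl

theorem cs_apply (z : List α →₀ ℤ) (l : List α) : cs z l = (z l : ℝ) := by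
  unfold cs
  rw [Finsupp.mapRange.addMonoidHom_apply, Finsupp.mapRange_apply]
  rfl

theorem cs_zsmul (m : ℤ) (z : List α →₀ ℤ) : cs (m • z) = (m : ℝ) • cs z := by
  ext l
  rw [cs_apply, Finsupp.smul_apply, Finsupp.smul_apply, cs_apply, smul_eq_mul, smul_eq_mul]
  push_cast
  ring

theorem cs_support (z : List α →₀ ℤ) {l : List α} (h : l ∈ (cs z).support) : l ∈ z.support := by
  rw [Finsupp.mem_support_iff, cs_apply] at h
  rw [Finsupp.mem_support_iff]
  intro h'
  exact h (by rw [h', Int.cast_zero])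

theorem cs_mapDomain (f : List α → List β) (z : List α →₀ ℤ) :
    cs (Finsupp.mapDomain f z) = Finsupp.mapDomain f (cs z) := by
  induction z using Finsupp.induction_linear with
  | zero => simp
  | add f g hf hg => rw [Finsupp.mapDomain_add, map_add, hf, hg, map_add, Finsupp.mapDomain_add]
  | single a b => rw [Finsupp.mapDomain_single, cs_single, cs_single, Finsupp.mapDomain_single]

theorem cs_faces (l : List α) : cs (faces ℤ l) = faces ℝ l := by
  induction l with
  | nil =>
    show cs (0 : List α →₀ ℤ) = 0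
    exact map_zero _
  | cons a l ih =>
    show cs (Finsupp.single l 1 - Finsupp.mapDomain (List.cons a) (faces ℤ l)) =
      Finsupp.single l 1 - Finsupp.mapDomain (List.cons a) (faces ℝ l)
    rw [map_sub, cs_single, cs_mapDomain, ih, Int.cast_one]

theorem cs_lin (f : List α → (List β →₀ ℤ)) (z : List α →₀ ℤ) :
    cs (lin ℤ f z) = lin ℝ (fun l => cs (f l)) (cs z) := by
  induction z using Finsupp.induction_linear with
  | zero => simp
  | add f g hf hg => rw [map_add, map_add, hf, hg, map_add, map_add]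
  | single a b =>
    unfold lin
    rw [Finsupp.linearCombination_single, cs_single, Finsupp.linearCombination_single, cs_zsmul]

theorem bd_eq (R : Type) [CommRing R] (z : List α →₀ R) : bd R z = lin R (faces R) z := rfl

theorem cs_bd (z : List α →₀ ℤ) : cs (bd ℤ z) = bd ℝ (cs z) := by
  rw [bd_eq, bd_eq, cs_lin]
  congr 2
  funext l
  exact cs_faces l

theorem lin_single {M : Type} [AddCommGroup M] [Module ℝ M] (f : List α → M) (l : List α)
    (a : ℝ) : lin ℝ f (Finsupp.single l a) = a • f l :=
  Finsupp.linearCombination_single ℝ a l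

theorem lin_congr {M : Type} [AddCommGroup M] [Module ℝ M] {f g : List α → M} {z : List α →₀ ℝ}
    (h : ∀ l ∈ z.support, f l = g l) : lin ℝ f z = lin ℝ g z := by
  unfold lin
  rw [Finsupp.linearCombination_apply, Finsupp.linearCombination_apply]
  exact Finsupp.sum_congr fun l hl => by rw [h l hl]

theorem lin_smul {M : Type} [AddCommGroup M] [Module ℝ M] (c : ℝ) (f : List α → M)
    (z : List α →₀ ℝ) : lin ℝ (fun l => c • f l) z = c • lin ℝ f z := by
  unfold lin
  rw [Finsupp.linearCombination_apply, Finsupp.linearCombination_apply, Finsupp.smul_sum]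
  exact Finsupp.sum_congr fun l _ => smul_comm _ _ _

theorem lin_lin {M : Type} [AddCommGroup M] [Module ℝ M] (f : List β → M)
    (g : List α → (List β →₀ ℝ)) (z : List α →₀ ℝ) :
    lin ℝ f (lin ℝ g z) = lin ℝ (fun l => lin ℝ f (g l)) z := by
  induction z using Finsupp.induction_linear with
  | zero => simp
  | add u v hu hv => rw [map_add, map_add, hu, hv, map_add]
  | single a b => rw [lin_single, lin_single, map_smul]

/-- The l1-norm of a real chain. -/
noncomputable def N1 (z : List α →₀ ℝ) : ℝ := z.sum fun _ a => |a|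

theorem N1_eq (z : List α →₀ ℝ) (S : Finset (List α)) (h : z.support ⊆ S) :
    N1 z = ∑ l ∈ S, |z l| := Finsupp.sum_of_support_subset z h _ (by simp)

theorem N1_sum {ι : Type} (s : Finset ι) (f : ι → (List α →₀ ℝ)) :
    N1 (∑ i ∈ s, f i) ≤ ∑ i ∈ s, N1 (f i) := by
  set S : Finset (List α) := (∑ i ∈ s, f i).support ∪ s.biUnion (fun i => (f i).support) with hS
  rw [N1_eq _ S Finset.subset_union_left]
  have h1 : ∀ i ∈ s, N1 (f i) = ∑ l ∈ S, |f i l| := fun i hi =>
    N1_eq _ S ((Finset.subset_biUnion_of_mem (fun i => (f i).support) hi).trans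
      Finset.subset_union_right)
  rw [Finset.sum_congr rfl h1, Finset.sum_comm]
  refine Finset.sum_le_sum fun l _ => ?_
  rw [Finsupp.finsetSum_apply]
  exact Finset.abs_sum_le_sum_abs _ _

theorem N1_smul (c : ℝ) (z : List α →₀ ℝ) : N1 (c • z) = |c| * N1 z := by
  rw [N1_eq (c • z) z.support Finsupp.support_smul, N1_eq z z.support (Finset.Subset.refl _),
    Finset.mul_sum]
  exact Finset.sum_congr rfl fun l _ => by rw [Finsupp.smul_apply, smul_eq_mul, abs_mul]

theorem N1_cs (z : List α →₀ ℤ) : N1 (cs z) = (nrm z : ℝ) := by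
  rw [N1_eq (cs z) z.support fun l hl => cs_support z hl]
  unfold nrm Finsupp.sum
  push_cast
  exact Finset.sum_congr rfl fun l _ => by rw [cs_apply, Nat.cast_natAbs, Int.cast_abs]

end PK

open PK in
theorem prfPK (h1 : S_LC1) (h5 : S_LC5) (_h6 : S_LC6) (hp : S_PO) (hf : S_PHI) (hd : S_DG6) :
    S_PK := by
  intro n F _ _ hinf hn
  obtain ⟨φZ, M, hnil, hφ⟩ := hf n F hinf
  obtain ⟨K0⟩ := hd n F hn
  obtain ⟨-, hbb, -, hfs, -⟩ := h1 ℝ (G n F) (G n F)
  have hfe := (h1 ℝ (G n F) (G n F)).2.2.2.2
  set φ : List (G n F) → (List (E n F) →₀ ℝ) :=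
    fun l => ((l.length.factorial : ℝ)⁻¹) • cs (φZ l) with hφd
  have hpos : ∀ l : List (G n F), l.length ≤ n → PosC l.length (φ l) := by
    intro l hl l' hl'
    have h2 := cs_support _ (Finsupp.support_smul hl')
    obtain ⟨h3, h4⟩ := (hφ l hl).1.2 l' h2
    exact ⟨h3, (hp n F).1 l' h4⟩
  have hchain : ∀ l : List (G n F), l ≠ [] → l.length ≤ n →
      bd ℝ (φ l) = lin ℝ φ (faces ℝ l) := by
    intro l hne hl
    have hk : 0 < l.length := List.length_pos_of_ne_nil hne
    obtain ⟨hg, -, ht, -⟩ := hφ l hl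
    have e1 : bd ℝ (φ l) = ((l.length.factorial : ℝ)⁻¹ * l.length) •
        lin ℝ (fun l => cs (φZ l)) (faces ℝ l) := by
      rw [hφd]
      show bd ℝ (((l.length.factorial : ℝ)⁻¹) • cs (φZ l)) = _
      rw [map_smul, ← cs_bd, h5 (E n F) l.length (φZ l) hk hg.1 (fun l' hl' => (hg.2 l' hl').1),
        cs_zsmul, ht hne, cs_lin, cs_faces, smul_smul]
      push_cast
      rfl
    have e2 : lin ℝ φ (faces ℝ l) = (((l.length - 1).factorial : ℝ)⁻¹) •
        lin ℝ (fun l => cs (φZ l)) (faces ℝ l) := by
      rw [← lin_smul]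
      refine lin_congr fun l' hl' => ?_
      have h2 := (hfs l l' hl').1
      have h3 : l'.length = l.length - 1 := by omega
      rw [hφd]
      show ((l'.length.factorial : ℝ)⁻¹) • cs (φZ l') = _
      rw [h3]
    rw [e1, e2]
    congr 1
    obtain ⟨k, hk'⟩ : ∃ k, l.length = k + 1 := ⟨l.length - 1, by omega⟩
    rw [hk', Nat.add_sub_cancel, Nat.factorial_succ]
    push_cast
    have h3 : (k.factorial : ℝ) ≠ 0 := by exact_mod_cast k.factorial_ne_zero
    have h4 : (k : ℝ) + 1 ≠ 0 := by positivity
    field_simp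
  have hN : ∀ l : List (G n F), l.length ≤ n → N1 (φ l) ≤ M := by
    intro l hl
    rw [hφd]
    show N1 (((l.length.factorial : ℝ)⁻¹) • cs (φZ l)) ≤ M
    rw [N1_smul, N1_cs]
    have h2 : (nrm (φZ l) : ℝ) ≤ M := by exact_mod_cast (hφ l hl).2.1
    have h3 : |((l.length.factorial : ℝ)⁻¹)| ≤ 1 := by
      rw [abs_of_nonneg (by positivity)]
      apply inv_le_one_of_one_le₀
      exact_mod_cast Nat.succ_le_of_lt l.length.factorial_pos
    have h4 : (0 : ℝ) ≤ (nrm (φZ l) : ℝ) := Nat.cast_nonneg _
    calc |((l.length.factorial : ℝ)⁻¹)| * (nrm (φZ l) : ℝ) ≤ 1 * (nrm (φZ l) : ℝ) := by gcongr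
      _ ≤ M := by rw [one_mul]; exact h2
  refine ⟨{ K0 with
    φ := φ
    C := (n + 1) * M
    nil := ?_
    pos := hpos
    chain := hchain
    equiv := ?_
    bound := ?_ }⟩
  · rw [hφd]
    show (((([] : List (G n F)).length.factorial : ℕ) : ℝ)⁻¹) • cs (φZ []) = _
    rw [hnil, cs_single]
    simp
  · intro g l hl
    rw [hφd]
    show (((l.map (g * ·)).length.factorial : ℝ)⁻¹) • cs (φZ (l.map (g * ·))) =
      act ℝ g (((l.length.factorial : ℝ)⁻¹) • cs (φZ l))
    rw [List.length_map, (hφ l hl).2.2.2 g, map_smul]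
    congr 1
    exact cs_mapDomain _ _
  · intro l hl
    have hz : lin ℝ φ (faces ℝ l) =
        ∑ i ∈ Finset.range l.length, ((-1 : ℝ) ^ i) • φ (l.eraseIdx i) := by
      rw [hfe l, map_sum]
      exact Finset.sum_congr rfl fun i _ => lin_single _ _ _
    have hlen : ∀ i ∈ Finset.range l.length, (l.eraseIdx i).length = n := by
      intro i hi
      rw [List.length_eraseIdx_of_lt (Finset.mem_range.1 hi), hl, Nat.add_sub_cancel]
    have hZc : Zc (lin ℝ φ (faces ℝ l)) := by
      constructor
      · intro l' hl'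
        rw [hz, Finsupp.mem_support_iff, Finsupp.finsetSum_apply] at hl'
        obtain ⟨i, hi, hi'⟩ := Finset.exists_ne_zero_of_sum_ne_zero hl'
        have h2 : l' ∈ (φ (l.eraseIdx i)).support :=
          Finsupp.support_smul (Finsupp.mem_support_iff.2 hi')
        have h3 := hpos (l.eraseIdx i) (hlen i hi).le l' h2
        rw [hlen i hi] at h3
        exact h3
      · have h2 : bd ℝ (lin ℝ φ (faces ℝ l)) = lin ℝ φ (bd ℝ (faces ℝ l)) := by
          have h3 : ∀ z : List (G n F) →₀ ℝ, (∀ l' ∈ z.support, l'.length = n) →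
              bd ℝ (lin ℝ φ z) = lin ℝ φ (bd ℝ z) := by
            intro z hz
            have h4 : bd ℝ (lin ℝ φ z) = lin ℝ (fun l' => bd ℝ (φ l')) z := by
              unfold lin
              rw [Finsupp.linearCombination_apply, Finsupp.linearCombination_apply,
                Finsupp.sum, Finsupp.sum, map_sum]
              exact Finset.sum_congr rfl fun l' _ => map_smul _ _ _
            have h5 : lin ℝ φ (bd ℝ z) = lin ℝ (fun l' => lin ℝ φ (faces ℝ l')) z :=
              lin_lin φ (faces ℝ) z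
            rw [h4, h5]
            refine lin_congr fun l' hl' => ?_
            refine hchain l' ?_ (hz l' hl').le
            intro h6
            have h7 := hz l' hl'
            rw [h6] at h7
            exact hn.ne h7
          refine h3 _ fun l' hl' => ?_
          have h4 := (hfs l l' hl').1
          omega
        rw [h2]
        have h3 : bd ℝ (faces ℝ l) = 0 := by
          have h4 := hbb (Finsupp.single l 1)
          rwa [show bd ℝ (Finsupp.single l (1 : ℝ)) = faces ℝ l by
            rw [bd_eq, lin_single, one_smul]] at h4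
        rw [h3, map_zero]
    refine (K0.le _ hZc).trans ?_
    show N1 (lin ℝ φ (faces ℝ l)) ≤ _
    rw [hz]
    refine (N1_sum _ _).trans ?_
    have h2 : ∀ i ∈ Finset.range l.length, N1 (((-1 : ℝ) ^ i) • φ (l.eraseIdx i)) ≤ M := by
      intro i hi
      rw [N1_smul, abs_pow, abs_neg, abs_one, one_pow, one_mul]
      exact hN _ (hlen i hi).le
    refine (Finset.sum_le_sum h2).trans ?_
    rw [Finset.sum_const, Finset.card_range, hl, nsmul_eq_mul]
    push_cast
    exact le_refl _

end MP8a95ee.Eu
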