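import Pool.Agent.Work.MP_8a95ee_gt.Eu.Stmts2

/-!
# The value of the degree for one facet
-/

namespace MP8a95ee.Eu

open Classical

namespace SV1

/-! ### Sums over lists -/

theorem sumV_single {M : Type} [AddCommMonoid M] (V : Finset ℕ) :
    ∀ (n : ℕ) (f : List ℕ → M) (s₀ : List ℕ), s₀.length = n → (∀ v ∈ s₀, v ∈ V) →
      (∀ s : List ℕ, s ≠ s₀ → f s = 0) → sumV V n f = f s₀
  | 0, f, s₀, h, _, _ => by
    rw [List.length_eq_zero_iff] at h
    rw [h]
    rfl
  | n + 1, f, s₀, h, hV, h0 => by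
    obtain ⟨a, t, rfl⟩ : ∃ a t, s₀ = a :: t := List.exists_cons_of_length_eq_add_one h
    show ∑ v ∈ V, sumV V n (fun s => f (v :: s)) = f (a :: t)
    rw [Finset.sum_eq_single a]
    · refine sumV_single V n (fun s => f (a :: s)) t (by simpa using h)
        (fun v hv => hV v (List.mem_cons_of_mem _ hv)) ?_
      intro s hs
      exact h0 _ (fun h' => hs (by simpa using h'))
    · intro b _ hb
      have h1 : ∀ (m : ℕ), sumV V m (fun s => f (b :: s)) = 0 := by
        have h2 : ∀ s : List ℕ, f (b :: s) = 0 := fun s =>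
          h0 _ (fun h' => hb (by simpa using (List.cons.inj h').1))
        intro m
        have h3 : (fun s : List ℕ => f (b :: s)) = fun _ => 0 := funext h2
        rw [h3]
        clear h3
        induction m with
        | zero => rfl
        | succ m ih =>
          show ∑ v ∈ V, sumV V m (fun _ => (0 : M)) = 0
          simp [ih]
      exact h1 n
    · intro ha
      exact absurd (hV a (List.mem_cons_self)) ha

theorem sumV_map {M M' : Type} [AddCommMonoid M] [AddCommMonoid M'] (φ : M →+ M')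
    (V : Finset ℕ) :
    ∀ (n : ℕ) (f : List ℕ → M), φ (sumV V n f) = sumV V n (fun s => φ (f s))
  | 0, f => rfl
  | n + 1, f => by
    show φ (∑ v ∈ V, sumV V n (fun s => f (v :: s))) =
      ∑ v ∈ V, sumV V n (fun s => φ (f (v :: s)))
    rw [map_sum]
    exact Finset.sum_congr rfl fun v _ => sumV_map φ V n _

theorem sumV_supp {α : Type} (V : Finset ℕ) :
    ∀ (n : ℕ) (f : List ℕ → (α →₀ ℝ)), ∀ l ∈ (sumV V n f).support, ∃ s, l ∈ (f s).support
  | 0, f => fun l hl => ⟨[], hl⟩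
  | n + 1, f => by
    intro l hl
    have h1 := Finsupp.support_finsetSum hl
    rw [Finset.mem_biUnion] at h1
    obtain ⟨v, _, hv⟩ := h1
    obtain ⟨s, hs⟩ := sumV_supp V n _ l hv
    exact ⟨v :: s, hs⟩

/-! ### Walks -/

theorem wk_length {H : Type} [Group H] (r : ℕ → H) :
    ∀ (g : H) (s : List ℕ), (wk r g s).length = s.length + 1
  | g, [] => rfl
  | g, v :: s => by
    show (g :: wk r (g * r v) s).length = _
    rw [List.length_cons, wk_length r (g * r v) s, List.length_cons]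

theorem wk_getD {H : Type} [Group H] (r : ℕ → H) (d : H) :
    ∀ (g : H) (s : List ℕ) (k : ℕ), k ≤ s.length →
      (wk r g s).getD k d = g * ((s.take k).map r).prod
  | g, [], k, hk => by
    have : k = 0 := by simpa using hk
    subst this
    show g = _
    simp
  | g, v :: s, 0, hk => by
    show g = _
    simp
  | g, v :: s, k + 1, hk => by
    show (wk r (g * r v) s).getD k d = _
    rw [wk_getD r d (g * r v) s k (by simpa using hk), List.take_succ_cons, List.map_cons,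
      List.prod_cons, mul_assoc]

/-! ### One facet -/

section Facet

variable {n : ℕ} {F : Type} [NormedAddCommGroup F] [InnerProductSpace ℝ F]
  {L : Finset (Finset ℕ)}

theorem pair_mem (hL : IsFlag L) {σ : Finset ℕ} (hσ : σ ∈ L) {u v : ℕ} (hu : u ∈ σ)
    (hv : v ∈ σ) : ({u, v} : Finset ℕ) ∈ L := (hL σ).1 hσ u hu v hv

theorem sub_mem (hL : IsFlag L) {σ τ : Finset ℕ} (hσ : σ ∈ L) (h : τ ⊆ σ) : τ ∈ L :=
  (hL τ).2 fun _ hx _ hy => pair_mem hL hσ (h hx) (h hy)

theorem mem_verts {σ : Finset ℕ} (hσ : σ ∈ L) {v : ℕ} (hv : v ∈ σ) : v ∈ verts L := by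
  unfold verts
  rw [Finset.mem_biUnion]
  exact ⟨σ, hσ, hv⟩

/-- The coordinates of `x σ`. -/
theorem coeff (Dt : Dat n F L) {σ : Finset ℕ} (hσ : σ ∈ L) (hn : σ.card = n) :
    ∃ c : ℕ → ℝ, ∑ v ∈ σ, c v • Dt.e v = Dt.x σ := by
  have h := Dt.x_mem σ hσ hn
  rw [Submodule.mem_span_image_finset_iff_exists_fun] at h
  obtain ⟨c, hc⟩ := h
  refine ⟨fun v => if h : v ∈ σ then c ⟨v, h⟩ else 0, ?_⟩
  rw [← hc, ← Finset.sum_coe_sort]
  refine Finset.sum_congr rfl fun v _ => ?_
  simp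

/-- The signed sums. -/
noncomputable def X (Dt : Dat n F L) (σ : Finset ℕ) (c : ℕ → ℝ) (t : List ℕ) : E n F :=
  ∑ v ∈ σ, ((if v ∈ t then (-1 : ℝ) else 1) * c v) • Dt.e v

theorem refl_X (Dt : Dat n F L) (hL : IsFlag L) {σ : Finset ℕ} (hσ : σ ∈ L) (c : ℕ → ℝ)
    (a : ℕ) (t : List ℕ) (ha : a ∈ σ) (hat : a ∉ t) :
    refl (Dt.e a) (X Dt σ c t) = X Dt σ c (a :: t) := by
  unfold X
  rw [map_sum]
  refine Finset.sum_congr rfl fun v hv => ?_
  rw [map_smul]
  by_cases h : v = a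
  · subst h
    have h1 : refl (Dt.e v) (Dt.e v) = - Dt.e v := by
      rw [refl_apply, Dt.unit v (mem_verts hσ hv), mul_one, div_one, two_smul]
      abel
    rw [h1, if_neg hat, if_pos (List.mem_cons_self), smul_neg, one_mul, neg_one_mul, neg_smul]
  · have h1 : refl (Dt.e a) (Dt.e v) = Dt.e v := by
      rw [refl_apply, Dt.orth v a h (pair_mem hL hσ hv ha), mul_zero, zero_div, zero_smul,
        sub_zero]
    rw [h1]
    simp only [List.mem_cons, h, false_or]

theorem prod_X (h0 : S_H0) (Dt : Dat n F L) (hL : IsFlag L) {σ : Finset ℕ} (hσ : σ ∈ L)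
    (c : ℕ → ℝ) (hc : ∑ v ∈ σ, c v • Dt.e v = Dt.x σ) :
    ∀ t : List ℕ, t.Nodup → (∀ v ∈ t, v ∈ σ) →
      ((t.map Dt.r).prod).1.1 (Dt.x σ) = X Dt σ c t
  | [], _, _ => by
    show Dt.x σ = _
    rw [← hc]
    unfold X
    refine Finset.sum_congr rfl fun v _ => ?_
    simp
  | a :: t, hd, ht => by
    rw [List.map_cons, List.prod_cons]
    show (Dt.r a).1.1 (((t.map Dt.r).prod).1.1 (Dt.x σ)) = _
    rw [List.nodup_cons] at hd
    rw [prod_X h0 Dt hL hσ c hc t hd.2 (fun v hv => ht v (List.mem_cons_of_mem _ hv)),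
      ((h0 n F L Dt hL).1 a (mem_verts hσ (ht a List.mem_cons_self))).2.2,
      refl_X Dt hL hσ c a t (ht a List.mem_cons_self) hd.1]

/-- Sums over the facet as sums over the positions. -/
theorem sum_pos {M : Type} [AddCommMonoid M] {σ : Finset ℕ} {s : List ℕ} (hs : s.toFinset = σ)
    (hd : s.Nodup) (hl : s.length = n) (f : ℕ → M) :
    ∑ v ∈ σ, f v = ∑ j : Fin n, f (s.getD j 0) := by
  subst hl
  rw [← hs, List.sum_toFinset f hd, ← Fin.sum_univ_getElem]
  have h1 : (s.map f).length = s.length := List.length_map ..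
  rw [← (finCongr h1).sum_comp]
  refine Finset.sum_congr rfl fun j _ => ?_
  have hj : (j : ℕ) < s.length := h1 ▸ j.2
  have h2 : ((finCongr h1) j : ℕ) = j := rfl
  rw [h2, List.getD_eq_getElem _ _ hj]
  simp

theorem getD_mem_take {s : List ℕ} (hd : s.Nodup) {j k : ℕ} (hj : j < s.length) :
    s.getD j 0 ∈ s.take k ↔ j < k := by
  rw [List.getD_eq_getElem _ _ hj]
  constructor
  · intro h
    rw [List.mem_take_iff_getElem] at h
    obtain ⟨i, hi, he⟩ := h
    have := (List.Nodup.getElem_inj_iff hd).1 he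
    omega
  · intro h
    rw [List.mem_take_iff_getElem]
    exact ⟨j, by omega, rfl⟩

/-- The rows. -/
noncomputable def bb (Dt : Dat n F L) (c : ℕ → ℝ) (s : List ℕ) : Fin n → Fin n → ℝ :=
  fun j => c (s.getD j 0) • (Dt.e (s.getD j 0)).1

theorem X_fst (Dt : Dat n F L) {σ : Finset ℕ} (c : ℕ → ℝ) {s : List ℕ}
    (hs : s.toFinset = σ) (hd : s.Nodup) (hl : s.length = n) (k : ℕ) :
    (X Dt σ c (s.take k)).1 = cubeV (bb Dt c s) k := by
  unfold X cubeV bb
  rw [Prod.fst_sum, sum_pos hs hd hl]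
  refine Finset.sum_congr rfl fun j _ => ?_
  rw [Prod.smul_fst, mul_smul]
  have hj : (j : ℕ) < s.length := by rw [hl]; exact j.2
  have := getD_mem_take (k := k) hd hj
  simp only [this]

theorem nodup_of {σ : Finset ℕ} (hn : σ.card = n) {s : List ℕ} (hs : s.toFinset = σ)
    (hl : s.length = n) : s.Nodup := by
  have h : (Multiset.toFinset (s : Multiset ℕ)).card = Multiset.card (s : Multiset ℕ) := by
    show s.toFinset.card = s.length
    rw [hs, hn, hl]
  exact Multiset.toFinset_card_eq_card_iff_nodup.1 h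

theorem p_eq (Dt : Dat n F L) {σ : Finset ℕ} (hσ : σ ∈ L) (hn : σ.card = n)
    (c : ℕ → ℝ) (hc : ∑ v ∈ σ, c v • Dt.e v = Dt.x σ) :
    Dt.p = ∑ v ∈ σ, c v • (Dt.e v).1 := by
  rw [← Dt.x_fst σ hσ hn, ← hc, Prod.fst_sum]
  rfl

theorem c_ne (Dt : Dat n F L) (hL : IsFlag L) {σ : Finset ℕ} (hσ : σ ∈ L) (hn : σ.card = n)
    (c : ℕ → ℝ) (hc : ∑ v ∈ σ, c v • Dt.e v = Dt.x σ) (u : ℕ) (hu : u ∈ σ) : c u ≠ 0 := by
  intro h0
  have h1 := Dt.gen (σ.erase u) (sub_mem hL hσ (Finset.erase_subset _ _))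
    (by rw [Finset.card_erase_of_mem hu, hn]
        have : 0 < σ.card := Finset.card_pos.2 ⟨u, hu⟩
        omega)
  apply h1
  rw [p_eq Dt hσ hn c hc, ← Finset.add_sum_erase _ _ hu, h0, zero_smul, zero_add]
  exact Submodule.sum_mem _ fun v hv => Submodule.smul_mem _ _
    (Submodule.subset_span ⟨v, hv, rfl⟩)

theorem B_sum_left {ι : Type} (S : Finset ι) (f : ι → E n F) (y : E n F) :
    B (∑ i ∈ S, f i) y = ∑ i ∈ S, B (f i) y := by
  induction S using Finset.induction_on with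
  | empty => rw [Finset.sum_empty, Finset.sum_empty, B_zero_left]
  | insert a S ha ih => rw [Finset.sum_insert ha, Finset.sum_insert ha, B_add_left, ih]

theorem det_ne (Dt : Dat n F L) (hL : IsFlag L) {σ : Finset ℕ} (hσ : σ ∈ L) (hn : σ.card = n)
    {s : List ℕ} (hs : s.toFinset = σ) (hl : s.length = n) :
    Matrix.det (fun i : Fin n => (Dt.e (s.getD i 0)).1) ≠ 0 := by
  have hd := nodup_of hn hs hl
  set M : Matrix (Fin n) (Fin n) ℝ := fun i : Fin n => (Dt.e (s.getD i 0)).1 with hM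
  have hmem : ∀ i : Fin n, s.getD i 0 ∈ σ := by
    intro i
    have hi : (i : ℕ) < s.length := by rw [hl]; exact i.2
    rw [List.getD_eq_getElem _ _ hi, ← hs, List.mem_toFinset]
    exact List.getElem_mem hi
  have hinj : ∀ i j : Fin n, i ≠ j → s.getD i 0 ≠ s.getD j 0 := by
    intro i j hij h
    have hi : (i : ℕ) < s.length := by rw [hl]; exact i.2
    have hj : (j : ℕ) < s.length := by rw [hl]; exact j.2
    rw [List.getD_eq_getElem _ _ hi, List.getD_eq_getElem _ _ hj] at h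
    exact hij (Fin.ext ((List.Nodup.getElem_inj_iff hd).1 h))
  have hli : LinearIndependent ℝ M.row := by
    rw [Fintype.linearIndependent_iff]
    intro a ha
    set y : E n F := ∑ i : Fin n, a i • Dt.e (s.getD i 0) with hy
    have hy1 : y.1 = 0 := by
      rw [hy, Prod.fst_sum]
      exact ha
    have h1 : ∀ j : Fin n, B y (Dt.e (s.getD j 0)) = a j := by
      intro j
      rw [hy, B_sum_left, Finset.sum_eq_single j]
      · rw [B_smul_left, Dt.unit _ (mem_verts hσ (hmem j)), mul_one]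
      · intro i _ hij
        rw [B_smul_left, Dt.orth _ _ (hinj i j hij) (pair_mem hL hσ (hmem i) (hmem j)), mul_zero]
      · intro h
        exact absurd (Finset.mem_univ j) h
    have h2 : B y y = ∑ j : Fin n, a j * a j := by
      have h3 : B (∑ i : Fin n, a i • Dt.e (s.getD i 0)) y = ∑ j : Fin n, a j * a j := by
        rw [B_sum_left]
        refine Finset.sum_congr rfl fun j _ => ?_
        rw [B_smul_left, B_comm, h1]
      rw [← hy] at h3
      exact h3
    have h4 : B y y ≤ 0 := by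
      unfold B
      rw [hy1, dotProduct_zero, zero_sub, neg_nonpos]
      exact real_inner_self_nonneg
    rw [h2] at h4
    intro i
    have h5 := (Finset.sum_eq_zero_iff_of_nonneg (fun j _ => mul_self_nonneg (a j))).1
      (le_antisymm h4 (Finset.sum_nonneg fun j _ => mul_self_nonneg (a j))) i (Finset.mem_univ i)
    exact mul_self_eq_zero.1 h5
  rw [Matrix.linearIndependent_rows_iff_isUnit, Matrix.isUnit_iff_isUnit_det] at hli
  exact hli.ne_zero

/-! ### The vectors of the walks -/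

theorem th_lab (Dt : Dat n F L) (σ : Finset ℕ) (x : List (G n F)) :
    th Dt (lab σ x) = x.map (fun g => g.1.1 (Dt.x σ)) := by
  unfold th lab
  rw [List.map_map]
  rfl

theorem th_getD (Dt : Dat n F L) (σ : Finset ℕ) (x : List (G n F)) (k : ℕ) (hk : k < x.length) :
    (th Dt (lab σ x)).getD k 0 = (x.getD k 1).1.1 (Dt.x σ) := by
  rw [th_lab, List.getD_eq_getElem _ _ (by rw [List.length_map]; exact hk), List.getElem_map,
    List.getD_eq_getElem _ _ hk]

theorem mat_first (h0 : S_H0) (Dt : Dat n F L) (hL : IsFlag L) {σ : Finset ℕ} (hσ : σ ∈ L)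
    (hn : σ.card = n) (hn0 : 0 < n) (c : ℕ → ℝ) (hc : ∑ v ∈ σ, c v • Dt.e v = Dt.x σ)
    {s : List ℕ} (hs : s.toFinset = σ) (hl : s.length = n) :
    mat (th Dt (lab σ (wk Dt.r 1 s.dropLast))) = fun k : Fin n => cubeV (bb Dt c s) k := by
  have hd := nodup_of hn hs hl
  funext k
  have hk := k.2
  have h1 : (k : ℕ) ≤ s.dropLast.length := by
    rw [List.length_dropLast, hl]
    omega
  show ((th Dt (lab σ (wk Dt.r 1 s.dropLast))).getD k 0).1 = _
  rw [th_getD Dt σ _ k (by rw [wk_length]; omega), wk_getD _ _ _ _ _ h1, one_mul]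
  have h2 : s.dropLast.take k = s.take k := by
    rw [List.dropLast_eq_take, List.take_take]
    congr 1
    omega
  rw [h2, prod_X h0 Dt hL hσ c hc (s.take k) (hd.sublist (List.take_sublist _ _))
    (fun v hv => by rw [← hs, List.mem_toFinset]; exact List.mem_of_mem_take hv)]
  exact X_fst Dt c hs hd hl k

theorem mat_second (h0 : S_H0) (Dt : Dat n F L) (hL : IsFlag L) {σ : Finset ℕ} (hσ : σ ∈ L)
    (hn : σ.card = n) (hn0 : 0 < n) (c : ℕ → ℝ) (hc : ∑ v ∈ σ, c v • Dt.e v = Dt.x σ)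
    {s : List ℕ} (hs : s.toFinset = σ) (hl : s.length = n) :
    mat (th Dt (lab σ (wk Dt.r (Dt.r (s.headD 0)) s.tail))) =
      fun k : Fin n => cubeV (bb Dt c s) ((k : ℕ) + 1) := by
  have hd := nodup_of hn hs hl
  funext k
  have hk := k.2
  obtain ⟨a, t, rfl⟩ : ∃ a t, s = a :: t := by
    cases s with
    | nil => exact absurd hl (by simp; omega)
    | cons a t => exact ⟨a, t, rfl⟩
  rw [List.length_cons] at hl
  have h1 : (k : ℕ) ≤ t.length := by omega
  show ((th Dt (lab σ (wk Dt.r (Dt.r a) t))).getD k 0).1 = _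
  rw [th_getD Dt σ _ k (by rw [wk_length]; omega), wk_getD _ _ _ _ _ h1]
  have h2 : Dt.r a * ((t.take k).map Dt.r).prod = (((a :: t).take (k + 1)).map Dt.r).prod := by
    rw [List.take_succ_cons, List.map_cons, List.prod_cons]
  rw [h2, prod_X h0 Dt hL hσ c hc ((a :: t).take (k + 1)) (hd.sublist (List.take_sublist _ _))
    (fun v hv => by rw [← hs, List.mem_toFinset]; exact List.mem_of_mem_take hv)]
  exact X_fst Dt c hs hd (by rw [List.length_cons]; exact hl) (k + 1)

/-- The point. -/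
noncomputable def pp (Dt : Dat n F L) (σ : Finset ℕ) (c : ℕ → ℝ) : Fin n → ℝ :=
  ∑ v ∈ σ, ((v : ℝ) + 1) • (c v • (Dt.e v).1)

theorem pp_eq (Dt : Dat n F L) {σ : Finset ℕ} (c : ℕ → ℝ) {s : List ℕ}
    (hs : s.toFinset = σ) (hd : s.Nodup) (hl : s.length = n) :
    pp Dt σ c = ∑ j : Fin n, (((s.getD j 0 : ℕ) : ℝ) + 1) • bb Dt c s j :=
  sum_pos hs hd hl (fun v => ((v : ℝ) + 1) • (c v • (Dt.e v).1))

theorem det_bb (Dt : Dat n F L) (c : ℕ → ℝ) (s : List ℕ) :
    Matrix.det (bb Dt c s) = (∏ i : Fin n, c (s.getD i 0)) *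
      Matrix.det (fun i : Fin n => (Dt.e (s.getD i 0)).1) :=
  Matrix.det_mul_column (fun i : Fin n => c (s.getD i 0))
    (fun i : Fin n => (Dt.e (s.getD i 0)).1)

theorem z_inj {s : List ℕ} (hd : s.Nodup) (hl : s.length = n) :
    Function.Injective (fun j : Fin n => ((s.getD j 0 : ℕ) : ℝ) + 1) := by
  intro i j h
  have hi : (i : ℕ) < s.length := by rw [hl]; exact i.2
  have hj : (j : ℕ) < s.length := by rw [hl]; exact j.2
  have h1 : ((s.getD i 0 : ℕ) : ℝ) = ((s.getD j 0 : ℕ) : ℝ) := by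
    simpa using h
  have h2 := Nat.cast_injective h1
  rw [List.getD_eq_getElem _ _ hi, List.getD_eq_getElem _ _ hj] at h2
  exact Fin.ext ((List.Nodup.getElem_inj_iff hd).1 h2)

theorem z_mono {s : List ℕ} (hl : s.length = n) :
    StrictMono (fun j : Fin n => ((s.getD j 0 : ℕ) : ℝ) + 1) ↔ s.Pairwise (· < ·) := by
  rw [List.pairwise_iff_getElem]
  constructor
  · intro h i j hi hj hij
    have h1 := @h ⟨i, hl ▸ hi⟩ ⟨j, hl ▸ hj⟩ hij
    simp only [add_lt_add_iff_right, Nat.cast_lt] at h1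
    rw [List.getD_eq_getElem _ _ hi, List.getD_eq_getElem _ _ hj] at h1
    exact h1
  · intro h i j hij
    have hi : (i : ℕ) < s.length := by rw [hl]; exact i.2
    have hj : (j : ℕ) < s.length := by rw [hl]; exact j.2
    simp only [add_lt_add_iff_right, Nat.cast_lt]
    rw [List.getD_eq_getElem _ _ hi, List.getD_eq_getElem _ _ hj]
    exact h i j hi hj hij

theorem sort_iff {σ : Finset ℕ} {s : List ℕ} (hs : s.toFinset = σ) (hd : s.Nodup) :
    s.Pairwise (· < ·) ↔ s = σ.sort (· ≤ ·) := by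
  constructor
  · intro h
    have h1 : s.Perm (σ.sort (· ≤ ·)) := by
      rw [List.perm_ext_iff_of_nodup hd (Finset.sort_nodup _ _)]
      intro a
      rw [Finset.mem_sort, ← hs, List.mem_toFinset]
    exact h1.eq_of_pairwise (fun a b _ _ h1 h2 => le_antisymm h1 h2)
      (h.imp (fun h => h.le)) (Finset.pairwise_sort σ (· ≤ ·))
  · rintro rfl
    exact Finset.sortedLT_sort σ |>.pairwise

/-- The values of the signed counts for the two lists of an ordering. -/
theorem values (h0 : S_H0) (cu : S_CU) (Dt : Dat n F L) (hL : IsFlag L) {σ : Finset ℕ}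
    (hσ : σ ∈ L) (hn : σ.card = n) (hn0 : 0 < n) (c : ℕ → ℝ)
    (hc : ∑ v ∈ σ, c v • Dt.e v = Dt.x σ) {s : List ℕ} (hs : s.toFinset = σ)
    (hl : s.length = n) :
    D (pp Dt σ c) (th Dt (lab σ (wk Dt.r 1 s.dropLast))) =
      (if s = σ.sort (· ≤ ·) then ((SignType.sign (Matrix.det (bb Dt c s)) : SignType) : ℝ)
        else 0) ∧
    D (pp Dt σ c) (th Dt (lab σ (wk Dt.r (Dt.r (s.headD 0)) s.tail))) = 0 ∧
    Gen (pp Dt σ c) (th Dt (lab σ (wk Dt.r 1 s.dropLast))) ∧
    Gen (pp Dt σ c) (th Dt (lab σ (wk Dt.r (Dt.r (s.headD 0)) s.tail))) := by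
  have hd := nodup_of hn hs hl
  have hdet : Matrix.det (bb Dt c s) ≠ 0 := by
    rw [det_bb]
    refine mul_ne_zero (Finset.prod_ne_zero_iff.2 fun i _ => ?_) (det_ne Dt hL hσ hn hs hl)
    have hi : (i : ℕ) < s.length := by rw [hl]; exact i.2
    refine c_ne Dt hL hσ hn c hc _ ?_
    rw [List.getD_eq_getElem _ _ hi, ← hs, List.mem_toFinset]
    exact List.getElem_mem hi
  have hz : ∀ j : Fin n, (0 : ℝ) < ((s.getD j 0 : ℕ) : ℝ) + 1 := fun j => by positivity
  obtain ⟨c1, c2, c3, c4⟩ := cu n (bb Dt c s) (fun j : Fin n => ((s.getD j 0 : ℕ) : ℝ) + 1)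
    hn0 hdet hz (z_inj hd hl)
  rw [← pp_eq Dt c hs hd hl] at c1 c2 c3 c4
  have m1 := mat_first h0 Dt hL hσ hn hn0 c hc hs hl
  have m2 := mat_second h0 Dt hL hσ hn hn0 c hc hs hl
  have hD : ∀ l : List (E n F), D (pp Dt σ c) l = Df (pp Dt σ c) (mat l) := fun l => rfl
  refine ⟨?_, ?_, ?_, ?_⟩
  · rw [hD, m1, c1]
    have h1 := (z_mono hl).trans (sort_iff hs hd)
    simp only [h1]
  · rw [hD, m2, c2]
  · intro i
    have h2 : (fun j : Fin n => ((th Dt (lab σ (wk Dt.r 1 s.dropLast))).getD j 0).1) =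
        fun k : Fin n => cubeV (bb Dt c s) k := m1
    rw [h2]
    exact c3 i
  · intro i
    have h2 : (fun j : Fin n =>
        ((th Dt (lab σ (wk Dt.r (Dt.r (s.headD 0)) s.tail))).getD j 0).1) =
        fun k : Fin n => cubeV (bb Dt c s) ((k : ℕ) + 1) := m2
    rw [h2]
    exact c4 i

/-- The signs. -/
theorem signs (Dt : Dat n F L) (hL : IsFlag L) {σ : Finset ℕ} (hσ : σ ∈ L)
    (hn : σ.card = n) (c : ℕ → ℝ) (hc : ∑ v ∈ σ, c v • Dt.e v = Dt.x σ) {s : List ℕ}
    (hs : s.toFinset = σ) (hl : s.length = n) :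
    ((SignType.sign (Matrix.det (bb Dt c s)) : SignType) : ℝ) =
      ((SignType.sign (Matrix.det (fun i : Fin n => (Dt.e (s.getD i 0)).1)) : SignType) : ℝ) *
      ∏ i : Fin n, ((SignType.sign (Matrix.det (fun i : Fin n => (Dt.e (s.getD i 0)).1) *
        Matrix.det (Matrix.updateRow (fun i : Fin n => (Dt.e (s.getD i 0)).1) i Dt.p)) :
          SignType) : ℝ) := by
  have hd := nodup_of hn hs hl
  have hne := det_ne Dt hL hσ hn hs hl
  have hp : Dt.p = ∑ j : Fin n, c (s.getD j 0) • (Dt.e (s.getD j 0)).1 := by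
    rw [p_eq Dt hσ hn c hc]
    exact sum_pos hs hd hl (fun v => c v • (Dt.e v).1)
  have h1 : ∀ i : Fin n, SignType.sign (Matrix.det (fun i : Fin n => (Dt.e (s.getD i 0)).1) *
      Matrix.det (Matrix.updateRow (fun i : Fin n => (Dt.e (s.getD i 0)).1) i Dt.p)) =
      SignType.sign (c (s.getD i 0)) := by
    intro i
    have h2 : Matrix.det (Matrix.updateRow (fun i : Fin n => (Dt.e (s.getD i 0)).1) i Dt.p) =
        c (s.getD i 0) * Matrix.det (fun i : Fin n => (Dt.e (s.getD i 0)).1) := by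
      rw [hp]
      exact Matrix.det_updateRow_sum (fun i : Fin n => (Dt.e (s.getD i 0)).1) i
        (fun j : Fin n => c (s.getD j 0))
    have h3 : Matrix.det (fun i : Fin n => (Dt.e (s.getD i 0)).1) *
        (c (s.getD i 0) * Matrix.det (fun i : Fin n => (Dt.e (s.getD i 0)).1)) =
        c (s.getD i 0) * (Matrix.det (fun i : Fin n => (Dt.e (s.getD i 0)).1) *
          Matrix.det (fun i : Fin n => (Dt.e (s.getD i 0)).1)) := by ring
    rw [h2, h3, sign_mul, sign_pos (mul_self_pos.2 hne), mul_one]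
  rw [det_bb, sign_mul]
  have h4 : SignType.sign (∏ i : Fin n, c (s.getD i 0)) =
      ∏ i : Fin n, SignType.sign (c (s.getD i 0)) :=
    map_prod (signHom : ℝ →*₀ SignType) _ _
  rw [h4, SignType.coe_mul, mul_comm]
  congr 1
  have h5 : ((∏ i : Fin n, SignType.sign (c (s.getD i 0)) : SignType) : ℝ) =
      ∏ i : Fin n, ((SignType.sign (c (s.getD i 0)) : SignType) : ℝ) :=
    map_prod (SignType.castHom : SignType →*₀ ℝ) _ _
  rw [h5]
  refine Finset.prod_congr rfl fun i _ => ?_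
  rw [h1 i]

/-- The evaluation of the mapped chain. -/
theorem eval_lin (Dt : Dat n F L) (g : List (E n F) → ℝ)
    (y : List (G n F × Finset ℕ) →₀ ℝ) :
    ((lin ℝ (thc Dt) y).sum fun l a => a * g l) = lin ℝ (fun l => g (th Dt l)) y := by
  have h1 : (lin ℝ g).comp (lin ℝ (thc Dt)) = lin ℝ (fun l => g (th Dt l)) := by
    ext l
    simp [lin, thc]
  rw [← h1, LinearMap.comp_apply]
  show _ = Finsupp.linearCombination ℝ g (lin ℝ (thc Dt) y)
  rw [Finsupp.linearCombination_apply]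
  rfl

theorem lin_thc (Dt : Dat n F L) (y : List (G n F × Finset ℕ) →₀ ℝ) :
    lin ℝ (thc Dt) y =
      mapm ℝ (fun a : G n F × Finset ℕ => a.1.1.1 (Dt.x a.2)) y := by
  have h1 : lin ℝ (thc Dt) = mapm ℝ (fun a : G n F × Finset ℕ => a.1.1.1 (Dt.x a.2)) := by
    refine Finsupp.lhom_ext' fun l => ?_
    refine LinearMap.ext_ring ?_
    simp only [lin, thc, mapm, LinearMap.comp_apply, Finsupp.lsingle_apply,
      Finsupp.linearCombination_single, Finsupp.lmapDomain_apply, Finsupp.mapDomain_single,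
      one_smul]
    rfl
  rw [h1]

/-- The trivial dual family. -/
noncomputable def dual0 (n : ℕ) (L : Finset (Finset ℕ)) : Dual n L (fun _ => 0) where
  c := fun _ => 0
  top s hs := by
    unfold oL
    rw [if_pos hs]
    simp
  alt := by intro _ _ _ _; simp
  supp := by intro _ l hl; simp at hl
  bdy := by intro s _; simp
  aug := by intro s _; simp

end Facet

end SV1

theorem prfSV1 (h1 : S_LC1) (z6 : S_Z6) (h0 : S_H0) (h3 : S_H3) (hk : S_H1) (cu : S_CU) :
    S_SV1 := by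
  intro n F _ _ L Dt K q σ hn0 hL hσ hn hq hqs
  obtain ⟨c, hc⟩ := SV1.coeff Dt hσ hn
  set y := Yc n q Dt.r (verts L) with hy
  have hcomm := (h0 n F L Dt hL).2.1
  have hqs' : ∀ s : List ℕ, q s ≠ 0 → s.toFinset ∈ L ∧ s.toFinset.card = n := by
    intro s hs
    rw [(hqs s hs).1]
    exact ⟨hσ, hn⟩
  have hsup := (h3 n F L Dt (fun _ => 0) (SV1.dual0 n L) hn0 hL).2 q hqs'
  have hbd : bd ℝ y = 0 := (z6 n L (verts L) q (G n F) Dt.r hn0 hL hq
    (fun s hs => (hqs' s hs).1) hcomm).2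
  have hsupz : ∀ l ∈ (lin ℝ (thc Dt) y).support, ∃ l' ∈ y.support, l = th Dt l' := by
    intro l hl
    rw [SV1.lin_thc] at hl
    have h2 := Finsupp.mapDomain_support hl
    rw [Finset.mem_image] at h2
    obtain ⟨l', hl', he⟩ := h2
    exact ⟨l', hl', he.symm⟩
  have hZ : Zc (lin ℝ (thc Dt) y) := by
    refine ⟨?_, ?_⟩
    · intro l hl
      obtain ⟨l', hl', rfl⟩ := hsupz l hl
      obtain ⟨e1, e2⟩ := hsup l' hl'
      refine ⟨?_, hk n F L Dt hL l' e2⟩
      unfold th
      rw [List.length_map, e1]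
    · rw [SV1.lin_thc, (h1 ℝ _ _).2.2.1, hbd, map_zero]
  have hy' : ∀ l ∈ y.support, ∃ s : List ℕ, (s.toFinset = σ ∧ s.length = n) ∧
      (l = lab σ (wk Dt.r (Dt.r (s.headD 0)) s.tail) ∨ l = lab σ (wk Dt.r 1 s.dropLast)) := by
    intro l hl
    obtain ⟨s, hs⟩ := SV1.sumV_supp _ _ _ l hl
    have hq0 : q s ≠ 0 := by
      intro h
      rw [h, zero_smul] at hs
      simp at hs
    refine ⟨s, hqs s hq0, ?_⟩
    rw [(hqs s hq0).1] at hs
    have h4 := Finsupp.support_smul hs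
    have h5 := Finsupp.support_add h4
    rw [Finset.mem_union] at h5
    rcases h5 with h5 | h5
    · left
      have h6 := Finsupp.support_single_subset h5
      simpa using h6
    · right
      have h6 := Finsupp.support_single_subset (Finsupp.support_smul h5)
      simpa using h6
  have hgen : ∀ l ∈ (lin ℝ (thc Dt) y).support, Gen (SV1.pp Dt σ c) l := by
    intro l hl
    obtain ⟨l', hl', rfl⟩ := hsupz l hl
    obtain ⟨s, ⟨hs, hsl⟩, h | h⟩ := hy' l' hl'
    · rw [h]
      exact (SV1.values h0 cu Dt hL hσ hn hn0 c hc hs hsl).2.2.2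
    · rw [h]
      exact (SV1.values h0 cu Dt hL hσ hn hn0 c hc hs hsl).2.2.1
  rw [K.formula _ hZ _ hgen, SV1.eval_lin]
  set g : List (G n F × Finset ℕ) → ℝ := fun l => D (SV1.pp Dt σ c) (th Dt l) with hg
  set s₀ := σ.sort (· ≤ ·) with hs₀
  have hs0 : s₀.toFinset = σ := Finset.sort_toFinset _ _
  have hl0 : s₀.length = n := by rw [hs₀, Finset.length_sort, hn]
  have hval : lin ℝ g y = q s₀ * ((-1) ^ n *
      ((SignType.sign (Matrix.det (SV1.bb Dt c s₀)) : SignType) : ℝ)) := by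
    have h2 : lin ℝ g y = sumV (verts L) n (fun s => lin ℝ g (q s •
        (Finsupp.single (lab s.toFinset (wk Dt.r (Dt.r (s.headD 0)) s.tail)) 1 +
        ((-1 : ℝ) ^ n) • Finsupp.single (lab s.toFinset (wk Dt.r 1 s.dropLast)) 1))) :=
      SV1.sumV_map (lin ℝ g).toAddMonoidHom _ _ _
    have h3 : ∀ s : List ℕ, lin ℝ g (q s •
        (Finsupp.single (lab s.toFinset (wk Dt.r (Dt.r (s.headD 0)) s.tail)) 1 +
        ((-1 : ℝ) ^ n) • Finsupp.single (lab s.toFinset (wk Dt.r 1 s.dropLast)) 1)) =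
        q s * (g (lab s.toFinset (wk Dt.r (Dt.r (s.headD 0)) s.tail)) +
          (-1) ^ n * g (lab s.toFinset (wk Dt.r 1 s.dropLast))) := by
      intro s
      rw [map_smul, map_add, map_smul]
      simp [lin]
    rw [h2]
    simp only [h3]
    rw [SV1.sumV_single (verts L) n _ s₀ hl0
      (fun v hv => SV1.mem_verts hσ (by rw [← hs0, List.mem_toFinset]; exact hv))]
    · obtain ⟨v1, v2, -, -⟩ := SV1.values h0 cu Dt hL hσ hn hn0 c hc hs0 hl0
      rw [hs0]
      show q s₀ * (D (SV1.pp Dt σ c) (th Dt (lab σ (wk Dt.r (Dt.r (s₀.headD 0)) s₀.tail))) +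
        (-1) ^ n * D (SV1.pp Dt σ c) (th Dt (lab σ (wk Dt.r 1 s₀.dropLast)))) = _
      rw [v1, v2, if_pos rfl, zero_add]
    · intro s hs
      by_cases hq0 : q s = 0
      · rw [hq0, zero_mul]
      · obtain ⟨hss, hsl⟩ := hqs s hq0
        obtain ⟨v1, v2, -, -⟩ := SV1.values h0 cu Dt hL hσ hn hn0 c hc hss hsl
        rw [hss]
        show q s * (D (SV1.pp Dt σ c) (th Dt (lab σ (wk Dt.r (Dt.r (s.headD 0)) s.tail))) +
          (-1) ^ n * D (SV1.pp Dt σ c) (th Dt (lab σ (wk Dt.r 1 s.dropLast)))) = _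
        rw [v1, v2, if_neg hs, zero_add, mul_zero, mul_zero]
  rw [hval, SV1.signs Dt hL hσ hn c hc hs0 hl0]
  ring

end MP8a95ee.Eu
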