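import Pool.Agent.Work.MP_8a95ee_gt.Eu.Stmts

namespace MP8a95ee

namespace Eu

open Classical

namespace U1

variable {n : ℕ} {F : Type} [NormedAddCommGroup F] [InnerProductSpace ℝ F]

/-- The functional `y ↦ B y x`. -/
noncomputable def Bx (x : E n F) : E n F →ₗ[ℝ] ℝ where
  toFun y := B y x
  map_add' y z := B_add_left y z x
  map_smul' c y := by rw [B_smul_left]; rfl

theorem Bx_apply (x y : E n F) : Bx x y = B y x := rfl

/-- Projection along `v'`. -/
noncomputable def psi (v' : E n F) : E n F →ₗ[ℝ] E n F :=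
  LinearMap.id - (LinearMap.toSpanSingleton ℝ (E n F) v').comp ((B v' v')⁻¹ • Bx v')

theorem psi_apply (v' y : E n F) : psi v' y = y - (B y v' / B v' v') • v' := by
  simp only [psi, LinearMap.sub_apply, LinearMap.id_coe, id_eq, LinearMap.comp_apply,
    LinearMap.smul_apply, Bx_apply, LinearMap.toSpanSingleton_apply, smul_eq_mul]
  rw [div_eq_inv_mul]

theorem main (m : ℕ) (T : Finset (E n F)) (x v : E n F) (hI : Idx T (m + 1))
    (hx : ∀ t ∈ T, B x t = 0) (hv : ∀ t ∈ T, B v t = 0) (hxx : 0 < B x x)
    (hxv : B x x * B v v < B x v ^ 2) :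
    Idx (insert (v - (B x v / B x x) • x) (insert x T)) m := by
  obtain ⟨W, hW, hpos, hort⟩ := hI
  set v' : E n F := v - (B x v / B x x) • x with hv'
  have hxv' : B x v' = 0 := by
    rw [hv', B_sub_right, B_smul_right, div_mul_cancel₀ _ hxx.ne', sub_self]
  have hv'x : B v' x = 0 := by rw [B_comm]; exact hxv'
  have hvv' : B v' v' < 0 := by
    have h1 : B v' v' = B v' v := by
      conv_lhs => rw [hv', B_sub_right, B_smul_right, ← hv', hv'x, mul_zero, sub_zero]
    rw [h1, hv', B_sub_left, B_smul_left]
    have h2 : B v v - B x v / B x x * B x v = (B x x * B v v - B x v ^ 2) / B x x := by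
      field_simp
    rw [h2]
    exact div_neg_of_neg_of_pos (by linarith) hxx
  have hv'T : ∀ t ∈ T, B v' t = 0 := by
    intro t ht
    rw [hv', B_sub_left, B_smul_left, hv t ht, hx t ht]; ring
  clear_value v'
  have : Module.Finite ℝ W := Module.finite_of_finrank_pos (by omega)
  -- the subspace W0
  let f : W →ₗ[ℝ] ℝ := (Bx x).comp W.subtype
  have hker : m ≤ Module.finrank ℝ (LinearMap.ker f) := by
    have h1 := LinearMap.finrank_range_add_finrank_ker f
    have h2 : Module.finrank ℝ (LinearMap.range f) ≤ 1 := by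
      have := Submodule.finrank_le (LinearMap.range f)
      simpa using this
    omega
  let g : LinearMap.ker f →ₗ[ℝ] E n F :=
    (psi v').comp (W.subtype.comp (LinearMap.ker f).subtype)
  have hg : ∀ y : LinearMap.ker f, g y = ((y : W) : E n F) - (B ((y : W) : E n F) v' / B v' v') • v' := by
    intro y
    exact psi_apply v' _
  have hBg : ∀ y : LinearMap.ker f, B (g y) (g y) =
      B ((y : W) : E n F) ((y : W) : E n F) - B ((y : W) : E n F) v' ^ 2 / B v' v' := by
    intro y
    rw [hg]
    rw [B_sub_left, B_smul_left, B_sub_right, B_sub_right, B_smul_right,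
      B_smul_right, B_comm v' ((y : W) : E n F)]
    have := hvv'.ne
    field_simp
    ring
  have hgpos : ∀ y : LinearMap.ker f, y ≠ 0 → 0 < B (g y) (g y) := by
    intro y hy
    rw [hBg]
    have h1 : 0 < B ((y : W) : E n F) ((y : W) : E n F) := by
      apply hpos _ (y : W).2
      intro h0
      apply hy
      ext1
      ext1
      exact h0
    have h2 : B ((y : W) : E n F) v' ^ 2 / B v' v' ≤ 0 :=
      div_nonpos_of_nonneg_of_nonpos (sq_nonneg _) hvv'.le
    linarith
  have hinj : Function.Injective g := by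
    rw [injective_iff_map_eq_zero]
    intro y hy
    by_contra hne
    have := hgpos y hne
    rw [hy, B_zero_left] at this
    exact lt_irrefl _ this
  refine ⟨LinearMap.range g, ?_, ?_, ?_⟩
  · rw [LinearMap.finrank_range_of_inj hinj]
    exact hker
  · rintro _ ⟨y, rfl⟩ hne
    apply hgpos
    rintro rfl
    exact hne (map_zero g)
  · rintro _ ⟨y, rfl⟩ t ht
    rw [hg, B_sub_left, B_smul_left]
    rcases Finset.mem_insert.1 ht with h | ht
    · rw [h, div_mul_cancel₀ _ hvv'.ne, sub_self]
    · rcases Finset.mem_insert.1 ht with h | ht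
      · rw [h, hv'x, mul_zero, sub_zero]
        exact (LinearMap.mem_ker.1 y.2)
      · rw [hv'T t ht, mul_zero, sub_zero]
        exact hort _ (y : W).2 t ht

end U1

theorem prfU1 : S_U1 := by
  intro n F _ _ m T x v hI hx hv hxx hxv
  exact U1.main m T x v hI hx hv hxx hxv

end Eu

end MP8a95ee
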