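import Pool.Agent.Work.MP_8a95ee_gt.Eu.Stmts2

namespace MP8a95ee.Eu

open Classical

namespace FN5

theorem mem_cross {n : ℕ} (σ : Finset ℕ) : σ ∈ cross n ↔ (∀ x ∈ σ, x < 2 * n) ∧
    ∀ i < n, ¬ (2 * i ∈ σ ∧ 2 * i + 1 ∈ σ) := by
  unfold cross
  rw [Finset.mem_filter, Finset.mem_powerset]
  simp only [Finset.mem_range]
  constructor
  · rintro ⟨h1, h2⟩
    exact ⟨fun x hx => Finset.mem_range.mp (h1 hx), h2⟩
  · rintro ⟨h1, h2⟩
    exact ⟨fun x hx => Finset.mem_range.mpr (h1 x hx), h2⟩

theorem isFlag_cross (n : ℕ) : IsFlag (cross n) := by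
  intro σ
  constructor
  · intro h x hx y hy
    rw [mem_cross] at h ⊢
    have hsub : ({x, y} : Finset ℕ) ⊆ σ := by
      intro z hz
      rw [Finset.mem_insert, Finset.mem_singleton] at hz
      rcases hz with rfl | rfl
      · exact hx
      · exact hy
    exact ⟨fun z hz => h.1 z (hsub hz), fun i hi hcon => h.2 i hi ⟨hsub hcon.1, hsub hcon.2⟩⟩
  · intro h
    rw [mem_cross]
    refine ⟨fun x hx => ?_, fun i hi hcon => ?_⟩
    · exact ((mem_cross _).mp (h x hx x hx)).1 x (Finset.mem_insert_self _ _)
    · exact ((mem_cross _).mp (h _ hcon.1 _ hcon.2)).2 i hi ⟨Finset.mem_insert_self _ _,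
        Finset.mem_insert_of_mem (Finset.mem_singleton_self _)⟩

theorem verts_cross (n : ℕ) : verts (cross n) = Finset.range (2 * n) := by
  ext x
  unfold verts
  rw [Finset.mem_biUnion, Finset.mem_range]
  constructor
  · rintro ⟨σ, hσ, hx⟩
    exact ((mem_cross σ).mp hσ).1 x hx
  · intro hx
    refine ⟨{x}, (mem_cross _).mpr ⟨fun y hy => ?_, fun i hi hc => ?_⟩, Finset.mem_singleton_self x⟩
    · rw [Finset.mem_singleton] at hy
      omega
    · rw [Finset.mem_singleton, Finset.mem_singleton] at hc
      omega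

/-- The vectors `± e_i`. -/
noncomputable def P (n : ℕ) (v : ℕ) (i : Fin n) : ℝ :=
  (if v = 2 * (i : ℕ) then 1 else 0) - (if v = 2 * (i : ℕ) + 1 then 1 else 0)

theorem sum_P (n : ℕ) (c : ℕ → ℝ) (i : Fin n) :
    (∑ v ∈ Finset.range (2 * n), c v • P n v) i = c (2 * (i : ℕ)) - c (2 * (i : ℕ) + 1) := by
  have hi := i.isLt
  rw [Finset.sum_apply]
  have h1 : ∀ v ∈ Finset.range (2 * n), (c v • P n v) i =
      (if v = 2 * (i : ℕ) then c v else 0) - (if v = 2 * (i : ℕ) + 1 then c v else 0) := by
    intro v _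
    rw [Pi.smul_apply, smul_eq_mul]
    unfold P
    split_ifs <;> ring
  rw [Finset.sum_congr rfl h1, Finset.sum_sub_distrib, Finset.sum_ite_eq', Finset.sum_ite_eq',
    if_pos (Finset.mem_range.mpr (by omega)), if_pos (Finset.mem_range.mpr (by omega))]

theorem complete (n : ℕ) : IsCompleteFan (cross n) (P n) := by
  intro x
  rw [verts_cross]
  set X : ℕ → ℝ := fun k => if h : k < n then x ⟨k, h⟩ else 0 with hX
  have hXi : ∀ i : Fin n, X i = x i := by
    intro i
    simp only [hX, i.isLt, dif_pos]
  have hX0 : ∀ k, n ≤ k → X k = 0 := by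
    intro k hk
    simp only [hX]
    rw [dif_neg (by omega)]
  set c : ℕ → ℝ := fun v => if v % 2 = 0 then max (X (v / 2)) 0 else max (-X (v / 2)) 0 with hc
  have hce : ∀ i, c (2 * i) = max (X i) 0 := by
    intro i
    simp only [hc]
    rw [if_pos (by omega), show 2 * i / 2 = i by omega]
  have hco : ∀ i, c (2 * i + 1) = max (-X i) 0 := by
    intro i
    simp only [hc]
    rw [if_neg (by omega), show (2 * i + 1) / 2 = i by omega]
  have hsplit : ∀ v : ℕ, (∃ i, v = 2 * i) ∨ ∃ i, v = 2 * i + 1 := by
    intro v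
    rcases Nat.mod_two_eq_zero_or_one v with h | h
    · exact Or.inl ⟨v / 2, by omega⟩
    · exact Or.inr ⟨v / 2, by omega⟩
  refine ⟨c, ⟨fun v => ?_, ⟨(Finset.range (2 * n)).filter (fun v => c v ≠ 0), ?_, ?_⟩, ?_⟩, ?_⟩
  · rcases hsplit v with ⟨i, rfl⟩ | ⟨i, rfl⟩
    · rw [hce]
      exact le_max_right _ _
    · rw [hco]
      exact le_max_right _ _
  · rw [mem_cross]
    refine ⟨fun v hv => Finset.mem_range.mp (Finset.mem_filter.mp hv).1, fun i hi hcon => ?_⟩
    have h1 := (Finset.mem_filter.mp hcon.1).2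
    have h2 := (Finset.mem_filter.mp hcon.2).2
    rw [hce] at h1
    rw [hco] at h2
    rcases le_total 0 (X i) with h | h
    · exact h2 (max_eq_right (by linarith))
    · exact h1 (max_eq_right h)
  · intro v hv
    rw [Finset.mem_filter, Finset.mem_range]
    refine ⟨?_, hv⟩
    by_contra hlt
    apply hv
    rcases hsplit v with ⟨i, rfl⟩ | ⟨i, rfl⟩
    · rw [hce, hX0 i (by omega), max_self]
    · rw [hco, hX0 i (by omega), neg_zero, max_self]
  · funext i
    rw [sum_P, hce, hco, hXi]
    rcases le_total 0 (x i) with h | h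
    · rw [max_eq_left h, max_eq_right (by linarith)]
      ring
    · rw [max_eq_right h, max_eq_left (by linarith)]
      ring
  · rintro d ⟨hd0, ⟨σ, hσ, hσd⟩, hd⟩
    rw [mem_cross] at hσ
    have hout : ∀ v, 2 * n ≤ v → d v = 0 := by
      intro v hv
      by_contra h
      have := hσ.1 v (hσd v h)
      omega
    have hpair : ∀ i, i < n → d (2 * i) = max (X i) 0 ∧ d (2 * i + 1) = max (-X i) 0 := by
      intro i hi
      have h1 : d (2 * i) - d (2 * i + 1) = X i := by
        have := congrFun hd ⟨i, hi⟩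
        rw [sum_P] at this
        rw [hXi ⟨i, hi⟩, ← this]
      have h2 : d (2 * i) = 0 ∨ d (2 * i + 1) = 0 := by
        by_contra hcon
        push Not at hcon
        exact hσ.2 i hi ⟨hσd _ hcon.1, hσd _ hcon.2⟩
      have h3 := hd0 (2 * i)
      have h4 := hd0 (2 * i + 1)
      rcases h2 with h2 | h2
      · rw [h2] at h1 ⊢
        constructor
        · rw [max_eq_right (by linarith)]
        · rw [max_eq_left (by linarith)]
          linarith
      · rw [h2] at h1 ⊢
        constructor
        · rw [max_eq_left (by linarith)]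
          linarith
        · rw [max_eq_right (by linarith)]
    funext v
    rcases hsplit v with ⟨i, rfl⟩ | ⟨i, rfl⟩
    · by_cases hi : i < n
      · rw [hce, (hpair i hi).1]
      · rw [hce, hX0 i (by omega), hout _ (by omega), max_self]
    · by_cases hi : i < n
      · rw [hco, (hpair i hi).2]
      · rw [hco, hX0 i (by omega), hout _ (by omega), neg_zero, max_self]

/-- The matrix. -/
noncomputable def N (u v : ℕ) : ℝ := if u / 2 = v / 2 ∧ u ≠ v then 1 else 0

theorem positive (n : ℕ) : IsPositive (cross n) (P n) N := by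
  constructor
  · intro u v h
    rw [mem_cross] at h
    unfold N
    rw [if_neg]
    rintro ⟨h1, h2⟩
    have hu := h.1 u (Finset.mem_insert_self _ _)
    apply h.2 (u / 2) (by omega)
    rw [Finset.mem_insert, Finset.mem_singleton, Finset.mem_insert, Finset.mem_singleton]
    omega
  · intro y hy hrel
    rw [verts_cross] at hy hrel ⊢
    have hpair : ∀ i, i < n → y (2 * i) = y (2 * i + 1) := by
      intro i hi
      have := congrFun hrel ⟨i, hi⟩
      rw [sum_P, Pi.zero_apply] at this
      have h0 : y (2 * i) - y (2 * i + 1) = 0 := this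
      linarith
    have h1 : ∀ u ∈ Finset.range (2 * n),
        ∑ v ∈ Finset.range (2 * n), y u * y v * N u v = y u * y u := by
      intro u hu
      rw [Finset.mem_range] at hu
      set p : ℕ := if u % 2 = 0 then u + 1 else u - 1 with hp
      have hpu : y p = y u := by
        rcases Nat.mod_two_eq_zero_or_one u with h | h
        · have e := hpair (u / 2) (by omega)
          rw [show 2 * (u / 2) = u by omega] at e
          rw [hp, if_pos h, e]
        · have e := hpair (u / 2) (by omega)
          rw [show 2 * (u / 2) + 1 = u by omega, show 2 * (u / 2) = u - 1 by omega] at e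
          rw [hp, if_neg (by omega), e]
      have h2 : ∀ v ∈ Finset.range (2 * n), y u * y v * N u v = if v = p then y u * y v else 0 := by
        intro v _
        unfold N
        have hiff : (u / 2 = v / 2 ∧ u ≠ v) ↔ v = p := by
          rw [hp]
          split_ifs <;> omega
        by_cases hv : v = p
        · rw [if_pos (hiff.mpr hv), if_pos hv, mul_one]
        · rw [if_neg (fun h => hv (hiff.mp h)), if_neg hv, mul_zero]
      rw [Finset.sum_congr rfl h2, Finset.sum_ite_eq', if_pos, hpu]
      rw [Finset.mem_range, hp]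
      split_ifs <;> omega
    rw [Finset.sum_congr rfl h1]
    obtain ⟨v, hv, hv0⟩ := hy
    exact Finset.sum_pos' (fun u _ => mul_self_nonneg _) ⟨v, hv, mul_self_pos.mpr hv0⟩

end FN5

theorem prfFN5 : S_FN5 := fun n =>
  ⟨FN5.isFlag_cross n, FN5.P n, FN5.N, FN5.complete n, FN5.positive n⟩

end MP8a95ee.Eu
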