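import Pool.Agent.Work.MP_8a95ee_gt.Eu.Stmts2
import Pool.Agent.Work.MP_8a95ee_gt.Bd.B01

namespace MP8a95ee.Eu

open Classical

namespace FN7

theorem toC {L : Finset (Finset ℕ)} (h : IsFlag L) : FlagC L := h

/-- the vertices of a subdivision -/
theorem verts_subdiv {L : Finset (Finset ℕ)} (hf : IsFlag L) {u v w : ℕ} (huv : u ≠ v)
    (he : ({u, v} : Finset ℕ) ∈ L) (hw : w ∉ verts L) :
    verts (subdiv L u v w) = insert w (verts L) := by
  have hf' : FlagC L := hf
  have huw : u ≠ w := by
    rintro rfl
    exact hw (A1.subset_verts he (Finset.mem_insert_self _ _))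
  have hvw : v ≠ w := by
    rintro rfl
    exact hw (A1.subset_verts he (Finset.mem_insert_of_mem (Finset.mem_singleton_self _)))
  ext x
  constructor
  · intro hx
    obtain ⟨s, hs, hxs⟩ := Finset.mem_biUnion.mp hx
    by_cases hws : w ∈ s
    · rw [A1.mem_subdiv_of_mem hf' he hw hws] at hs
      by_cases hxw : x = w
      · rw [hxw]
        exact Finset.mem_insert_self _ _
      · refine Finset.mem_insert_of_mem (A1.subset_verts hs.2 ?_)
        exact Finset.mem_insert_of_mem (Finset.mem_insert_of_mem (Finset.mem_erase.mpr ⟨hxw, hxs⟩))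
    · rw [A1.mem_subdiv_of_notMem hws] at hs
      exact Finset.mem_insert_of_mem (A1.subset_verts hs.1 hxs)
  · intro hx
    rw [Finset.mem_insert] at hx
    rcases hx with rfl | hx
    · refine Finset.mem_biUnion.mpr ⟨{x}, ?_, Finset.mem_singleton_self x⟩
      rw [A1.mem_subdiv_of_mem hf' he hw (Finset.mem_singleton_self x)]
      refine ⟨fun h => huw (Finset.mem_singleton.mp h.1), hf'.mono he ?_⟩
      intro z hz
      rw [Finset.mem_insert, Finset.mem_insert, Finset.mem_erase, Finset.mem_singleton] at hz
      rw [Finset.mem_insert, Finset.mem_singleton]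
      rcases hz with h | h | h
      · exact Or.inl h
      · exact Or.inr h
      · exact absurd h.2 h.1
    · have hxw : x ≠ w := by
        rintro rfl
        exact hw hx
      refine Finset.mem_biUnion.mpr ⟨{x}, ?_, Finset.mem_singleton_self x⟩
      rw [A1.mem_subdiv_of_notMem (by
        rw [Finset.mem_singleton]
        exact fun h => hxw h.symm)]
      refine ⟨(verts_mem_iff hf' x).mp hx, ?_⟩
      rintro ⟨h1, h2⟩
      rw [Finset.mem_singleton] at h1 h2
      exact huv (h1.trans h2.symm)

/-- sum over `V` of a function changed at two points -/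
theorem sum_change {M : Type} [AddCommGroup M] (V : Finset ℕ) {u v : ℕ} (huv : u ≠ v) (hu : u ∈ V)
    (hv : v ∈ V) (f : ℕ → M) (a b : M) :
    ∑ x ∈ V, (if x = u then f x + a else if x = v then f x + b else f x) =
      ∑ x ∈ V, f x + a + b := by
  have h1 : ∀ x ∈ V, (if x = u then f x + a else if x = v then f x + b else f x) =
      f x + (if x = u then a else 0) + (if x = v then b else 0) := by
    intro x _
    by_cases hxu : x = u
    · have hxv : x ≠ v := fun h => huv (hxu.symm.trans h)
      rw [if_pos hxu, if_pos hxu, if_neg hxv, add_zero]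
    · by_cases hxv : x = v
      · rw [if_neg hxu, if_pos hxv, if_neg hxu, if_pos hxv, add_zero]
      · rw [if_neg hxu, if_neg hxv, if_neg hxu, if_neg hxv, add_zero, add_zero]
  rw [Finset.sum_congr rfl h1, Finset.sum_add_distrib, Finset.sum_add_distrib,
    Finset.sum_ite_eq', Finset.sum_ite_eq', if_pos hu, if_pos hv]

/-- the new matrix -/
noncomputable def N' (N : ℕ → ℕ → ℝ) (ε : ℝ) (u v w a b : ℕ) : ℝ :=
  if a = w then (if b = w then 0 else N u b + N v b)
  else if b = w then N a u + N a v else N a b + (if a = u ∧ b = v then ε else 0)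

theorem mem_of_insert2 {u v b : ℕ} {s : Finset ℕ} (h : b ∈ s) : b ∈ insert u (insert v s) :=
  Finset.mem_insert_of_mem (Finset.mem_insert_of_mem h)

end FN7

open FN7 in
theorem prfFN7 (hq : S_QF) : S_FN7 := by
  intro n L P N hf hN u v w huv he hw
  have hf' : FlagC L := hf
  have huV : u ∈ verts L := A1.subset_verts he (Finset.mem_insert_self _ _)
  have hvV : v ∈ verts L :=
    A1.subset_verts he (Finset.mem_insert_of_mem (Finset.mem_singleton_self _))
  have huw : u ≠ w := fun h => hw (h ▸ huV)
  have hvw : v ≠ w := fun h => hw (h ▸ hvV)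
  obtain ⟨a, δ, ha, hδ, hQ⟩ := hq n L P N hN
  -- the vanishing entries
  have hsub : ∀ s : Finset ℕ, s ∈ L → ∀ x ∈ s, ∀ y ∈ s, N x y = 0 := by
    intro s hs x hx y hy
    exact hN.1 x y (hf'.mono hs (A1.pair_subset hx hy))
  have hmu : u ∈ ({u, v} : Finset ℕ) := Finset.mem_insert_self _ _
  have hmv : v ∈ ({u, v} : Finset ℕ) := Finset.mem_insert_of_mem (Finset.mem_singleton_self _)
  have huu : N u u = 0 := hsub _ he u hmu u hmu
  have hvv : N v v = 0 := hsub _ he v hmv v hmv
  have huv0 : N u v = 0 := hsub _ he u hmu v hmv
  have hvu0 : N v u = 0 := hsub _ he v hmv u hmu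
  refine ⟨N' N (δ / 3) u v w, ?_, ?_⟩
  · -- zero on edges
    intro p q hpq
    unfold N'
    by_cases hpw : p = w
    · rw [if_pos hpw]
      by_cases hqw : q = w
      · rw [if_pos hqw]
      · rw [if_neg hqw]
        have hmem : w ∈ ({p, q} : Finset ℕ) := by
          rw [hpw]
          exact Finset.mem_insert_self _ _
        rw [A1.mem_subdiv_of_mem hf' he hw hmem] at hpq
        have hq1 : q ∈ insert u (insert v ((({p, q} : Finset ℕ)).erase w)) :=
          mem_of_insert2 (Finset.mem_erase.mpr ⟨hqw, Finset.mem_insert_of_mem
            (Finset.mem_singleton_self _)⟩)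
        have h1 := hsub _ hpq.2 u (Finset.mem_insert_self _ _) q hq1
        have h2 := hsub _ hpq.2 v (Finset.mem_insert_of_mem (Finset.mem_insert_self _ _)) q hq1
        rw [h1, h2, add_zero]
    · rw [if_neg hpw]
      by_cases hqw : q = w
      · rw [if_pos hqw]
        have hmem : w ∈ ({p, q} : Finset ℕ) := by
          rw [hqw]
          exact Finset.mem_insert_of_mem (Finset.mem_singleton_self _)
        rw [A1.mem_subdiv_of_mem hf' he hw hmem] at hpq
        have hq1 : p ∈ insert u (insert v ((({p, q} : Finset ℕ)).erase w)) :=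
          mem_of_insert2 (Finset.mem_erase.mpr ⟨hpw, Finset.mem_insert_self _ _⟩)
        have h1 := hsub _ hpq.2 p hq1 u (Finset.mem_insert_self _ _)
        have h2 := hsub _ hpq.2 p hq1 v (Finset.mem_insert_of_mem (Finset.mem_insert_self _ _))
        rw [h1, h2, add_zero]
      · rw [if_neg hqw]
        have hnmem : w ∉ ({p, q} : Finset ℕ) := by
          rw [Finset.mem_insert, Finset.mem_singleton]
          rintro (h | h)
          · exact hpw h.symm
          · exact hqw h.symm
        rw [A1.mem_subdiv_of_notMem hnmem] at hpq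
        rw [hN.1 p q hpq.1, if_neg, add_zero]
        rintro ⟨h1, h2⟩
        apply hpq.2
        rw [h1, h2]
        exact ⟨hmu, hmv⟩
  · -- the form
    intro y hy hrel
    rw [verts_subdiv hf huv he hw] at hy hrel ⊢
    rw [Finset.sum_insert hw] at hrel
    -- the transformed vector
    set Y : ℕ → ℝ := fun x => if x = u then y x + y w else if x = v then y x + y w else y x
      with hY
    have hYu : Y u = y u + y w := if_pos rfl
    have hYv : Y v = y v + y w := (if_neg huv.symm).trans (if_pos rfl)
    have hYx : ∀ x, x ≠ u → x ≠ v → Y x = y x :=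
      fun x h1 h2 => (if_neg h1).trans (if_neg h2)
    have hP' : ∀ x ∈ verts L, Function.update P w (P u + P v) x = P x := by
      intro x hx
      rw [Function.update_of_ne]
      rintro rfl
      exact hw hx
    have hrelY : ∑ x ∈ verts L, Y x • P x = 0 := by
      rw [← hrel, Function.update_self]
      have h1 : ∀ x ∈ verts L, Y x • P x = (if x = u then y x • P x + y w • P u else
          if x = v then y x • P x + y w • P v else y x • P x) := by
        intro x _
        by_cases hxu : x = u
        · rw [if_pos hxu, hxu, hYu, add_smul]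
        · by_cases hxv : x = v
          · rw [if_neg hxu, if_pos hxv, hxv, hYv, add_smul]
          · rw [if_neg hxu, if_neg hxv, hYx x hxu hxv]
      rw [Finset.sum_congr rfl h1, sum_change (verts L) huv huV hvV]
      have h2 : ∑ x ∈ verts L, y x • Function.update P w (P u + P v) x =
          ∑ x ∈ verts L, y x • P x :=
        Finset.sum_congr rfl fun x hx => by rw [hP' x hx]
      rw [h2, smul_add]
      abel
    have hQY := hQ Y
    have hrel0 : ∑ i : Fin n, (∑ x ∈ verts L, Y x * P x i) ^ 2 = 0 := by
      apply Finset.sum_eq_zero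
      intro i _
      have h1 : ∑ x ∈ verts L, Y x * P x i = 0 := by
        have h2 := congrFun hrelY i
        rw [Finset.sum_apply] at h2
        simpa only [Pi.smul_apply, smul_eq_mul, Pi.zero_apply] using h2
      rw [h1]
      ring
    rw [hrel0, mul_zero, zero_add] at hQY
    -- the identity of the forms
    have hYsum : ∀ g : ℕ → ℝ, ∑ x ∈ verts L, Y x * g x =
        ∑ x ∈ verts L, y x * g x + y w * g u + y w * g v := by
      intro g
      have h1 : ∀ x ∈ verts L, Y x * g x = (if x = u then y x * g x + y w * g u else
          if x = v then y x * g x + y w * g v else y x * g x) := by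
        intro x _
        by_cases hxu : x = u
        · rw [if_pos hxu, hxu, hYu, add_mul]
        · by_cases hxv : x = v
          · rw [if_neg hxu, if_pos hxv, hxv, hYv, add_mul]
          · rw [if_neg hxu, if_neg hxv, hYx x hxu hxv]
      rw [Finset.sum_congr rfl h1, sum_change (verts L) huv huV hvV]
    have hform : ∑ p ∈ insert w (verts L), ∑ q ∈ insert w (verts L),
        y p * y q * N' N (δ / 3) u v w p q =
        ∑ p ∈ verts L, ∑ q ∈ verts L, Y p * Y q * N p q + δ / 3 * (y u * y v) := by
      -- left side
      have hww : N' N (δ / 3) u v w w w = 0 := by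
        unfold N'
        rw [if_pos rfl, if_pos rfl]
      have hwq : ∀ q ∈ verts L, N' N (δ / 3) u v w w q = N u q + N v q := by
        intro q hq
        unfold N'
        rw [if_pos rfl, if_neg]
        rintro rfl
        exact hw hq
      have hpw : ∀ p ∈ verts L, N' N (δ / 3) u v w p w = N p u + N p v := by
        intro p hp
        unfold N'
        rw [if_neg, if_pos rfl]
        rintro rfl
        exact hw hp
      have hpq : ∀ p ∈ verts L, ∀ q ∈ verts L, N' N (δ / 3) u v w p q =
          N p q + (if p = u ∧ q = v then δ / 3 else 0) := by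
        intro p hp q hq
        unfold N'
        rw [if_neg, if_neg]
        · rintro rfl
          exact hw hq
        · rintro rfl
          exact hw hp
      rw [Finset.sum_insert hw, Finset.sum_insert hw, hww]
      have e1 : ∑ q ∈ verts L, y w * y q * N' N (δ / 3) u v w w q =
          ∑ q ∈ verts L, y q * (y w * N u q) + ∑ q ∈ verts L, y q * (y w * N v q) := by
        rw [← Finset.sum_add_distrib]
        refine Finset.sum_congr rfl fun q hq => ?_
        rw [hwq q hq]
        ring
      have e2 : ∑ p ∈ verts L, ∑ q ∈ insert w (verts L), y p * y q * N' N (δ / 3) u v w p q =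
          ∑ p ∈ verts L, y p * (y w * N p u + y w * N p v + ∑ q ∈ verts L, y q * N p q)
            + δ / 3 * (y u * y v) := by
        have h1 : ∀ p ∈ verts L, ∑ q ∈ insert w (verts L), y p * y q * N' N (δ / 3) u v w p q =
            y p * (y w * N p u + y w * N p v + ∑ q ∈ verts L, y q * N p q)
              + (if p = u then δ / 3 * (y u * y v) else 0) := by
          intro p hp
          rw [Finset.sum_insert hw, hpw p hp]
          have h2 : ∀ q ∈ verts L, y p * y q * N' N (δ / 3) u v w p q =
              y p * (y q * N p q) + (if q = v then (if p = u then δ / 3 * (y u * y v) else 0)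
                else 0) := by
            intro q hq
            rw [hpq p hp q hq]
            by_cases h3 : p = u
            · by_cases h4 : q = v
              · rw [if_pos ⟨h3, h4⟩, if_pos h4, if_pos h3, h3, h4]
                ring
              · rw [if_neg (fun h => h4 h.2), if_neg h4]
                ring
            · rw [if_neg (fun h => h3 h.1), if_neg h3]
              split_ifs <;> ring
          rw [Finset.sum_congr rfl h2, Finset.sum_add_distrib, Finset.sum_ite_eq', if_pos hvV,
            ← Finset.mul_sum]
          ring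
        rw [Finset.sum_congr rfl h1, Finset.sum_add_distrib, Finset.sum_ite_eq', if_pos huV]
      rw [e1, e2]
      -- right side
      have e3 : ∀ p, ∑ q ∈ verts L, Y p * Y q * N p q =
          Y p * (∑ q ∈ verts L, y q * N p q + y w * N p u + y w * N p v) := by
        intro p
        rw [← hYsum (fun q => N p q), Finset.mul_sum]
        refine Finset.sum_congr rfl fun q _ => ?_
        ring
      have e4 : ∑ p ∈ verts L, ∑ q ∈ verts L, Y p * Y q * N p q =
          ∑ p ∈ verts L, y p * (∑ q ∈ verts L, y q * N p q + y w * N p u + y w * N p v)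
          + y w * (∑ q ∈ verts L, y q * N u q + y w * N u u + y w * N u v)
          + y w * (∑ q ∈ verts L, y q * N v q + y w * N v u + y w * N v v) := by
        rw [Finset.sum_congr rfl fun p _ => e3 p]
        exact hYsum (fun p => ∑ q ∈ verts L, y q * N p q + y w * N p u + y w * N p v)
      rw [e4, huu, hvv, huv0, hvu0]
      have e5 : ∑ q ∈ verts L, y q * (y w * N u q) = y w * ∑ q ∈ verts L, y q * N u q := by
        rw [Finset.mul_sum]
        refine Finset.sum_congr rfl fun q _ => ?_
        ring
      have e6 : ∑ q ∈ verts L, y q * (y w * N v q) = y w * ∑ q ∈ verts L, y q * N v q := by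
        rw [Finset.mul_sum]
        refine Finset.sum_congr rfl fun q _ => ?_
        ring
      have e7 : ∑ p ∈ verts L, y p * (y w * N p u + y w * N p v + ∑ q ∈ verts L, y q * N p q) =
          ∑ p ∈ verts L, y p * (∑ q ∈ verts L, y q * N p q + y w * N p u + y w * N p v) := by
        refine Finset.sum_congr rfl fun p _ => ?_
        ring
      rw [e5, e6, e7]
      ring
    rw [hform]
    -- positivity
    set S := ∑ x ∈ verts L, Y x ^ 2 with hS
    set Fm := ∑ p ∈ verts L, ∑ q ∈ verts L, Y p * Y q * N p q with hFm
    have hSuv : Y u ^ 2 + Y v ^ 2 ≤ S := by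
      have h1 : ({u, v} : Finset ℕ) ⊆ verts L := A1.subset_verts he
      have h2 := Finset.sum_le_sum_of_subset_of_nonneg (f := fun x => Y x ^ 2) h1
        (fun x _ _ => sq_nonneg _)
      rw [Finset.sum_pair huv] at h2
      exact h2
    have hyu : y u = Y u - y w := by rw [hYu]; ring
    have hyv : y v = Y v - y w := by rw [hYv]; ring
    have hprod : 1 / 2 * y w ^ 2 - 3 / 2 * (Y u ^ 2 + Y v ^ 2) ≤ y u * y v := by
      rw [hyu, hyv]
      nlinarith [sq_nonneg (y w - Y u - Y v), sq_nonneg (Y u + Y v), sq_nonneg (Y u - Y v),
        sq_nonneg (y w - (Y u + Y v))]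
    have hlow : 1 / 2 * δ * S + δ / 6 * y w ^ 2 ≤ Fm + δ / 3 * (y u * y v) := by
      have h1 := mul_le_mul_of_nonneg_left hprod (show (0 : ℝ) ≤ δ / 3 by positivity)
      have h2 := mul_le_mul_of_nonneg_left hSuv (show (0 : ℝ) ≤ δ / 2 by positivity)
      nlinarith
    have hS0 : 0 ≤ S := Finset.sum_nonneg fun x _ => sq_nonneg _
    by_cases hyw : y w = 0
    · -- then some `Y x` is not zero
      obtain ⟨x, hx, hx0⟩ := hy
      have hxw : x ≠ w := by
        rintro rfl
        exact hx0 hyw
      have hxV : x ∈ verts L := by
        rw [Finset.mem_insert] at hx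
        exact hx.resolve_left hxw
      have hYx0 : Y x ≠ 0 := by
        by_cases hxu : x = u
        · rw [hxu, hYu, hyw, add_zero, ← hxu]
          exact hx0
        · by_cases hxv : x = v
          · rw [hxv, hYv, hyw, add_zero, ← hxv]
            exact hx0
          · rw [hYx x hxu hxv]
            exact hx0
      have hSp : 0 < S := Finset.sum_pos' (fun x _ => sq_nonneg _) ⟨x, hxV, by positivity⟩
      have : 0 < 1 / 2 * δ * S := by positivity
      have h3 : 0 ≤ δ / 6 * y w ^ 2 := by positivity
      linarith
    · have h3 : 0 < δ / 6 * y w ^ 2 := by positivity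
      have : 0 ≤ 1 / 2 * δ * S := by positivity
      linarith

end MP8a95ee.Eu
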