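import Pool.Agent.Work.MP_8a95ee_gt.Eu.Stmts3
import Pool.Agent.Work.MP_8a95ee_gt.E

/-!
# FN8: every simplicial cycle of a complete fan is a multiple of its orientation
-/

namespace MP8a95ee.Eu

open Classical

namespace FN8

variable {n : ℕ}

/-- The vector of a vertex. -/
noncomputable def vv (P : ℕ → Fin n → ℝ) (v : ℕ) : E n ℝ := (P v, 0)

/-- The list of a tuple. -/
noncomputable def li (P : ℕ → Fin n → ℝ) (s : Fin n → ℕ) : List (E n ℝ) :=
  List.ofFn (fun i => vv P (s i))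

/-- The chain of a cycle. -/
noncomputable def ch (V : Finset ℕ) (o : (Fin n → ℕ) → ℤ) (P : ℕ → Fin n → ℝ) :
    List (E n ℝ) →₀ ℝ :=
  ∑ s ∈ Fintype.piFinset (fun _ : Fin n => V), (o s : ℝ) • Finsupp.single (li P s) (1 : ℝ)

theorem sum_upd {M : Type} [AddCommGroup M] [Module ℝ M] (V : Finset ℕ) (i : Fin n)
    (h : (Fin n → ℕ) → M) :
    ∑ s ∈ Fintype.piFinset (fun _ : Fin n => V), ∑ x ∈ V, h (Function.update s i x) =
      (V.card : ℝ) • ∑ s ∈ Fintype.piFinset (fun _ : Fin n => V), h s := by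
  have h1 : (V.card : ℝ) • ∑ s ∈ Fintype.piFinset (fun _ : Fin n => V), h s =
      ∑ z ∈ Fintype.piFinset (fun _ : Fin n => V) ×ˢ V, h z.1 := by
    rw [Finset.sum_product, Finset.smul_sum]
    refine Finset.sum_congr rfl fun s _ => ?_
    show (V.card : ℝ) • h s = ∑ _y ∈ V, h s
    rw [Finset.sum_const, Nat.cast_smul_eq_nsmul]
  rw [h1, ← Finset.sum_product']
  refine Finset.sum_nbij' (fun z => (Function.update z.1 i z.2, z.1 i))
    (fun z => (Function.update z.1 i z.2, z.1 i)) ?_ ?_ ?_ ?_ ?_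
  · rintro ⟨s, x⟩ hz
    rw [Finset.mem_product, Fintype.mem_piFinset] at hz ⊢
    refine ⟨fun j => ?_, hz.1 i⟩
    by_cases hj : j = i
    · subst hj
      simpa using hz.2
    · simpa [Function.update_of_ne hj] using hz.1 j
  · rintro ⟨s, x⟩ hz
    rw [Finset.mem_product, Fintype.mem_piFinset] at hz ⊢
    refine ⟨fun j => ?_, hz.1 i⟩
    by_cases hj : j = i
    · subst hj
      simpa using hz.2
    · simpa [Function.update_of_ne hj] using hz.1 j
  · rintro ⟨s, x⟩ _
    simp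
  · rintro ⟨s, x⟩ _
    simp
  · rintro ⟨s, x⟩ _
    rfl

theorem getElem_li (P : ℕ → Fin n → ℝ) (s : Fin n → ℕ) (j : ℕ) (h : j < (li P s).length) :
    (li P s)[j] = vv P (s ⟨j, by simpa [li] using h⟩) := by
  simp [li]

theorem length_li (P : ℕ → Fin n → ℝ) (s : Fin n → ℕ) : (li P s).length = n := by simp [li]

theorem erase_upd (P : ℕ → Fin n → ℝ) (s : Fin n → ℕ) (i : Fin n) (x : ℕ) :
    (li P (Function.update s i x)).eraseIdx i = (li P s).eraseIdx i := by
  apply List.ext_getElem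
  · rw [List.length_eraseIdx, List.length_eraseIdx, length_li, length_li]
  · intro j h1 h2
    rw [List.getElem_eraseIdx, List.getElem_eraseIdx]
    split_ifs with h
    · rw [getElem_li, getElem_li, Function.update_of_ne]
      intro h3
      have := congrArg Fin.val h3
      simp only at this
      omega
    · rw [getElem_li, getElem_li, Function.update_of_ne]
      intro h3
      have := congrArg Fin.val h3
      simp only at this
      omega

theorem face_sub {L : Finset (Finset ℕ)} (hF : IsFlag L) {σ τ : Finset ℕ} (hσ : σ ∈ L)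
    (h : τ ⊆ σ) : τ ∈ L :=
  (hF τ).2 fun x hx y hy => (hF σ).1 hσ x (h hx) y (h hy)

theorem sum_zero {V : Finset ℕ} {o : (Fin n → ℕ) → ℤ} (P : ℕ → Fin n → ℝ) (i : Fin n)
    (ho : ∀ s : Fin n → ℕ, ∑ x ∈ V, o (Function.update s i x) = 0) :
    ∑ s ∈ Fintype.piFinset (fun _ : Fin n => V), (o s : ℝ) •
      Finsupp.single ((li P s).eraseIdx i) (1 : ℝ) = 0 := by
  by_cases hV : V = ∅
  · subst hV
    refine Finset.sum_eq_zero fun s hs => ?_
    rw [Fintype.mem_piFinset] at hs
    exact absurd (hs i) (Finset.notMem_empty _)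
  · have h1 := sum_upd V i (fun s => (o s : ℝ) • Finsupp.single ((li P s).eraseIdx i) (1 : ℝ))
    have h2 : ∑ s ∈ Fintype.piFinset (fun _ : Fin n => V), ∑ x ∈ V,
        (o (Function.update s i x) : ℝ) •
          Finsupp.single ((li P (Function.update s i x)).eraseIdx i) (1 : ℝ) = 0 := by
      refine Finset.sum_eq_zero fun s _ => ?_
      simp only [erase_upd]
      rw [← Finset.sum_smul]
      have h3 := ho s
      have h4 : ∑ x ∈ V, (o (Function.update s i x) : ℝ) = 0 := by exact_mod_cast h3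
      rw [h4, zero_smul]
    rw [h2] at h1
    have h5 : (V.card : ℝ) ≠ 0 := by
      rw [Nat.cast_ne_zero, Finset.card_ne_zero]
      exact Finset.nonempty_iff_ne_empty.2 hV
    exact (smul_eq_zero.1 h1.symm).resolve_left h5

theorem bd_ch (h1 : S_LC1) {V : Finset ℕ} {o : (Fin n → ℕ) → ℤ} (P : ℕ → Fin n → ℝ)
    (ho : ∀ (s : Fin n → ℕ) (i : Fin n), ∑ x ∈ V, o (Function.update s i x) = 0) :
    bd ℝ (ch V o P) = 0 := by
  have hf := (h1 ℝ (E n ℝ) (E n ℝ)).2.2.2.2
  have e1 : ∀ s : Fin n → ℕ, bd ℝ ((o s : ℝ) • Finsupp.single (li P s) (1 : ℝ)) =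
      ∑ i : Fin n, ((-1 : ℝ) ^ (i : ℕ)) • ((o s : ℝ) •
        Finsupp.single ((li P s).eraseIdx i) (1 : ℝ)) := by
    intro s
    rw [map_smul]
    have e2 : bd ℝ (Finsupp.single (li P s) (1 : ℝ)) = faces ℝ (li P s) := by
      rw [bd, Finsupp.linearCombination_single, one_smul]
    rw [e2, hf, length_li, Finset.sum_range, Finset.smul_sum]
    refine Finset.sum_congr rfl fun i _ => ?_
    rw [smul_comm, Finsupp.smul_single_one]
  rw [ch, map_sum]
  simp only [e1]
  rw [Finset.sum_comm]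
  refine Finset.sum_eq_zero fun i _ => ?_
  rw [← Finset.smul_sum, sum_zero P i (fun s => ho s i), smul_zero]

theorem supp_ch {V : Finset ℕ} {o : (Fin n → ℕ) → ℤ} {P : ℕ → Fin n → ℝ} {l : List (E n ℝ)}
    (h : l ∈ (ch V o P).support) : ∃ s, o s ≠ 0 ∧ l = li P s := by
  by_contra hc
  push Not at hc
  rw [Finsupp.mem_support_iff] at h
  apply h
  rw [ch, Finsupp.finsetSum_apply]
  refine Finset.sum_eq_zero fun s _ => ?_
  rw [Finsupp.smul_apply, Finsupp.single_apply]
  by_cases hs : o s = 0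
  · simp [hs]
  · rw [if_neg (fun h' => hc s hs h'.symm), smul_zero]

theorem exists_dual {A : Matrix (Fin n) (Fin n) ℝ} (hA : A.det ≠ 0) :
    ∃ a : Fin n → ℝ, ∀ i, A i ⬝ᵥ a = 1 := by
  refine ⟨A⁻¹.mulVec (fun _ => 1), fun i => ?_⟩
  have h : A.mulVec (A⁻¹.mulVec (fun _ => 1)) = fun _ => 1 := by
    rw [Matrix.mulVec_mulVec, Matrix.mul_nonsing_inv _ (isUnit_iff_ne_zero.2 hA),
      Matrix.one_mulVec]
  exact congrFun h i

theorem exists_coord {A : Matrix (Fin n) (Fin n) ℝ} (hA : A.det ≠ 0) (p : Fin n → ℝ) :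
    ∃ c : Fin n → ℝ, p = ∑ i, c i • A i := by
  refine ⟨Matrix.vecMul p A⁻¹, ?_⟩
  have h : Matrix.vecMul (Matrix.vecMul p A⁻¹) A = p := by
    rw [Matrix.vecMul_vecMul, Matrix.nonsing_inv_mul _ (isUnit_iff_ne_zero.2 hA),
      Matrix.vecMul_one]
  funext j
  conv_lhs => rw [← h]
  rw [Matrix.vecMul, dotProduct, Finset.sum_apply]
  rfl

theorem posL {P : ℕ → Fin n → ℝ} {s : Fin n → ℕ}
    (hA : Matrix.det (fun i => P (s i)) ≠ 0) : PosL (li P s) := by
  obtain ⟨a, ha⟩ := exists_dual hA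
  have hK : convexHull ℝ {x | x ∈ li P s} ⊆ {w : E n ℝ | w.2 = 0 ∧ w.1 ⬝ᵥ a = 1} := by
    refine convexHull_min ?_ ?_
    · intro x hx
      simp only [Set.mem_ofPred_eq, li, List.mem_ofFn] at hx
      obtain ⟨i, rfl⟩ := hx
      exact ⟨rfl, ha i⟩
    · intro x hx y hy b c _ _ hbc
      refine ⟨?_, ?_⟩
      · rw [Prod.snd_add, Prod.smul_snd, Prod.smul_snd, hx.1, hy.1]
        simp
      · rw [Prod.fst_add, Prod.smul_fst, Prod.smul_fst, add_dotProduct, smul_dotProduct,
          smul_dotProduct, hx.2, hy.2]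
        simpa using hbc
  intro w hw
  obtain ⟨h1, h2⟩ := hK hw
  have h3 : w.1 ≠ 0 := by
    intro h
    rw [h, zero_dotProduct] at h2
    exact zero_ne_one h2
  have h4 : 0 ≤ w.1 ⬝ᵥ w.1 := Finset.sum_nonneg fun i _ => mul_self_nonneg _
  have h5 : w.1 ⬝ᵥ w.1 ≠ 0 := fun h => h3 (dotProduct_self_eq_zero.1 h)
  have h6 : B w w = w.1 ⬝ᵥ w.1 := by
    rw [B, h1]
    simp
  rw [h6]
  exact lt_of_le_of_ne h4 h5.symm

theorem mat_li (P : ℕ → Fin n → ℝ) (s : Fin n → ℕ) : mat (li P s) = fun i => P (s i) := by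
  funext i
  rw [mat]
  have h : (i : ℕ) < (li P s).length := by rw [length_li]; exact i.2
  rw [List.getD_eq_getElem _ _ h, getElem_li]
  rfl

theorem gen_li {L : Finset (Finset ℕ)} (hF : IsFlag L) {P : ℕ → Fin n → ℝ} {p : Fin n → ℝ}
    (hp : ∀ ρ ∈ L, ρ.card < n → p ∉ Submodule.span ℝ (P '' (ρ : Set ℕ))) {s : Fin n → ℕ}
    (hs : Finset.univ.image s ∈ L) : Gen p (li P s) := by
  intro i hmem
  have h1 : ∀ j : Fin n, ((li P s).getD j 0).1 = P (s j) := fun j =>
    congrFun (mat_li P s) j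
  simp only [h1] at hmem
  refine hp ((Finset.univ.erase i).image s) ?_ ?_ ?_
  · exact face_sub hF hs (Finset.image_subset_image (Finset.subset_univ _))
  · refine lt_of_le_of_lt Finset.card_image_le ?_
    rw [Finset.card_erase_of_mem (Finset.mem_univ _), Finset.card_univ, Fintype.card_fin]
    have := i.2
    omega
  · refine Submodule.span_mono ?_ hmem
    rintro _ ⟨j, hj, rfl⟩
    refine ⟨s j, ?_, rfl⟩
    rw [Finset.mem_coe, Finset.mem_image]
    exact ⟨j, Finset.mem_erase.2 ⟨hj, Finset.mem_univ _⟩, rfl⟩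

theorem det_upd {A : Matrix (Fin n) (Fin n) ℝ} {c : Fin n → ℝ} {p : Fin n → ℝ}
    (hp : p = ∑ i, c i • A i) (i : Fin n) : (A.updateRow i p).det = c i * A.det := by
  rw [hp, Matrix.det_updateRow_sum, smul_eq_mul]

theorem o_perm {o : (Fin n → ℕ) → ℤ}
    (ho : ∀ (s : Fin n → ℕ) (i j : Fin n), i ≠ j → o (s ∘ Equiv.swap i j) = - o s)
    (σ : Equiv.Perm (Fin n)) :
    ∀ s : Fin n → ℕ, o (s ∘ σ) = (Equiv.Perm.sign σ : ℤ) * o s := by
  induction σ using Equiv.Perm.swap_induction_on with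
  | one => intro s; simp
  | swap_mul f x y hxy ih =>
    intro s
    have h1 : s ∘ ⇑(Equiv.swap x y * f) = (s ∘ Equiv.swap x y) ∘ f := by
      funext j
      simp
    rw [h1, ih, ho s x y hxy, Equiv.Perm.sign_mul, Equiv.Perm.sign_swap hxy]
    simp

theorem sum_ch (V : Finset ℕ) (o : (Fin n → ℕ) → ℤ) (P : ℕ → Fin n → ℝ) (p : Fin n → ℝ) :
    ((ch V o P).sum fun l a => a * D p l) =
      ∑ s ∈ Fintype.piFinset (fun _ : Fin n => V), (o s : ℝ) * D p (li P s) := by
  have h : ((ch V o P).sum fun l a => a * D p l) =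
      Finsupp.linearCombination ℝ (fun l => D p l) (ch V o P) := by
    rw [Finsupp.linearCombination_apply]
    rfl
  rw [h, ch, map_sum]
  refine Finset.sum_congr rfl fun s _ => ?_
  rw [map_smul, Finsupp.linearCombination_single, one_smul, smul_eq_mul]

theorem det_ne {L : Finset (Finset ℕ)} {P : ℕ → Fin n → ℝ} (f2 : S_FN2) (hF : IsFlag L)
    (hC : IsCompleteFan L P) {s : Fin n → ℕ} (hs : Function.Injective s)
    (hL : Finset.univ.image s ∈ L) : Matrix.det (fun i => P (s i)) ≠ 0 := by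
  have h := (f2 n L P hF hC).2 s hs hL
  intro h0
  rw [ofan, if_pos ⟨hs, hL⟩, h0, sign_zero] at h
  simp at h

/-- Two facets whose open cones contain the same generic point are equal. -/
theorem same_facet {L : Finset (Finset ℕ)} {P : ℕ → Fin n → ℝ} (f1 : S_FN1) (hF : IsFlag L)
    (hC : IsCompleteFan L P) {p : Fin n → ℝ}
    (hp : ∀ ρ ∈ L, ρ.card < n → p ∉ Submodule.span ℝ (P '' (ρ : Set ℕ)))
    {s s' : Fin n → ℕ} (hs : Function.Injective s) (hL : Finset.univ.image s ∈ L)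
    (hs' : Function.Injective s') (hL' : Finset.univ.image s' ∈ L) {c c' : Fin n → ℝ}
    (hc : ∀ i, 0 < c i) (hc' : ∀ i, 0 < c' i) (hpc : p = ∑ i, c i • P (s i))
    (hpc' : p = ∑ i, c' i • P (s' i)) : Finset.univ.image s = Finset.univ.image s' := by
  have h0 : (∅ : Finset ℕ) ∈ L := face_sub hF hL (Finset.empty_subset _)
  have key : ∀ (t : Fin n → ℕ) (d : Fin n → ℝ), Function.Injective t → (∀ i, 0 < d i) →
      Finset.univ.image t ∈ L → p = ∑ i, d i • P (t i) →
      Finset.univ.image t ∈ L ∧ (Finset.univ.image t).card = n ∧ ∅ ⊆ Finset.univ.image t ∧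
      ∃ c : ℕ → ℝ, ∑ v ∈ Finset.univ.image t, c v • P v = p ∧
        ∀ v ∈ Finset.univ.image t, v ∉ (∅ : Finset ℕ) → 0 < c v := by
    intro t d ht hd htL hpd
    refine ⟨htL, ?_, Finset.empty_subset _, fun v => if h : ∃ i, t i = v then d h.choose else 0,
      ?_, ?_⟩
    · rw [Finset.card_image_of_injective _ ht, Finset.card_univ, Fintype.card_fin]
    · rw [Finset.sum_image fun a _ b _ h => ht h, hpd]
      refine Finset.sum_congr rfl fun i _ => ?_
      have h : ∃ j, t j = t i := ⟨i, rfl⟩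
      show (if h : ∃ j, t j = t i then d h.choose else 0) • P (t i) = _
      rw [dif_pos h, ht h.choose_spec]
    · intro v hv _
      obtain ⟨i, _, rfl⟩ := Finset.mem_image.1 hv
      have h : ∃ j, t j = t i := ⟨i, rfl⟩
      show 0 < (if h : ∃ j, t j = t i then d h.choose else 0)
      rw [dif_pos h]
      exact hd _
  exact (f1 n L P hF hC p hp ∅ h0).unique (key s c hs hc hL hpc) (key s' c' hs' hc' hL' hpc')

theorem exists_perm {s s' : Fin n → ℕ} (hs : Function.Injective s)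
    (h : Finset.univ.image s = Finset.univ.image s') : ∃ π : Equiv.Perm (Fin n), s = s' ∘ π := by
  have h1 : ∀ i, ∃ j, s' j = s i := by
    intro i
    have h2 : s i ∈ Finset.univ.image s' := by
      rw [← h]
      exact Finset.mem_image_of_mem _ (Finset.mem_univ _)
    obtain ⟨j, _, hj⟩ := Finset.mem_image.1 h2
    exact ⟨j, hj⟩
  choose g hg using h1
  have hgi : Function.Injective g := fun a b hab => hs (by rw [← hg a, ← hg b, hab])
  refine ⟨Equiv.ofBijective g (Finite.injective_iff_bijective.1 hgi), ?_⟩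
  funext i
  exact (hg i).symm

theorem value {L : Finset (Finset ℕ)} {P : ℕ → Fin n → ℝ} (f1 : S_FN1) (f2 : S_FN2)
    (hF : IsFlag L) (hC : IsCompleteFan L P) {o : (Fin n → ℕ) → ℤ} (hO : IsSimplicialCycle L n o)
    {p : Fin n → ℝ} (hp : ∀ ρ ∈ L, ρ.card < n → p ∉ Submodule.span ℝ (P '' (ρ : Set ℕ)))
    {s : Fin n → ℕ} (hs : Function.Injective s) (hL : Finset.univ.image s ∈ L) {c : Fin n → ℝ}
    (hc : ∀ i, 0 < c i) (hpc : p = ∑ i, c i • P (s i)) :
    ((ch (verts L) o P).sum fun l a => a * D p l) =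
      (n.factorial : ℝ) * ((o s : ℝ) * (ofan L P s : ℝ)) := by
  rw [sum_ch]
  have hinj : Function.Injective (fun π : Equiv.Perm (Fin n) => s ∘ π) := by
    intro π π' h
    ext i
    have := congrFun h i
    rw [hs this]
  have hsub : Finset.univ.image (fun π : Equiv.Perm (Fin n) => s ∘ π) ⊆
      Fintype.piFinset (fun _ : Fin n => verts L) := by
    intro t ht
    obtain ⟨π, _, rfl⟩ := Finset.mem_image.1 ht
    rw [Fintype.mem_piFinset]
    intro i
    exact Finset.mem_biUnion.2 ⟨_, hL, Finset.mem_image_of_mem _ (Finset.mem_univ _)⟩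
  rw [← Finset.sum_subset hsub]
  · rw [Finset.sum_image fun a _ b _ h => hinj h]
    have hterm : ∀ π : Equiv.Perm (Fin n), (o (s ∘ π) : ℝ) * D p (li P (s ∘ π)) =
        (o s : ℝ) * (ofan L P s : ℝ) := by
      intro π
      set A : Matrix (Fin n) (Fin n) ℝ := fun i => P (s i) with hA
      have hA0 : A.det ≠ 0 := det_ne f2 hF hC hs hL
      have hAπ : (fun i => P ((s ∘ π) i)) = A.submatrix π id := rfl
      have hdet : (A.submatrix π id).det = ((Equiv.Perm.sign π : ℤ) : ℝ) * A.det :=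
        Matrix.det_permute π A
      have hsg : ((Equiv.Perm.sign π : ℤ) : ℝ) * ((Equiv.Perm.sign π : ℤ) : ℝ) = 1 := by
        rw [← Int.cast_mul, Int.units_coe_mul_self, Int.cast_one]
      have hdet0 : (A.submatrix π id).det ≠ 0 := by
        rw [hdet]
        refine mul_ne_zero (fun h => ?_) hA0
        rw [h, mul_zero] at hsg
        exact zero_ne_one hsg
      have hpπ : p = ∑ i, c (π i) • (A.submatrix π id) i := by
        rw [hpc]
        exact (Equiv.sum_comp π (fun i => c i • P (s i))).symm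
      have hD : D p (li P (s ∘ π)) =
          ((SignType.sign (A.submatrix π id).det : SignType) : ℝ) := by
        rw [D, mat_li, hAπ, if_pos]
        intro i
        rw [det_upd hpπ i]
        have : 0 < c (π i) * ((A.submatrix π id).det * (A.submatrix π id).det) :=
          mul_pos (hc _) (mul_self_pos.2 hdet0)
        nlinarith
      rw [hD, hdet, sign_mul, o_perm hO.1, ofan, if_pos ⟨hs, hL⟩]
      have hsg2 : ((SignType.sign ((Equiv.Perm.sign π : ℤ) : ℝ) : SignType) : ℝ) =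
          ((Equiv.Perm.sign π : ℤ) : ℝ) := by
        rcases Int.units_eq_one_or (Equiv.Perm.sign π) with h | h <;> rw [h] <;> simp
      rw [SignType.coe_mul, hsg2]
      have hcast : (((SignType.sign A.det : SignType) : ℤ) : ℝ) =
          ((SignType.sign A.det : SignType) : ℝ) := by
        cases SignType.sign A.det <;> simp
      rw [hcast]
      push_cast
      linear_combination ((o s : ℝ) * ((SignType.sign A.det : SignType) : ℝ)) * hsg
    rw [Finset.sum_congr rfl fun π _ => hterm π, Finset.sum_const, Finset.card_univ,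
      Fintype.card_perm, Fintype.card_fin, nsmul_eq_mul]
  · intro t _ ht
    by_cases hot : o t = 0
    · rw [hot, Int.cast_zero, zero_mul]
    · have htL := hO.2.1 t hot
      have hti := MP8a95ee.E.inj_of_ne_zero hO hot
      have hA0 := det_ne f2 hF hC hti htL
      by_cases hD : D p (li P t) = 0
      · rw [hD, mul_zero]
      · exfalso
        obtain ⟨d, hd⟩ := exists_coord hA0 p
        have hpos : ∀ i, 0 < d i := by
          intro i
          rw [D, mat_li] at hD
          by_contra hneg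
          apply hD
          rw [if_neg]
          intro hall
          have h2 := hall i
          rw [det_upd hd i] at h2
          have h3 : 0 < (Matrix.det fun i => P (t i)) * (Matrix.det fun i => P (t i)) :=
            mul_self_pos.2 hA0
          nlinarith
        obtain ⟨π, hπ⟩ := exists_perm hti (same_facet f1 hF hC hp hti htL hs hL hpos hc hd hpc)
        exact ht (Finset.mem_image.2 ⟨π, Finset.mem_univ _, hπ.symm⟩)

theorem exists_gen {L : Finset (Finset ℕ)} {P : ℕ → Fin n → ℝ} (f4 : S_FN4) (hn : 0 < n)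
    {s : Fin n → ℕ} (hA : Matrix.det (fun i => P (s i)) ≠ 0) :
    ∃ p : Fin n → ℝ, (∀ ρ ∈ L, ρ.card < n → p ∉ Submodule.span ℝ (P '' (ρ : Set ℕ))) ∧
      ∃ c : Fin n → ℝ, (∀ i, 0 < c i) ∧ p = ∑ i, c i • P (s i) := by
  obtain ⟨p0, hp0⟩ := f4 n L P hn
  obtain ⟨d, hd⟩ := exists_coord hA p0
  set a : Fin n → ℝ := ∑ i, P (s i) with ha
  have hfin : {M : ℝ | ∃ ρ ∈ L, ρ.card < n ∧
      M • a + p0 ∈ Submodule.span ℝ (P '' (ρ : Set ℕ))}.Finite := by
    have h1 : {M : ℝ | ∃ ρ ∈ L, ρ.card < n ∧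
        M • a + p0 ∈ Submodule.span ℝ (P '' (ρ : Set ℕ))} ⊆
        ⋃ ρ ∈ (L : Set (Finset ℕ)), {M : ℝ | ρ.card < n ∧
          M • a + p0 ∈ Submodule.span ℝ (P '' (ρ : Set ℕ))} := by
      rintro M ⟨ρ, hρ, h2⟩
      exact Set.mem_biUnion (Finset.mem_coe.2 hρ) h2
    refine Set.Finite.subset (Set.Finite.biUnion (Finset.finite_toSet L) fun ρ hρ => ?_) h1
    refine Set.Subsingleton.finite ?_
    rintro M ⟨h2, h3⟩ M' ⟨_, h4⟩
    by_contra hne
    have h5 := Submodule.sub_mem _ h3 h4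
    have h6 : M • a + p0 - (M' • a + p0) = (M - M') • a := by
      rw [sub_smul]
      abel
    rw [h6] at h5
    have h7 : a ∈ Submodule.span ℝ (P '' (ρ : Set ℕ)) :=
      (Submodule.smul_mem_iff _ (sub_ne_zero.2 hne)).1 h5
    have h8 := Submodule.sub_mem _ h3 (Submodule.smul_mem _ M h7)
    rw [add_sub_cancel_left] at h8
    exact hp0 ρ (Finset.mem_coe.1 hρ) h2 h8
  obtain ⟨M, hM, hMb⟩ := (Set.Ioi_infinite (∑ i, |d i|)).exists_notMem_finite hfin
  refine ⟨M • a + p0, fun ρ hρ hc hmem => hMb ⟨ρ, hρ, hc, hmem⟩, fun i => M + d i,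
    fun i => ?_, ?_⟩
  · have h1 : |d i| ≤ ∑ j, |d j| :=
      Finset.single_le_sum (fun j _ => abs_nonneg (d j)) (Finset.mem_univ i)
    have h2 : ∑ j, |d j| < M := hM
    have h3 := neg_abs_le (d i)
    linarith
  · conv_lhs => rw [hd, ha, Finset.smul_sum, ← Finset.sum_add_distrib]
    refine Finset.sum_congr rfl fun i _ => ?_
    rw [add_smul]

theorem zc {L : Finset (Finset ℕ)} {P : ℕ → Fin n → ℝ} (h1 : S_LC1) (f2 : S_FN2)
    (hF : IsFlag L) (hC : IsCompleteFan L P) {o : (Fin n → ℕ) → ℤ}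
    (hO : IsSimplicialCycle L n o) : Zc (ch (verts L) o P) := by
  refine ⟨fun l hl => ?_, bd_ch h1 P hO.2.2⟩
  obtain ⟨s, hs, rfl⟩ := supp_ch hl
  exact ⟨length_li P s, posL (det_ne f2 hF hC (MP8a95ee.E.inj_of_ne_zero hO hs) (hO.2.1 s hs))⟩

end FN8

open FN8 in
theorem prfFN8 (h1 : S_LC1) (h3 : S_DG3) (_f0 : S_FN0) (f1 : S_FN1) (f2 : S_FN2) (f4 : S_FN4) :
    S_FN8 := by
  intro n L P hn hF hC o hO
  have hsq : ∀ s : Fin n → ℕ, Function.Injective s → Finset.univ.image s ∈ L →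
      ofan L P s * ofan L P s = 1 := by
    intro s hs hL
    have h := (f2 n L P hF hC).2 s hs hL
    rw [← abs_mul_abs_self, h, one_mul]
  have hconst : ∀ s s' : Fin n → ℕ, Function.Injective s → Finset.univ.image s ∈ L →
      Function.Injective s' → Finset.univ.image s' ∈ L →
      o s * ofan L P s = o s' * ofan L P s' := by
    intro s s' hs hL hs' hL'
    obtain ⟨p, hp, c, hc, hpc⟩ := exists_gen (L := L) f4 hn (det_ne f2 hF hC hs hL)
    obtain ⟨p', hp', c', hc', hpc'⟩ := exists_gen (L := L) f4 hn (det_ne f2 hF hC hs' hL')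
    have e := (h3 n ℝ hn).1 (ch (verts L) o P) (zc h1 f2 hF hC hO) p p'
      (fun l hl => by
        obtain ⟨t, ht, rfl⟩ := supp_ch hl
        exact gen_li hF hp (hO.2.1 t ht))
      (fun l hl => by
        obtain ⟨t, ht, rfl⟩ := supp_ch hl
        exact gen_li hF hp' (hO.2.1 t ht))
    rw [value f1 f2 hF hC hO hp hs hL hc hpc, value f1 f2 hF hC hO hp' hs' hL' hc' hpc'] at e
    have hfac : (n.factorial : ℝ) ≠ 0 := Nat.cast_ne_zero.2 (Nat.factorial_ne_zero n)
    have e2 := mul_left_cancel₀ hfac e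
    exact_mod_cast e2
  by_cases hex : ∃ s : Fin n → ℕ, Function.Injective s ∧ Finset.univ.image s ∈ L
  · obtain ⟨s₀, hs₀, hL₀⟩ := hex
    refine ⟨o s₀ * ofan L P s₀, fun s => ?_⟩
    by_cases hs : Function.Injective s ∧ Finset.univ.image s ∈ L
    · rw [← hconst s s₀ hs.1 hs.2 hs₀ hL₀, mul_assoc, hsq s hs.1 hs.2, mul_one]
    · have h4 : o s = 0 := by
        by_contra h5
        exact hs ⟨MP8a95ee.E.inj_of_ne_zero hO h5, hO.2.1 s h5⟩
      have h5 : ofan L P s = 0 := by rw [ofan, if_neg hs]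
      rw [h4, h5, mul_zero]
  · refine ⟨0, fun s => ?_⟩
    rw [zero_mul]
    by_contra h5
    exact hex ⟨s, MP8a95ee.E.inj_of_ne_zero hO h5, hO.2.1 s h5⟩

end MP8a95ee.Eu
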