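import Pool.Agent.Work.MP_8a95ee_gt.Eu.Stmts2

/-!
# SV2: the value as a sum over all facets
-/

namespace MP8a95ee.Eu

open Classical

namespace SV2

/-! ### General facts -/

section

variable {R : Type} [CommRing R] {α β : Type}

theorem bd_single (l : List α) (r : R) : bd R (Finsupp.single l r) = r • faces R l := by
  simp [bd, Finsupp.linearCombination_single]

theorem mapm_single (f : α → β) (l : List α) (r : R) :
    mapm R f (Finsupp.single l r) = Finsupp.single (l.map f) r := by
  simp [mapm, Finsupp.lmapDomain_apply, Finsupp.mapDomain_single]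

end

theorem sumV_sum {M ι : Type} [AddCommMonoid M] (V : Finset ℕ) (t : Finset ι) :
    ∀ (j : ℕ) (f : ι → List ℕ → M),
      sumV V j (fun s => ∑ i ∈ t, f i s) = ∑ i ∈ t, sumV V j (f i) := by
  intro j
  induction j with
  | zero => intro f; rfl
  | succ j ih =>
    intro f
    simp only [sumV]
    rw [Finset.sum_comm]
    exact Finset.sum_congr rfl fun v _ => ih (fun i s => f i (v :: s))

theorem Yc_sum {H ι : Type} [Group H] (n : ℕ) (t : Finset ι) (q : ι → List ℕ → ℝ) (r : ℕ → H)
    (V : Finset ℕ) :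
    Yc n (fun s => ∑ i ∈ t, q i s) r V = ∑ i ∈ t, Yc n (q i) r V := by
  unfold Yc
  rw [← sumV_sum]
  congr 1
  funext s
  rw [Finset.sum_smul]

theorem toFinset_eq {n : ℕ} (s : List ℕ) (hs : s.length = n) :
    s.toFinset = Finset.univ.image (fun i : Fin n => s.getD i 0) := by
  ext x
  rw [List.mem_toFinset, Finset.mem_image, List.mem_iff_getElem]
  constructor
  · rintro ⟨i, hi, rfl⟩
    exact ⟨⟨i, hs ▸ hi⟩, Finset.mem_univ _, List.getD_eq_getElem _ _ hi⟩
  · rintro ⟨i, _, rfl⟩
    have hi : (i : ℕ) < s.length := hs ▸ i.2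
    exact ⟨i, hi, (List.getD_eq_getElem _ _ hi).symm⟩

theorem inj_of_ne_zero {L : Finset (Finset ℕ)} {n : ℕ} {o : (Fin n → ℕ) → ℤ}
    (ho : IsSimplicialCycle L n o) {s : Fin n → ℕ} (hs : o s ≠ 0) : Function.Injective s := by
  intro i j hij
  by_contra hne
  have h1 := ho.1 s i j hne
  have h2 : s ∘ Equiv.swap i j = s := by
    funext k
    simp only [Function.comp_apply]
    rcases eq_or_ne k i with rfl | hki
    · rw [Equiv.swap_apply_left, hij]
    · rcases eq_or_ne k j with rfl | hkj
      · rw [Equiv.swap_apply_right, hij]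
      · rw [Equiv.swap_apply_of_ne_of_ne hki hkj]
  rw [h2] at h1
  omega

theorem getD_swap (s₁ : List ℕ) (a b : ℕ) (s₂ : List ℕ) (k : ℕ) :
    (s₁ ++ a :: b :: s₂).getD k 0 =
      (s₁ ++ b :: a :: s₂).getD (if k = s₁.length then s₁.length + 1 else
        if k = s₁.length + 1 then s₁.length else k) 0 := by
  split_ifs with h1 h2
  · subst h1
    rw [List.getD_append_right _ _ _ _ le_rfl,
      List.getD_append_right _ _ _ _ (Nat.le_add_right s₁.length 1),
      Nat.sub_self, Nat.add_sub_cancel_left]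
    rfl
  · subst h2
    rw [List.getD_append_right _ _ _ _ le_rfl,
      List.getD_append_right _ _ _ _ (Nat.le_add_right s₁.length 1),
      Nat.sub_self, Nat.add_sub_cancel_left]
    rfl
  · rcases lt_or_ge k s₁.length with h3 | h3
    · rw [List.getD_append _ _ _ _ h3, List.getD_append _ _ _ _ h3]
    · rw [List.getD_append_right _ _ _ _ h3, List.getD_append_right _ _ _ _ h3]
      obtain ⟨m, hm⟩ : ∃ m, k - s₁.length = m + 2 := ⟨k - s₁.length - 2, by omega⟩
      rw [hm]
      rfl

theorem oL_alt {L : Finset (Finset ℕ)} {n : ℕ} {o : (Fin n → ℕ) → ℤ}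
    (ho : IsSimplicialCycle L n o) (s₁ : List ℕ) (a b : ℕ) (s₂ : List ℕ) :
    oL o (s₁ ++ a :: b :: s₂) = - oL o (s₁ ++ b :: a :: s₂) := by
  unfold oL
  have hl : (s₁ ++ a :: b :: s₂).length = (s₁ ++ b :: a :: s₂).length := by simp
  rw [hl]
  split_ifs with h
  · have hn : s₁.length + 2 + s₂.length = n := by
      rw [← h]; simp only [List.length_append, List.length_cons]; omega
    have h1 := ho.1 (fun i => (s₁ ++ b :: a :: s₂).getD i 0) ⟨s₁.length, by omega⟩
      ⟨s₁.length + 1, by omega⟩ (by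
        intro he
        have := congrArg Fin.val he
        simp at this)
    have h2 : (fun i : Fin n => (s₁ ++ a :: b :: s₂).getD i 0) =
        (fun i : Fin n => (s₁ ++ b :: a :: s₂).getD i 0) ∘
          Equiv.swap ⟨s₁.length, by omega⟩ ⟨s₁.length + 1, by omega⟩ := by
      funext k
      rw [getD_swap, Function.comp_apply]
      congr 1
      rw [Equiv.swap_apply_def]
      simp only [Fin.ext_iff]
      split_ifs <;> rfl
    rw [h2, h1]
    push_cast
    ring
  · simp

/-- The part of `oL o` that belongs to the facet `σ`. -/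
noncomputable def qs {n : ℕ} (o : (Fin n → ℕ) → ℤ) (σ : Finset ℕ) (s : List ℕ) : ℝ :=
  if s.toFinset = σ ∧ s.length = n then oL o s else 0

theorem qs_alt {L : Finset (Finset ℕ)} {n : ℕ} {o : (Fin n → ℕ) → ℤ}
    (ho : IsSimplicialCycle L n o) (σ : Finset ℕ) (s₁ : List ℕ) (a b : ℕ) (s₂ : List ℕ) :
    qs o σ (s₁ ++ a :: b :: s₂) = - qs o σ (s₁ ++ b :: a :: s₂) := by
  unfold qs
  have hp : (s₁ ++ a :: b :: s₂).Perm (s₁ ++ b :: a :: s₂) :=
    List.Perm.append_left _ (List.Perm.swap _ _ _)
  have h1 : (s₁ ++ a :: b :: s₂).toFinset = (s₁ ++ b :: a :: s₂).toFinset :=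
    List.toFinset_eq_of_perm _ _ hp
  rw [h1, hp.length_eq]
  split_ifs with h
  · exact oL_alt ho s₁ a b s₂
  · simp

theorem qs_ne {n : ℕ} {o : (Fin n → ℕ) → ℤ} {σ : Finset ℕ} {s : List ℕ} (h : qs o σ s ≠ 0) :
    s.toFinset = σ ∧ s.length = n := by
  unfold qs at h
  by_contra h'
  rw [if_neg h'] at h
  exact h rfl

theorem oL_eq_sum {L : Finset (Finset ℕ)} {n : ℕ} {o : (Fin n → ℕ) → ℤ}
    (ho : IsSimplicialCycle L n o) (s : List ℕ) :
    oL o s = ∑ σ ∈ L.filter (fun σ => σ.card = n), qs o σ s := by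
  by_cases h0 : oL o s = 0
  · rw [h0, Finset.sum_eq_zero]
    intro σ _
    unfold qs
    rw [h0]
    simp
  · have h1 : s.length = n := by
      by_contra h'
      exact h0 (if_neg h')
    have h2 : o (fun i => s.getD i 0) ≠ 0 := by
      intro h'
      apply h0
      unfold oL
      rw [if_pos h1, h', Int.cast_zero]
    have h3 := toFinset_eq s h1
    have h4 : s.toFinset ∈ L := h3 ▸ ho.2.1 _ h2
    have h5 : s.toFinset.card = n := by
      rw [h3, Finset.card_image_of_injective _ (inj_of_ne_zero ho h2), Finset.card_univ,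
        Fintype.card_fin]
    rw [Finset.sum_eq_single s.toFinset]
    · unfold qs
      rw [if_pos ⟨rfl, h1⟩]
    · intro σ _ hσ
      unfold qs
      rw [if_neg fun h => hσ h.1.symm]
    · intro h
      exact absurd (Finset.mem_filter.2 ⟨h4, h5⟩) h

/-! ### The group elements of a datum -/

section Space

variable {n : ℕ} {F : Type} [NormedAddCommGroup F] [InnerProductSpace ℝ F]

theorem r_comm {L : Finset (Finset ℕ)} (Dt : Dat n F L) (u v : ℕ) (h : ({u, v} : Finset ℕ) ∈ L) :
    Dt.r u * Dt.r v = Dt.r v * Dt.r u := by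
  rcases eq_or_ne u v with rfl | huv
  · rfl
  have hu : u ∈ verts L := Finset.mem_biUnion.2 ⟨_, h, by simp⟩
  have hv : v ∈ verts L := Finset.mem_biUnion.2 ⟨_, h, by simp⟩
  have hu1 := Dt.unit u hu
  have hv1 := Dt.unit v hv
  have ho := Dt.orth u v huv h
  have hu2 : 0 < B (Dt.e u) (Dt.e u) := by rw [hu1]; exact one_pos
  have hv2 : 0 < B (Dt.e v) (Dt.e v) := by rw [hv1]; exact one_pos
  have ho' : B (Dt.e v) (Dt.e u) = 0 := by rw [B_comm, ho]
  unfold Dat.r gen
  rw [dif_pos hu2, dif_pos hv2]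
  apply Subtype.ext
  apply Prod.ext
  · change refl (Dt.e u) * refl (Dt.e v) = refl (Dt.e v) * refl (Dt.e u)
    apply LinearEquiv.ext
    intro x
    rw [LinearEquiv.mul_apply, LinearEquiv.mul_apply, refl_apply, refl_apply, refl_apply,
      refl_apply, B_sub_left, B_sub_left, B_smul_left, B_smul_left, ho, ho']
    simp only [mul_zero, sub_zero]
    abel
  · rfl

theorem lin_thc {L : Finset (Finset ℕ)} (Dt : Dat n F L) (z : List (G n F × Finset ℕ) →₀ ℝ) :
    lin ℝ (thc Dt) z = mapm ℝ (fun a => a.1.1.1 (Dt.x a.2)) z := by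
  induction z using Finsupp.induction_linear with
  | zero => simp
  | add f g hf hg => rw [map_add, map_add, hf, hg]
  | single l r =>
    rw [mapm_single]
    simp [lin, Finsupp.linearCombination_single, thc, th]

theorem zc_of {L : Finset (Finset ℕ)} (h1 : S_LC1) (hk : S_H1) (hf : IsFlag L) (Dt : Dat n F L)
    (y : List (G n F × Finset ℕ) →₀ ℝ) (hy : ∀ l ∈ y.support, l.length = n ∧ KL Dt l)
    (hb : bd ℝ y = 0) : Zc (lin ℝ (thc Dt) y) := by
  constructor
  · intro l hl
    rw [lin_thc] at hl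
    unfold mapm at hl
    rw [Finsupp.lmapDomain_apply] at hl
    have h2 := Finsupp.mapDomain_support hl
    rw [Finset.mem_image] at h2
    obtain ⟨l', hl', rfl⟩ := h2
    obtain ⟨h3, h4⟩ := hy l' hl'
    exact ⟨by rw [List.length_map, h3], hk n F L Dt hf l' h4⟩
  · rw [lin_thc, (h1 ℝ _ _).2.2.1, hb, map_zero]

theorem zc_zero : Zc (0 : List (E n F) →₀ ℝ) := by
  refine ⟨fun l hl => ?_, map_zero _⟩
  simp at hl

theorem zc_add {z z' : List (E n F) →₀ ℝ} (h : Zc z) (h' : Zc z') : Zc (z + z') := by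
  refine ⟨fun l hl => ?_, by rw [map_add, h.2, h'.2, add_zero]⟩
  rcases Finset.mem_union.1 (Finsupp.support_add hl) with h1 | h1
  · exact h.1 l h1
  · exact h'.1 l h1

theorem zc_sum {ι : Type} (s : Finset ι) (f : ι → (List (E n F) →₀ ℝ)) (h : ∀ i ∈ s, Zc (f i)) :
    Zc (∑ i ∈ s, f i) := by
  induction s using Finset.induction_on with
  | empty => rw [Finset.sum_empty]; exact zc_zero
  | insert a s ha ih =>
    rw [Finset.sum_insert ha]
    exact zc_add (h a (Finset.mem_insert_self a s))
      (ih fun i hi => h i (Finset.mem_insert_of_mem hi))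

theorem deg_sum (K : DegPkg n F) {ι : Type} (s : Finset ι) (f : ι → (List (E n F) →₀ ℝ))
    (h : ∀ i ∈ s, Zc (f i)) : K.deg (∑ i ∈ s, f i) = ∑ i ∈ s, K.deg (f i) := by
  induction s using Finset.induction_on with
  | empty =>
    rw [Finset.sum_empty, Finset.sum_empty]
    have := K.smul 0 0 zc_zero
    rwa [zero_smul, zero_mul] at this
  | insert a s ha ih =>
    rw [Finset.sum_insert ha, Finset.sum_insert ha,
      K.add _ _ (h a (Finset.mem_insert_self a s))
        (zc_sum s f fun i hi => h i (Finset.mem_insert_of_mem hi)),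
      ih fun i hi => h i (Finset.mem_insert_of_mem hi)]

end Space

/-! ### The sum over tuples -/

/-- The summand of `Sval`. -/
noncomputable def psi {n : ℕ} (o : (Fin n → ℕ) → ℤ) (P : ℕ → Fin n → ℝ) (p : Fin n → ℝ)
    (s : Fin n → ℕ) : ℝ :=
  (o s : ℝ) * ((SignType.sign (Matrix.det (fun i => P (s i))) : SignType) : ℝ) *
    ∏ i : Fin n, ((SignType.sign (Matrix.det (fun i => P (s i)) *
      Matrix.det (Matrix.updateRow (fun i => P (s i)) i p)) : SignType) : ℝ)

theorem o_perm {L : Finset (Finset ℕ)} {n : ℕ} {o : (Fin n → ℕ) → ℤ}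
    (ho : IsSimplicialCycle L n o) (π : Equiv.Perm (Fin n)) (s : Fin n → ℕ) :
    o (s ∘ π) = (Equiv.Perm.sign π : ℤ) * o s := by
  induction π using Equiv.Perm.swap_induction_on generalizing s with
  | one => simp
  | swap_mul f x y hxy ih =>
    have e : s ∘ (Equiv.swap x y * f : Equiv.Perm (Fin n)) = (s ∘ Equiv.swap x y) ∘ f := rfl
    rw [e, ih, ho.1 s x y hxy, Equiv.Perm.sign_mul, Equiv.Perm.sign_swap hxy]
    simp

theorem det_perm {n : ℕ} (M : Matrix (Fin n) (Fin n) ℝ) (π : Equiv.Perm (Fin n)) :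
    Matrix.det (fun i => M (π i)) = ((Equiv.Perm.sign π : ℤ) : ℝ) * Matrix.det M := by
  have := Matrix.det_permute π M
  rw [← this]
  rfl

theorem sq_sign {n : ℕ} (π : Equiv.Perm (Fin n)) :
    ((Equiv.Perm.sign π : ℤ) : ℝ) * ((Equiv.Perm.sign π : ℤ) : ℝ) = 1 := by
  rcases Int.units_eq_one_or (Equiv.Perm.sign π) with h | h <;> rw [h] <;> simp

theorem sign_mul_sign {n : ℕ} (π : Equiv.Perm (Fin n)) (x : ℝ) :
    ((SignType.sign (((Equiv.Perm.sign π : ℤ) : ℝ) * x) : SignType) : ℝ) =
      ((Equiv.Perm.sign π : ℤ) : ℝ) * ((SignType.sign x : SignType) : ℝ) := by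
  rcases Int.units_eq_one_or (Equiv.Perm.sign π) with h | h <;> rw [h]
  · simp
  · have : (((-1 : ℤˣ) : ℤ) : ℝ) * x = -x := by simp
    rw [this, Left.sign_neg]
    simp

theorem psi_perm {L : Finset (Finset ℕ)} {n : ℕ} {o : (Fin n → ℕ) → ℤ}
    (ho : IsSimplicialCycle L n o) (P : ℕ → Fin n → ℝ) (p : Fin n → ℝ) (s : Fin n → ℕ)
    (π : Equiv.Perm (Fin n)) : psi o P p (s ∘ π) = psi o P p s := by
  unfold psi
  have e1 : Matrix.det (fun i => P ((s ∘ π) i)) =
      ((Equiv.Perm.sign π : ℤ) : ℝ) * Matrix.det (fun i => P (s i)) :=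
    det_perm (fun i => P (s i)) π
  have e2 : ∀ i, Matrix.det (Matrix.updateRow (fun i => P ((s ∘ π) i)) i p) =
      ((Equiv.Perm.sign π : ℤ) : ℝ) *
        Matrix.det (Matrix.updateRow (fun i => P (s i)) (π i) p) := by
    intro i
    rw [← det_perm]
    congr 1
    funext j
    change Function.update (fun i => P (s (π i))) i p j =
      Function.update (fun i => P (s i)) (π i) p (π j)
    simp only [Function.update_apply, π.injective.eq_iff]
  have e3 : ∀ i, Matrix.det (fun i => P ((s ∘ π) i)) *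
      Matrix.det (Matrix.updateRow (fun i => P ((s ∘ π) i)) i p) =
      Matrix.det (fun i => P (s i)) * Matrix.det (Matrix.updateRow (fun i => P (s i)) (π i) p) := by
    intro i
    rw [e1, e2]
    have := sq_sign π
    linear_combination (Matrix.det (fun i => P (s i)) *
      Matrix.det (Matrix.updateRow (fun i => P (s i)) (π i) p)) * this
  rw [Finset.prod_congr rfl fun i _ => by rw [e3 i], e1, sign_mul_sign, o_perm ho π s]
  rw [Equiv.prod_comp π (fun i => ((SignType.sign (Matrix.det (fun i => P (s i)) *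
      Matrix.det (Matrix.updateRow (fun i => P (s i)) i p)) : SignType) : ℝ))]
  have := sq_sign π
  push_cast
  linear_combination (o s : ℝ) * ((SignType.sign (Matrix.det (fun i => P (s i))) : SignType) : ℝ) *
    (∏ i : Fin n, ((SignType.sign (Matrix.det (fun i => P (s i)) *
      Matrix.det (Matrix.updateRow (fun i => P (s i)) i p)) : SignType) : ℝ)) * this

/-- The increasing enumeration of a facet. -/
def enum {n : ℕ} (σ : Finset ℕ) (i : Fin n) : ℕ := (σ.sort (· ≤ ·)).getD i 0

theorem enum_inj {n : ℕ} {σ : Finset ℕ} (hσ : σ.card = n) :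
    Function.Injective (enum σ : Fin n → ℕ) := by
  intro i j hij
  unfold enum at hij
  have hl : (σ.sort (· ≤ ·)).length = n := by rw [Finset.length_sort, hσ]
  have hi : (i : ℕ) < (σ.sort (· ≤ ·)).length := hl ▸ i.2
  have hj : (j : ℕ) < (σ.sort (· ≤ ·)).length := hl ▸ j.2
  rw [List.getD_eq_getElem _ _ hi, List.getD_eq_getElem _ _ hj] at hij
  exact Fin.ext ((Finset.sort_nodup σ (· ≤ ·)).getElem_inj_iff.1 hij)

theorem enum_image {n : ℕ} {σ : Finset ℕ} (hσ : σ.card = n) :
    Finset.univ.image (enum σ : Fin n → ℕ) = σ := by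
  have hl : (σ.sort (· ≤ ·)).length = n := by rw [Finset.length_sort, hσ]
  have := toFinset_eq (σ.sort (· ≤ ·)) hl
  rw [Finset.sort_toFinset] at this
  exact this.symm

theorem tuples_eq {n : ℕ} {σ V : Finset ℕ} (hσ : σ.card = n) (hV : σ ⊆ V) :
    (Fintype.piFinset (fun _ : Fin n => V)).filter (fun s => Finset.univ.image s = σ) =
      Finset.univ.image (fun π : Equiv.Perm (Fin n) => (enum σ : Fin n → ℕ) ∘ π) := by
  ext s
  rw [Finset.mem_filter, Finset.mem_image, Fintype.mem_piFinset]
  constructor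
  · rintro ⟨_, h⟩
    have h1 : ∀ i, ∃ j : Fin n, enum σ j = s i := by
      intro i
      have : s i ∈ Finset.univ.image (enum σ : Fin n → ℕ) := by
        rw [enum_image hσ, ← h]
        exact Finset.mem_image_of_mem _ (Finset.mem_univ i)
      obtain ⟨j, _, hj⟩ := Finset.mem_image.1 this
      exact ⟨j, hj⟩
    choose f hf using h1
    have hs : Function.Injective s := by
      have hc : (Finset.univ.image s).card = (Finset.univ : Finset (Fin n)).card := by
        rw [h, hσ, Finset.card_univ, Fintype.card_fin]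
      have h2 := Finset.card_image_iff.1 hc
      intro a b hab
      exact h2 (Finset.mem_coe.2 (Finset.mem_univ a)) (Finset.mem_coe.2 (Finset.mem_univ b)) hab
    have hfi : Function.Injective f := by
      intro a b hab
      apply hs
      rw [← hf a, ← hf b, hab]
    refine ⟨Equiv.ofBijective f (Finite.injective_iff_bijective.1 hfi), Finset.mem_univ _, ?_⟩
    funext i
    exact hf i
  · rintro ⟨π, _, rfl⟩
    constructor
    · intro i
      apply hV
      have h := Finset.mem_image_of_mem (enum σ : Fin n → ℕ) (Finset.mem_univ (π i))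
      rw [enum_image hσ] at h
      exact h
    · rw [← Finset.image_image]
      have : (Finset.univ : Finset (Fin n)).image π = Finset.univ :=
        Finset.image_univ_of_surjective π.surjective
      rw [this, enum_image hσ]

theorem sum_eq {L : Finset (Finset ℕ)} {n : ℕ} {o : (Fin n → ℕ) → ℤ}
    (ho : IsSimplicialCycle L n o) (P : ℕ → Fin n → ℝ) (p : Fin n → ℝ) :
    Sval (verts L) o P p =
      ∑ σ ∈ L.filter (fun σ => σ.card = n), (n.factorial : ℝ) * psi o P p (enum σ) := by
  have h1 : Sval (verts L) o P p =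
      ∑ s ∈ Fintype.piFinset (fun _ : Fin n => verts L), psi o P p s := rfl
  have h2 : ∀ s ∈ Fintype.piFinset (fun _ : Fin n => verts L), psi o P p s ≠ 0 →
      Finset.univ.image s ∈ L.filter (fun σ => σ.card = n) := by
    intro s _ hs
    have h3 : o s ≠ 0 := by
      intro h
      apply hs
      unfold psi
      rw [h]
      simp
    rw [Finset.mem_filter]
    refine ⟨ho.2.1 s h3, ?_⟩
    rw [Finset.card_image_of_injective _ (inj_of_ne_zero ho h3), Finset.card_univ,
      Fintype.card_fin]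
  rw [h1, ← Finset.sum_filter_of_ne h2,
    ← Finset.sum_fiberwise_of_maps_to (t := L.filter (fun σ => σ.card = n))
      (g := fun s => Finset.univ.image s) (fun s hs => (Finset.mem_filter.1 hs).2)]
  refine Finset.sum_congr rfl fun σ hσ => ?_
  have hσ' := Finset.mem_filter.1 hσ
  rw [Finset.filter_filter]
  have h4 : (Fintype.piFinset (fun _ : Fin n => verts L)).filter
      (fun s => Finset.univ.image s ∈ L.filter (fun σ => σ.card = n) ∧ Finset.univ.image s = σ) =
      (Fintype.piFinset (fun _ : Fin n => verts L)).filter (fun s => Finset.univ.image s = σ) := by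
    apply Finset.filter_congr
    intro s _
    constructor
    · exact fun h => h.2
    · intro h
      exact ⟨h ▸ hσ, h⟩
  have hV : σ ⊆ verts L := Finset.subset_biUnion_of_mem id hσ'.1
  rw [h4, tuples_eq hσ'.2 hV, Finset.sum_image]
  · rw [Finset.sum_congr rfl fun π _ => psi_perm ho P p (enum σ) π, Finset.sum_const,
      Finset.card_univ, Fintype.card_perm, Fintype.card_fin, nsmul_eq_mul]
  · intro π _ π' _ h
    apply Equiv.ext
    intro i
    exact enum_inj hσ'.2 (congrFun h i)

/-- The zero family. -/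
noncomputable def triv (n : ℕ) (L : Finset (Finset ℕ)) : Dual n L 0 where
  c _ := 0
  top s _ := by
    have : oL (0 : (Fin n → ℕ) → ℤ) s = 0 := by unfold oL; simp
    rw [this, zero_smul]
  alt _ _ _ _ := by rw [neg_zero]
  supp s l hl := by simp at hl
  bdy s _ := by rw [map_zero, Finset.sum_const_zero]
  aug s _ := Finsupp.sum_zero_index

end SV2

open SV2 in
theorem prfSV2 (h1 : S_LC1) (z6 : S_Z6) (h3 : S_H3) (hk : S_H1) (s1 : S_SV1) : S_SV2 := by
  intro n F _ _ L Dt K o hn hf ho
  set Fc := L.filter (fun σ => σ.card = n) with hFc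
  have e0 : (oL o : List ℕ → ℝ) = fun s => ∑ σ ∈ Fc, qs o σ s := funext fun s => oL_eq_sum ho s
  have hq : ∀ σ ∈ Fc, σ ∈ L ∧ σ.card = n := fun σ hσ => Finset.mem_filter.1 hσ
  have hzc : ∀ σ ∈ Fc, Zc (lin ℝ (thc Dt) (Yc n (qs o σ) Dt.r (verts L))) := by
    intro σ hσ
    obtain ⟨h4, h5⟩ := hq σ hσ
    refine zc_of h1 hk hf Dt _ ?_ ?_
    · intro l hl
      exact (h3 n F L Dt 0 (triv n L) hn hf).2 (qs o σ) (fun s hs => by
        rw [(qs_ne hs).1]; exact ⟨h4, h5⟩) l hl
    · exact (z6 n L (verts L) (qs o σ) (G n F) Dt.r hn hf (qs_alt ho σ)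
        (fun s hs => by rw [(qs_ne hs).1]; exact h4) (r_comm Dt)).2
  rw [e0, Yc_sum, map_sum, deg_sum K _ _ hzc, sum_eq ho, Finset.mul_sum, Finset.mul_sum]
  refine Finset.sum_congr rfl fun σ hσ => ?_
  obtain ⟨h4, h5⟩ := hq σ hσ
  rw [s1 n F L Dt K (qs o σ) σ hn hf h4 h5 (qs_alt ho σ) fun s hs => qs_ne hs]
  have h6 : qs o σ (σ.sort (· ≤ ·)) = (o (enum σ) : ℝ) := by
    unfold qs oL
    have hl : (σ.sort (· ≤ ·)).length = n := by rw [Finset.length_sort, h5]
    rw [if_pos ⟨Finset.sort_toFinset σ _, hl⟩, if_pos hl]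
    rfl
  rw [h6]
  unfold psi enum
  ring

end MP8a95ee.Eu
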