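import Pool.Agent.Work.MP_8a95ee_gt.Eu.Stmts2

/-!
# Orientations of fans: uniqueness
-/

namespace MP8a95ee

/-- `o` is an orientation cycle of `L` (of dimension `n - 1`): an integral simplicial cycle with
values `1` or `-1` on all ordered faces with `n` vertices. -/
def IsOrientation (L : Finset (Finset ℕ)) (n : ℕ) (o : (Fin n → ℕ) → ℤ) : Prop :=
  IsSimplicialCycle L n o ∧
    ∀ s : Fin n → ℕ, Function.Injective s → Finset.univ.image s ∈ L → |o s| = 1

namespace Eu

open Classical

/-- FN8: every cycle is a multiple of the orientation of the fan. -/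
def S_FN8 : Prop :=
  ∀ (n : ℕ) (L : Finset (Finset ℕ)) (P : ℕ → Fin n → ℝ), 0 < n → IsFlag L → IsCompleteFan L P →
    ∀ o : (Fin n → ℕ) → ℤ, IsSimplicialCycle L n o → ∃ k : ℤ, ∀ s, o s = k * ofan L P s

end Eu

end MP8a95ee
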