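import Pool.Agent.Work.MP_8a95ee_gt.Bd.B04
import Pool.Agent.Work.MP_8a95ee_gt.Eu.SV2
import Pool.Agent.Work.MP_8a95ee_gt.Bd.B03
import Pool.Agent.Work.MP_8a95ee_gt.Eu.FN5
import Pool.Agent.Work.MP_8a95ee_gt.Eu.FN7
import Pool.Agent.Work.MP_8a95ee_gt.Eu.FN8
import Pool.Agent.Work.MP_8a95ee_gt.Eu.Stmts3

/-!
# Assembly of the linear inequality
-/

namespace MP8a95ee

namespace Eu

theorem pfMA' : S_MA := pfMA (prfSV2 prfLC1 pfZ6 pfH3 pfH1 pfSV1)

theorem pfFN1 : S_FN1 := prfFN1 prfFN0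

theorem pfFN2 : S_FN2 := prfFN2 prfFN0 pfFN1 prfFN4

theorem pfFN3 : S_FN3 := prfFN3 prfFN0 pfFN1

theorem pfFN8 : S_FN8 := prfFN8 prfLC1 pfDG3 prfFN0 pfFN1 pfFN2 prfFN4

/-- The linear inequality for all orientations. -/
theorem linear_all (n : ℕ) (hn : 0 < n) :
    ∃ C : ℝ, 0 < C ∧ ∀ L : Finset (Finset ℕ), PosFan n L →
      (∃ o : (Fin n → ℕ) → ℤ, IsOrientation L n o) ∧
      ∀ o : (Fin n → ℕ) → ℤ, IsOrientation L n o →
        ∀ (X : Type) [TopologicalSpace X] (f : C(X, RZ L)) (lam : ℝ) (z : SChain X n)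
          (w : SChain (RZ L) (n + 1)), push f z = lam • momentCycle L n o + MP8a95ee.bd w →
          |lam| * 2 ^ n * |(eulerChar L : ℝ)| ≤ C * l1 z := by
  obtain ⟨C, hC, hma⟩ := pfMA' n hn
  refine ⟨C / n.factorial, by positivity, ?_⟩
  rintro L ⟨hf, P, N, hP, hN⟩
  obtain ⟨ho, ho1⟩ := pfFN2 n L P hf hP
  refine ⟨⟨ofan L P, ho, ho1⟩, ?_⟩
  rintro o ⟨hoc, hoa⟩ X _ f lam z w hz
  obtain ⟨p, hp⟩ := prfFN4 n L P hn
  obtain ⟨k, hk⟩ := pfFN8 n L P hn hf hP o hoc
  have h1 := hma L o P N p hf hoc hN hp X f lam z w hz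
  have h2 := pfFN3 n L P hf hP p hp
  have hfac : (0 : ℝ) < n.factorial := by positivity
  have hS : Sval (verts L) o P p = k * Sval (verts L) (ofan L P) P p := by
    unfold Sval
    rw [Finset.mul_sum]
    refine Finset.sum_congr rfl fun s _ => ?_
    rw [hk s]
    push_cast
    ring
  have hk1 : |(k : ℝ)| = 1 := by
    obtain ⟨σ, ⟨hσ, hσc, -, -⟩, -⟩ := pfFN1 n L P hf hP p hp ∅ ((hf ∅).2 (by simp))
    have hc : ∃ s : Fin n → ℕ, Function.Injective s ∧ Finset.univ.image s = σ := by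
      refine ⟨fun i => σ.orderEmbOfFin hσc i, fun i j h => ?_, ?_⟩
      · exact (σ.orderEmbOfFin hσc).injective h
      · ext x
        simp only [Finset.mem_image, Finset.mem_univ, true_and]
        constructor
        · rintro ⟨i, rfl⟩
          exact Finset.orderEmbOfFin_mem _ _ _
        · intro hx
          have : x ∈ Set.range (σ.orderEmbOfFin hσc) := by
            rw [Finset.range_orderEmbOfFin]
            exact hx
          exact this
    obtain ⟨s, hs1, hs2⟩ := hc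
    have e1 := hoa s hs1 (hs2 ▸ hσ)
    have e2 := ho1 s hs1 (hs2 ▸ hσ)
    rw [hk s, abs_mul, e2, mul_one] at e1
    exact_mod_cast e1
  rw [div_mul_eq_mul_div, le_div_iff₀ hfac]
  calc |lam| * 2 ^ n * |(eulerChar L : ℝ)| * n.factorial
      = |lam * (n.factorial * 2 ^ n * (eulerChar L : ℝ))| := by
        rw [abs_mul, abs_mul, abs_mul, abs_of_pos hfac,
          abs_of_pos (show (0 : ℝ) < 2 ^ n by positivity)]
        ring
    _ = 2 ^ (verts L).card * |lam * Sval (verts L) o P p| := by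
        rw [← h2, hS, abs_mul, abs_mul, abs_mul, abs_mul, hk1,
          abs_of_pos (show (0 : ℝ) < 2 ^ (verts L).card by positivity)]
        ring
    _ ≤ C * l1 z := h1

end Eu

end MP8a95ee
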