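import Pool.Agent.Work.MP_8a95ee_gt.Setup
import Pool.Agent.Work.MP_8a95ee_gt.DefsE

/-!
# Bounded Euler class of O(n, infinity): definitions

Chains are finitely supported functions on lists.
-/

namespace MP8a95ee

namespace Eu

/-! ### Chains on lists -/

section LC

variable (R : Type) [CommRing R] {α β : Type}

/-- The alternating sum of the lists with one entry removed. -/
noncomputable def faces : List α → (List α →₀ R)
  | [] => 0
  | a :: l => Finsupp.single l 1 - Finsupp.mapDomain (List.cons a) (faces l)

/-- The (augmented) boundary. -/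
noncomputable def bd : (List α →₀ R) →ₗ[R] (List α →₀ R) :=
  Finsupp.linearCombination R (faces R)

/-- Put `a` in front of every list. -/
noncomputable def consm (a : α) : (List α →₀ R) →ₗ[R] (List α →₀ R) :=
  Finsupp.lmapDomain R R (List.cons a)

/-- Remove the head of every list. -/
noncomputable def tl : (List α →₀ R) →ₗ[R] (List α →₀ R) :=
  Finsupp.lmapDomain R R List.tail

/-- Apply `f` to all entries. -/
noncomputable def mapm (f : α → β) : (List α →₀ R) →ₗ[R] (List β →₀ R) :=
  Finsupp.lmapDomain R R (List.map f)

/-- The alternating sum of all insertions of `x` in a list. -/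
noncomputable def ins (x : α) : List α → (List α →₀ R)
  | [] => Finsupp.single [x] 1
  | a :: l => Finsupp.single (x :: a :: l) 1 - Finsupp.mapDomain (List.cons a) (ins x l)

/-- The alternating cone with vertex `x`. -/
noncomputable def cone (x : α) : (List α →₀ R) →ₗ[R] (List α →₀ R) :=
  Finsupp.linearCombination R (ins R x)

/-- The link of `x`: the chain `l ↦ z (x :: l)`. -/
noncomputable def link (x : α) (z : List α →₀ R) : List α →₀ R :=
  Finsupp.comapDomain (List.cons x) z List.cons_injective.injOn

/-- Alternating chains. -/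
def Alt {R : Type} [CommRing R] (z : List α →₀ R) : Prop :=
  ∀ (l₁ : List α) (a b : α) (l₂ : List α), z (l₁ ++ a :: b :: l₂) = - z (l₁ ++ b :: a :: l₂)

/-- The l1-norm of an integral chain. -/
noncomputable def nrm (z : List α →₀ ℤ) : ℕ := z.sum fun _ a => a.natAbs

/-- Linear extension of a function on lists. -/
noncomputable def lin {M : Type} [AddCommGroup M] [Module R M] (f : List α → M) :
    (List α →₀ R) →ₗ[R] M := Finsupp.linearCombination R f

end LC

/-! ### The space -/

section Space

variable (n : ℕ) (F : Type) [NormedAddCommGroup F] [InnerProductSpace ℝ F]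

/-- The space `ℝ ^ n ⊕ F`. -/
abbrev E : Type := (Fin n → ℝ) × F

variable {n F}

/-- The indefinite form: positive on `ℝ ^ n`, negative on `F`. -/
noncomputable def B (x y : E n F) : ℝ := x.1 ⬝ᵥ y.1 - inner ℝ x.2 y.2

/-- Lists of pairwise orthogonal positive vectors that are orthogonal to `T`. -/
def Orth (T : Finset (E n F)) (l : List (E n F)) : Prop :=
  l.Pairwise (fun x y => B x y = 0) ∧ ∀ x ∈ l, 0 < B x x ∧ ∀ t ∈ T, B x t = 0

/-- The orthogonal complement of `T` contains a positive definite subspace of dimension `m`. -/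
def Idx (T : Finset (E n F)) (m : ℕ) : Prop :=
  ∃ W : Submodule ℝ (E n F), m ≤ Module.finrank ℝ W ∧
    (∀ x ∈ W, x ≠ 0 → 0 < B x x) ∧ ∀ x ∈ W, ∀ t ∈ T, B x t = 0

/-- Alternating chains of orthogonal lists of length `d`. -/
def Good (T : Finset (E n F)) (d : ℕ) (z : List (E n F) →₀ ℤ) : Prop :=
  Alt z ∧ ∀ l ∈ z.support, l.length = d ∧ Orth T l

/-- Lists whose convex hull consists of positive vectors. -/
def PosL (l : List (E n F)) : Prop :=
  ∀ w ∈ convexHull ℝ {x | x ∈ l}, 0 < B w w

/-- Real chains of positive lists of length `d`. -/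
def PosC (d : ℕ) (z : List (E n F) →₀ ℝ) : Prop :=
  ∀ l ∈ z.support, l.length = d ∧ PosL l

/-- The reflection in `e` (the identity if `B e e = 0`). -/
noncomputable def reflL (e : E n F) : E n F →ₗ[ℝ] E n F where
  toFun x := x - (2 * B x e / B e e) • e
  map_add' x y := by
    have : B (x + y) e = B x e + B y e := by
      unfold B
      rw [Prod.fst_add, Prod.snd_add, add_dotProduct, inner_add_left]
      ring
    rw [this, mul_add, add_div, add_smul]
    abel
  map_smul' c x := by
    have : B (c • x) e = c * B x e := by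
      unfold B
      rw [Prod.smul_fst, Prod.smul_snd, smul_dotProduct, inner_smul_left]
      simp only [smul_eq_mul, RCLike.conj_to_real]
      ring
    rw [this, RingHom.id_apply, smul_sub, smul_smul]
    congr 2
    ring

theorem B_comm (x y : E n F) : B x y = B y x := by
  unfold B
  rw [dotProduct_comm, real_inner_comm]

theorem B_add_left (x y z : E n F) : B (x + y) z = B x z + B y z := by
  unfold B
  rw [Prod.fst_add, Prod.snd_add, add_dotProduct, inner_add_left]
  ring

theorem B_smul_left (c : ℝ) (x z : E n F) : B (c • x) z = c * B x z := by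
  unfold B
  rw [Prod.smul_fst, Prod.smul_snd, smul_dotProduct, inner_smul_left]
  simp only [smul_eq_mul, RCLike.conj_to_real]
  ring

theorem B_add_right (x y z : E n F) : B x (y + z) = B x y + B x z := by
  rw [B_comm, B_add_left, B_comm y, B_comm z]

theorem B_smul_right (c : ℝ) (x z : E n F) : B x (c • z) = c * B x z := by
  rw [B_comm, B_smul_left, B_comm]

theorem B_neg_left (x z : E n F) : B (-x) z = - B x z := by
  have := B_smul_left (-1) x z
  simpa using this

theorem B_neg_right (x z : E n F) : B x (-z) = - B x z := by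
  rw [B_comm, B_neg_left, B_comm]

theorem B_sub_left (x y z : E n F) : B (x - y) z = B x z - B y z := by
  rw [sub_eq_add_neg, B_add_left, B_neg_left, sub_eq_add_neg]

theorem B_sub_right (x y z : E n F) : B x (y - z) = B x y - B x z := by
  rw [B_comm, B_sub_left, B_comm y, B_comm z]

theorem B_zero_left (z : E n F) : B 0 z = 0 := by
  have := B_smul_left 0 (0 : E n F) z
  simpa using this

theorem B_zero_right (z : E n F) : B z 0 = 0 := by
  rw [B_comm, B_zero_left]

theorem reflL_apply (e x : E n F) : reflL e x = x - (2 * B x e / B e e) • e := rfl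

theorem reflL_invol (e : E n F) : Function.Involutive (reflL e) := by
  intro x
  rw [reflL_apply, reflL_apply]
  by_cases h : B e e = 0
  · rw [h, div_zero, div_zero]
    simp
  · have h1 : B (x - (2 * B x e / B e e) • e) e = - B x e := by
      rw [B_sub_left, B_smul_left, div_mul_cancel₀ _ h]
      ring
    rw [h1, mul_neg, neg_div, neg_smul]
    abel

/-- The reflection as a linear automorphism. -/
noncomputable def refl (e : E n F) : E n F ≃ₗ[ℝ] E n F :=
  LinearEquiv.ofInvolutive (reflL e) (reflL_invol e)

theorem refl_apply (e x : E n F) : refl e x = x - (2 * B x e / B e e) • e := rfl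

variable (n F) in
/-- The group generated by the pairs (positive reflection, -1). -/
def Gs : Subgroup ((E n F ≃ₗ[ℝ] E n F) × ℤˣ) :=
  Subgroup.closure {g | ∃ e : E n F, 0 < B e e ∧ g = (refl e, -1)}

variable (n F) in
/-- The group as a type. -/
abbrev G : Type := ↥(Gs n F)

variable (n F) in
/-- The sign character. -/
def chi : G n F →* ℤˣ := (MonoidHom.snd (E n F ≃ₗ[ℝ] E n F) ℤˣ).comp (Gs n F).subtype

/-- The action of the group on real or integral chains. -/
noncomputable def act (R : Type) [CommRing R] (g : G n F) :
    (List (E n F) →₀ R) →ₗ[R] (List (E n F) →₀ R) :=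
  mapm R (fun x => (g.1.1 : E n F → E n F) x)

open Classical in
/-- The generator attached to a vector (1 if the vector is not positive). -/
noncomputable def gen (e : E n F) : G n F :=
  if h : 0 < B e e then ⟨(refl e, -1), Subgroup.subset_closure ⟨e, h, rfl⟩⟩ else 1

/-! ### The degree -/

/-- The matrix of the first components. -/
def mat (l : List (E n F)) : Matrix (Fin n) (Fin n) ℝ := fun i => (l.getD i 0).1

open Classical in
/-- The signed count: sign of the determinant if `p` is in the open cone over the first
components, zero otherwise. -/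
noncomputable def D (p : Fin n → ℝ) (l : List (E n F)) : ℝ :=
  if ∀ i : Fin n, 0 < (mat l).det * ((mat l).updateRow i p).det
  then ((SignType.sign (mat l).det : SignType) : ℝ) else 0

/-- `p` is not in the span of the first components of any `n - 1` of the entries. -/
def Gen (p : Fin n → ℝ) (l : List (E n F)) : Prop :=
  ∀ i : Fin n, p ∉ Submodule.span ℝ ((fun j : Fin n => (l.getD j 0).1) '' {j | j ≠ i})

/-- Cycles of positive lists of length `n`. -/
def Zc (z : List (E n F) →₀ ℝ) : Prop := PosC n z ∧ bd ℝ z = 0

variable (n F) in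
/-- The degree of cycles. -/
structure DegPkg where
  deg : (List (E n F) →₀ ℝ) → ℝ
  formula : ∀ z : List (E n F) →₀ ℝ, Zc z → ∀ p : Fin n → ℝ, (∀ l ∈ z.support, Gen p l) →
    deg z = z.sum fun l a => a * D p l
  bdry : ∀ w : List (E n F) →₀ ℝ, PosC (n + 1) w → deg (bd ℝ w) = 0
  add : ∀ z z' : List (E n F) →₀ ℝ, Zc z → Zc z' → deg (z + z') = deg z + deg z'
  smul : ∀ (c : ℝ) (z : List (E n F) →₀ ℝ), Zc z → deg (c • z) = c * deg z
  equi : ∀ (g : G n F) (z : List (E n F) →₀ ℝ), Zc z →
    deg (act ℝ g z) = (((chi n F g : ℤˣ) : ℤ) : ℝ) * deg z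
  le : ∀ z : List (E n F) →₀ ℝ, Zc z → |deg z| ≤ z.sum fun _ a => |a|

variable (n F) in
/-- The equivariant chain map and the degree. -/
structure Pkg extends DegPkg n F where
  φ : List (G n F) → (List (E n F) →₀ ℝ)
  C : ℝ
  nil : φ [] = Finsupp.single [] 1
  pos : ∀ l : List (G n F), l.length ≤ n → PosC l.length (φ l)
  chain : ∀ l : List (G n F), l ≠ [] → l.length ≤ n → bd ℝ (φ l) = lin ℝ φ (faces ℝ l)
  equiv : ∀ (g : G n F) (l : List (G n F)), l.length ≤ n → φ (l.map (g * ·)) = act ℝ g (φ l)
  bound : ∀ l : List (G n F), l.length = n + 1 → |deg (lin ℝ φ (faces ℝ l))| ≤ C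

/-- The cocycle of a package, on lists. -/
noncomputable def Pkg.Fl (K : Pkg n F) (l : List (G n F)) : ℝ :=
  K.deg (lin ℝ K.φ (faces ℝ l))

end Space

end Eu

end MP8a95ee
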