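import Pool.Agent.Work.MP_8a95ee_gt.Eu.Stmts

/-!
# Evaluation of the bounded Euler class: definitions
-/

namespace MP8a95ee

namespace Eu

open Classical

/-! ### Products of lists -/

/-- The shuffle product of two lists. -/
noncomputable def Pr {α β : Type} : List α → List β → (List (α × β) →₀ ℝ)
  | [], _ => 0
  | _ :: _, [] => 0
  | a :: x, b :: y =>
    if x = [] ∧ y = [] then Finsupp.single [(a, b)] 1
    else consm ℝ (a, b) (Pr x (b :: y) + ((-1 : ℝ) ^ x.length) • Pr (a :: x) y)
  termination_by x y => x.length + y.length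

/-- The walk that starts at `g` and uses the steps `r v` one after the other. -/
def wk {H : Type} [Group H] (r : ℕ → H) : H → List ℕ → List H
  | g, [] => [g]
  | g, v :: s => g :: wk r (g * r v) s

/-- The sum over all lists of length `j` with entries in `V`. -/
def sumV {M : Type} [AddCommMonoid M] (V : Finset ℕ) : ℕ → (List ℕ → M) → M
  | 0, f => f []
  | j + 1, f => ∑ v ∈ V, sumV V j (fun s => f (v :: s))

/-- The cycle `o` as a function on lists. -/
noncomputable def oL {n : ℕ} (o : (Fin n → ℕ) → ℤ) (s : List ℕ) : ℝ :=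
  if s.length = n then ((o (fun i => s.getD i 0) : ℤ) : ℝ) else 0

/-- A family of chains of facets dual to the faces of `L`. -/
structure Dual (n : ℕ) (L : Finset (Finset ℕ)) (o : (Fin n → ℕ) → ℤ) where
  c : List ℕ → (List (Finset ℕ) →₀ ℝ)
  top : ∀ s : List ℕ, s.length = n → c s = oL o s • Finsupp.single [s.toFinset] 1
  alt : ∀ (s₁ : List ℕ) (a b : ℕ) (s₂ : List ℕ), c (s₁ ++ a :: b :: s₂) = - c (s₁ ++ b :: a :: s₂)
  supp : ∀ s : List ℕ, ∀ l ∈ (c s).support, l.length + s.length = n + 1 ∧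
    ∀ σ ∈ l, σ ∈ L ∧ σ.card = n ∧ s.toFinset ⊆ σ
  bdy : ∀ s : List ℕ, s.length < n → bd ℝ (c s) = ∑ v ∈ verts L, c (s ++ [v])
  aug : ∀ s : List ℕ, s.length < n → (c s).sum (fun _ a => a) = 0

/-- The product of a walk and a dual chain. -/
noncomputable def cell {n : ℕ} {L : Finset (Finset ℕ)} {o : (Fin n → ℕ) → ℤ} {H : Type}
    (Dl : Dual n L o) (x : List H) (s : List ℕ) : List (H × Finset ℕ) →₀ ℝ :=
  lin ℝ (fun y => Pr x y) (Dl.c s)

/-- The chain `Z j`. -/
noncomputable def Zj {n : ℕ} {L : Finset (Finset ℕ)} {o : (Fin n → ℕ) → ℤ} {H : Type} [Group H]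
    (Dl : Dual n L o) (r : ℕ → H) (j : ℕ) : List (H × Finset ℕ) →₀ ℝ :=
  sumV (verts L) j (fun s => cell Dl (wk r 1 s) s)

/-- Give all entries the label `σ`. -/
def lab {H : Type} (σ : Finset ℕ) (x : List H) : List (H × Finset ℕ) := x.map (fun g => (g, σ))

/-- The chain `Y`: first and last faces of the walks in the facets. -/
noncomputable def Yc {H : Type} [Group H] (n : ℕ) (q : List ℕ → ℝ) (r : ℕ → H) (V : Finset ℕ) :
    List (H × Finset ℕ) →₀ ℝ :=
  sumV V n (fun s => q s •
    (Finsupp.single (lab s.toFinset (wk r (r (s.headD 0)) s.tail)) 1 +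
      ((-1 : ℝ) ^ n) • Finsupp.single (lab s.toFinset (wk r 1 s.dropLast)) 1))

/-- Left translation of labelled lists. -/
def ltr {H : Type} [Group H] (g : H) (l : List (H × Finset ℕ)) : List (H × Finset ℕ) :=
  l.map (fun a => (g * a.1, a.2))

/-- Functions on labelled lists that are equivariant with respect to the sign `χ`. -/
def Eqv {H : Type} [Group H] (χ : H →* ℤˣ) (f : List (H × Finset ℕ) → ℝ) : Prop :=
  ∀ (g : H) (l : List (H × Finset ℕ)), f (ltr g l) = (((χ g : ℤˣ) : ℤ) : ℝ) * f l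

section Space

variable {n : ℕ} {F : Type} [NormedAddCommGroup F] [InnerProductSpace ℝ F]

variable (n F) in
/-- Vectors attached to a complex. -/
structure Dat (L : Finset (Finset ℕ)) where
  e : ℕ → E n F
  p : Fin n → ℝ
  x : Finset ℕ → E n F
  unit : ∀ v ∈ verts L, B (e v) (e v) = 1
  orth : ∀ u v : ℕ, u ≠ v → ({u, v} : Finset ℕ) ∈ L → B (e u) (e v) = 0
  gen : ∀ ρ ∈ L, ρ.card < n → p ∉ Submodule.span ℝ ((fun v => (e v).1) '' (ρ : Set ℕ))
  x_fst : ∀ σ ∈ L, σ.card = n → (x σ).1 = p
  x_mem : ∀ σ ∈ L, σ.card = n → x σ ∈ Submodule.span ℝ (e '' (σ : Set ℕ))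

variable {L : Finset (Finset ℕ)}

/-- The reflections as elements of the group. -/
noncomputable def Dat.r (Dt : Dat n F L) (v : ℕ) : G n F := Eu.gen (Dt.e v)

/-- Lists whose group elements lie in one coset of the special subgroup of a small face and whose
labels are facets that contain this face. -/
def KL (Dt : Dat n F L) (l : List (G n F × Finset ℕ)) : Prop :=
  ∃ g : G n F, ∃ ρ ∈ L, ρ.card < n ∧ ∀ a ∈ l, ρ ⊆ a.2 ∧ a.2 ∈ L ∧ a.2.card = n ∧
    ∃ w ∈ Subgroup.closure (Dt.r '' (ρ : Set ℕ)), a.1 = g * w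

/-- The vectors of a list of labelled group elements. -/
noncomputable def th (Dt : Dat n F L) (l : List (G n F × Finset ℕ)) : List (E n F) :=
  l.map (fun a => a.1.1.1 (Dt.x a.2))

/-- The explicit chain map on labelled lists. -/
noncomputable def thc (Dt : Dat n F L) (l : List (G n F × Finset ℕ)) : List (E n F) →₀ ℝ :=
  Finsupp.single (th Dt l) 1

end Space

/-- The exact value: the sum over all ordered facets of `o` times the sign of the determinant
times the product of the signs of the coordinates of `p`. -/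
noncomputable def Sval {n : ℕ} (V : Finset ℕ) (o : (Fin n → ℕ) → ℤ) (P : ℕ → Fin n → ℝ)
    (p : Fin n → ℝ) : ℝ :=
  ∑ s ∈ Fintype.piFinset (fun _ : Fin n => V), (o s : ℝ) *
    ((SignType.sign (Matrix.det (fun i => P (s i))) : SignType) : ℝ) *
    ∏ i : Fin n, ((SignType.sign (Matrix.det (fun i => P (s i)) *
      Matrix.det (Matrix.updateRow (fun i => P (s i)) i p)) : SignType) : ℝ)

end Eu

/-! ### Fans -/

/-- `P` makes `L` a complete simplicial fan: every vector `x` can be written in exactly one way as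
a combination of the vectors `P v` with nonnegative coefficients such that the vertices with
nonzero coefficient form a face of `L` (for complexes closed under subsets). -/
def IsCompleteFan {n : ℕ} (L : Finset (Finset ℕ)) (P : ℕ → Fin n → ℝ) : Prop :=
  ∀ x : Fin n → ℝ, ∃! c : ℕ → ℝ, (∀ v, 0 ≤ c v) ∧ (∃ σ ∈ L, ∀ v, c v ≠ 0 → v ∈ σ) ∧
    ∑ v ∈ verts L, c v • P v = x

/-- The matrix `N` vanishes on the diagonal and on the edges of `L`, and its quadratic form is
positive on all nonzero linear relations between the vectors `P v`. -/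
def IsPositive {n : ℕ} (L : Finset (Finset ℕ)) (P : ℕ → Fin n → ℝ) (N : ℕ → ℕ → ℝ) : Prop :=
  (∀ u v : ℕ, ({u, v} : Finset ℕ) ∈ L → N u v = 0) ∧
  ∀ y : ℕ → ℝ, (∃ v ∈ verts L, y v ≠ 0) → ∑ v ∈ verts L, y v • P v = 0 →
    0 < ∑ u ∈ verts L, ∑ v ∈ verts L, y u * y v * N u v

/-- `L` is a flag complex which is the complex of a complete simplicial fan in `ℝ ^ n` with a
positive matrix. -/
def PosFan (n : ℕ) (L : Finset (Finset ℕ)) : Prop :=
  IsFlag L ∧ ∃ (P : ℕ → Fin n → ℝ) (N : ℕ → ℕ → ℝ), IsCompleteFan L P ∧ IsPositive L P N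

end MP8a95ee
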