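import Pool.Agent.Work.MP_8a95ee_gt.Eu.Defs

/-!
# Bounded Euler class of O(n, infinity): statements of the items
-/

namespace MP8a95ee

namespace Eu

open Classical

/-! ### Chains on lists -/

/-- LC1: the boundary. -/
def S_LC1 : Prop :=
  ∀ (R : Type) [CommRing R] (α β : Type),
    (∀ (a : α) (z : List α →₀ R), bd R (consm R a z) = z - consm R a (bd R z)) ∧
    (∀ z : List α →₀ R, bd R (bd R z) = 0) ∧
    (∀ (f : α → β) (z : List α →₀ R), bd R (mapm R f z) = mapm R f (bd R z)) ∧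
    (∀ l l' : List α, l' ∈ (faces R l).support → l'.length + 1 = l.length ∧ l'.Sublist l) ∧
    (∀ l : List α, faces R l = ∑ i ∈ Finset.range l.length,
      Finsupp.single (l.eraseIdx i) ((-1 : R) ^ i))

/-- LC2: the cone. -/
def S_LC2 : Prop :=
  ∀ (α : Type) (x : α) (z : List α →₀ ℤ),
    ((∀ l ∈ z.support, l ≠ []) → tl ℤ (cone ℤ x z) = z - cone ℤ x (tl ℤ z)) ∧
    ((∀ l ∈ z.support, l = []) → tl ℤ (cone ℤ x z) = z) ∧
    (Alt z → Alt (cone ℤ x z)) ∧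
    (∀ l ∈ (cone ℤ x z).support, ∃ l' ∈ z.support, l.Perm (x :: l')) ∧
    (∀ d : ℕ, (∀ l ∈ z.support, l.length = d) → nrm (cone ℤ x z) ≤ (d + 1) * nrm z)

/-- LC3: the link. -/
def S_LC3 : Prop :=
  ∀ (α : Type) (x : α) (z : List α →₀ ℤ), Alt z →
    Alt (link ℤ x z) ∧
    ((∀ l ∈ z.support, 2 ≤ l.length) → tl ℤ (link ℤ x z) = - link ℤ x (tl ℤ z)) ∧
    nrm (link ℤ x z) ≤ nrm z ∧
    z = z.filter (fun l => x ∉ l) + cone ℤ x (link ℤ x z) ∧
    Alt (z.filter (fun l => x ∉ l)) ∧ nrm (z.filter (fun l => x ∉ l)) ≤ nrm z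

/-- LC4: removing two entries of an alternating chain. -/
def S_LC4 : Prop :=
  ∀ (α : Type) (z : List α →₀ ℤ), Alt z → (∀ l ∈ z.support, 2 ≤ l.length) →
    tl ℤ (tl ℤ z) = 0 ∧ Alt (tl ℤ z)

/-- LC5: the boundary of an alternating chain. -/
def S_LC5 : Prop :=
  ∀ (α : Type) (k : ℕ) (z : List α →₀ ℤ), 0 < k → Alt z → (∀ l ∈ z.support, l.length = k) →
    bd ℤ z = (k : ℤ) • tl ℤ z

/-- LC6: simple facts on the norm and on sums. -/
def S_LC6 : Prop :=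
  (∀ (α : Type) (z z' : List α →₀ ℤ), nrm (z + z') ≤ nrm z + nrm z') ∧
  (∀ (α : Type) (z : List α →₀ ℤ), nrm (-z) = nrm z) ∧
  (∀ (α β : Type) (f : List α → List β) (z : List α →₀ ℤ), nrm (z.mapDomain f) ≤ nrm z) ∧
  (∀ (α : Type) (z z' : List α →₀ ℤ), Alt z → Alt z' → Alt (z + z') ∧ Alt (-z)) ∧
  (∀ (α β : Type) (f : α → β), Function.Injective f → ∀ z : List α →₀ ℤ, Alt z →
    Alt (mapm ℤ f z) ∧ nrm (mapm ℤ f z) = nrm z ∧ tl ℤ (mapm ℤ f z) = mapm ℤ f (tl ℤ z))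

/-! ### Uniform fillings -/

/-- U1: index of an orthogonal complement. -/
def S_U1 : Prop :=
  ∀ (n : ℕ) (F : Type) [NormedAddCommGroup F] [InnerProductSpace ℝ F] (m : ℕ)
    (T : Finset (E n F)) (x v : E n F), Idx T (m + 1) → (∀ t ∈ T, B x t = 0) →
    (∀ t ∈ T, B v t = 0) → 0 < B x x → B x x * B v v < B x v ^ 2 →
    Idx (insert (v - (B x v / B x x) • x) (insert x T)) m

/-- U2: a vector that is far from finitely many given vectors. -/
def S_U2 : Prop :=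
  ∀ (n : ℕ) (F : Type) [NormedAddCommGroup F] [InnerProductSpace ℝ F],
    ¬ FiniteDimensional ℝ F → ∀ (T S : Finset (E n F)), Idx T 1 →
    (∀ x ∈ S, 0 < B x x ∧ ∀ t ∈ T, B x t = 0) →
    ∃ v : E n F, 0 < B v v ∧ (∀ t ∈ T, B v t = 0) ∧ ∀ x ∈ S, B x x * B v v < B x v ^ 2

/-- Uniform fillings of cycles of length `d` in spaces of index at least `m`. -/
def UFp (n : ℕ) (F : Type) [NormedAddCommGroup F] [InnerProductSpace ℝ F] (m d : ℕ) : Prop :=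
  ∀ N : ℕ, ∃ M : ℕ,
    ∀ T : Finset (E n F), Idx T m → ∀ z : List (E n F) →₀ ℤ, Good T d z →
      (0 < d → tl ℤ z = 0) → nrm z ≤ N →
      ∃ w : List (E n F) →₀ ℤ, Good T (d + 1) w ∧ tl ℤ w = z ∧ nrm w ≤ M

/-- Uniform pushing of cycles of length `d` into the orthogonal complement of `v`. -/
def PAp (n : ℕ) (F : Type) [NormedAddCommGroup F] [InnerProductSpace ℝ F] (m d : ℕ) : Prop :=
  ∀ N : ℕ, ∃ M : ℕ,
    ∀ T : Finset (E n F), Idx T m → ∀ v : E n F, (∀ t ∈ T, B v t = 0) →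
      ∀ z : List (E n F) →₀ ℤ, Good T d z → (0 < d → tl ℤ z = 0) → nrm z ≤ N →
      (∀ l ∈ z.support, ∀ x ∈ l, B x v = 0 ∨ B x x * B v v < B x v ^ 2) →
      ∃ z' w : List (E n F) →₀ ℤ, Good (insert v T) d z' ∧ Good T (d + 1) w ∧
        z = z' + tl ℤ w ∧ nrm z' ≤ M ∧ nrm w ≤ M ∧
        ∀ l ∈ w.support, ∀ x ∈ l, B x v = 0 ∨ ∃ l' ∈ z.support, x ∈ l'

/-- UA1: the push lemma. -/
def S_UA1 : Prop :=
  ∀ (n : ℕ) (F : Type) [NormedAddCommGroup F] [InnerProductSpace ℝ F] (m d : ℕ), d < m →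
    UFp n F m d → PAp n F m d → PAp n F (m + 1) (d + 1)

/-- UA2: filling after pushing. -/
def S_UA2 : Prop :=
  ∀ (n : ℕ) (F : Type) [NormedAddCommGroup F] [InnerProductSpace ℝ F],
    ¬ FiniteDimensional ℝ F → ∀ m d : ℕ, 0 < d → d < m → PAp n F m d → UFp n F m d

/-- UF: uniform fillings of cycles. -/
def S_UF : Prop :=
  ∀ (n : ℕ) (F : Type) [NormedAddCommGroup F] [InnerProductSpace ℝ F],
    ¬ FiniteDimensional ℝ F → ∀ m d : ℕ, d < m → UFp n F m d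

/-- PHI: the equivariant chain map. -/
def S_PHI : Prop :=
  ∀ (n : ℕ) (F : Type) [NormedAddCommGroup F] [InnerProductSpace ℝ F],
    ¬ FiniteDimensional ℝ F → ∃ (φ : List (G n F) → (List (E n F) →₀ ℤ)) (M : ℕ),
      φ [] = Finsupp.single [] 1 ∧
      ∀ l : List (G n F), l.length ≤ n →
        Good ∅ l.length (φ l) ∧ nrm (φ l) ≤ M ∧
        (l ≠ [] → tl ℤ (φ l) = lin ℤ φ (faces ℤ l)) ∧
        ∀ g : G n F, φ (l.map (g * ·)) = act ℤ g (φ l)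

/-! ### Positive lists, homotopies, degree -/

/-- PO: orthogonal lists are positive; images. -/
def S_PO : Prop :=
  ∀ (n : ℕ) (F : Type) [NormedAddCommGroup F] [InnerProductSpace ℝ F],
    (∀ l : List (E n F), Orth ∅ l → PosL l) ∧
    (∀ (l : List (E n F)) (g : G n F), PosL l → PosL (l.map (fun x => (g.1.1 : E n F → E n F) x))) ∧
    (∀ (l l' : List (E n F)), (∀ x ∈ l', x ∈ l) → PosL l → PosL l') ∧
    (∀ g : G n F, ∀ x y : E n F, B (g.1.1 x) (g.1.1 y) = B x y)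

/-- HO1: the prism. -/
def S_HO1 : Prop :=
  ∀ (α β : Type), ∃ Pm : (α → β) → (α → β) → List α → (List β →₀ ℝ),
    ∀ (γ γ' : α → β) (l : List α),
      bd ℝ (Pm γ γ' l) + lin ℝ (Pm γ γ') (faces ℝ l) =
        Finsupp.single (l.map γ') 1 - Finsupp.single (l.map γ) 1 ∧
      ∀ l' ∈ (Pm γ γ' l).support, l'.length = l.length + 1 ∧ ∀ x ∈ l', x ∈ l.map γ ++ l.map γ'

/-- HO2: uniformity. -/
def S_HO2 : Prop :=
  ∀ (n : ℕ) (F : Type) [NormedAddCommGroup F] [InnerProductSpace ℝ F]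
    (γ : ℝ → E n F → E n F) (l : List (E n F)),
    (∀ x, ContinuousOn (fun s => γ s x) (Set.Icc 0 1)) →
    (∀ s ∈ Set.Icc (0 : ℝ) 1, PosL (l.map (γ s))) →
    ∃ δ : ℝ, 0 < δ ∧ ∀ s ∈ Set.Icc (0 : ℝ) 1, ∀ s' ∈ Set.Icc (0 : ℝ) 1, |s - s'| ≤ δ →
      PosL (l.map (γ s) ++ l.map (γ s'))

/-- HO: the homotopy lemma. -/
def S_HO : Prop :=
  ∀ (n : ℕ) (F : Type) [NormedAddCommGroup F] [InnerProductSpace ℝ F] (d : ℕ)
    (γ : ℝ → E n F → E n F) (z : List (E n F) →₀ ℝ),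
    (∀ x, ContinuousOn (fun s => γ s x) (Set.Icc 0 1)) →
    (∀ l ∈ z.support, l.length = d ∧ ∀ s ∈ Set.Icc (0 : ℝ) 1, PosL (l.map (γ s))) →
    bd ℝ z = 0 →
    ∃ w : List (E n F) →₀ ℝ, PosC (d + 1) w ∧ bd ℝ w = mapm ℝ (γ 1) z - mapm ℝ (γ 0) z

/-- AC: cycles of small dimension are boundaries. -/
def S_AC : Prop :=
  ∀ (n : ℕ) (F : Type) [NormedAddCommGroup F] [InnerProductSpace ℝ F] (k : ℕ), 0 < k → k < n →
    ∀ z : List (E n F) →₀ ℝ, PosC k z → bd ℝ z = 0 →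
    ∃ w : List (E n F) →₀ ℝ, PosC (k + 1) w ∧ bd ℝ w = z

/-- The signed count for functions. -/
noncomputable def Df {n : ℕ} (p : Fin n → ℝ) (t : Fin n → Fin n → ℝ) : ℝ :=
  if ∀ i : Fin n, 0 < (Matrix.det t) * (Matrix.det (Matrix.updateRow t i p))
  then ((SignType.sign (Matrix.det t) : SignType) : ℝ) else 0

/-- DG1: the relation between `n + 1` vectors. -/
def S_DG1 : Prop :=
  ∀ (n : ℕ) (y : Fin (n + 1) → Fin n → ℝ),
    ∑ i : Fin (n + 1), ((-1 : ℝ) ^ (i : ℕ) *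
      Matrix.det (fun j : Fin n => y (i.succAbove j))) • y i = 0

/-- DG2: the alternating sum of the signed counts of the facets of a simplex. -/
def S_DG2 : Prop :=
  ∀ (n : ℕ) (y : Fin (n + 1) → Fin n → ℝ) (p : Fin n → ℝ),
    (∀ i j : Fin (n + 1), i ≠ j → p ∉ Submodule.span ℝ (y '' {k | k ≠ i ∧ k ≠ j})) →
    ((∃ i : Fin (n + 1), 0 < (-1 : ℝ) ^ (i : ℕ) * Matrix.det (fun j : Fin n => y (i.succAbove j))) →
      (∃ i : Fin (n + 1), (-1 : ℝ) ^ (i : ℕ) * Matrix.det (fun j : Fin n => y (i.succAbove j)) < 0) →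
      ∑ i : Fin (n + 1), (-1 : ℝ) ^ (i : ℕ) * Df p (fun j => y (i.succAbove j)) = 0) ∧
    ((∀ i : Fin (n + 1), 0 < (-1 : ℝ) ^ (i : ℕ) * Matrix.det (fun j : Fin n => y (i.succAbove j))) →
      ∑ i : Fin (n + 1), (-1 : ℝ) ^ (i : ℕ) * Df p (fun j => y (i.succAbove j)) = 1) ∧
    ((∀ i : Fin (n + 1), (-1 : ℝ) ^ (i : ℕ) * Matrix.det (fun j : Fin n => y (i.succAbove j)) < 0) →
      ∑ i : Fin (n + 1), (-1 : ℝ) ^ (i : ℕ) * Df p (fun j => y (i.succAbove j)) = -1)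

/-- DG3: independence of the point, and the boundary of a positive chain. -/
def S_DG3 : Prop :=
  ∀ (n : ℕ) (F : Type) [NormedAddCommGroup F] [InnerProductSpace ℝ F], 0 < n →
    (∀ z : List (E n F) →₀ ℝ, Zc z → ∀ p p' : Fin n → ℝ, (∀ l ∈ z.support, Gen p l) →
      (∀ l ∈ z.support, Gen p' l) →
      (z.sum fun l a => a * D p l) = z.sum fun l a => a * D p' l) ∧
    (∀ w : List (E n F) →₀ ℝ, PosC (n + 1) w → ∀ p : Fin n → ℝ,
      (∀ l ∈ w.support, ∀ l' : List (E n F), l'.length = n → (∀ x ∈ l', x ∈ l) → Gen p l') →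
      ((bd ℝ w).sum fun l a => a * D p l) = 0)

/-- DG4: existence of generic points. -/
def S_DG4 : Prop :=
  ∀ (n : ℕ) (F : Type) [NormedAddCommGroup F] [InnerProductSpace ℝ F], 0 < n →
    ∀ S : Finset (E n F), ∃ p : Fin n → ℝ,
      ∀ l : List (E n F), l.length = n → (∀ x ∈ l, x ∈ S) → Gen p l

/-- DG5: the degree, without equivariance. -/
def S_DG5 : Prop :=
  ∀ (n : ℕ) (F : Type) [NormedAddCommGroup F] [InnerProductSpace ℝ F], 0 < n →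
    ∃ deg : (List (E n F) →₀ ℝ) → ℝ,
      (∀ z : List (E n F) →₀ ℝ, Zc z → ∀ p : Fin n → ℝ, (∀ l ∈ z.support, Gen p l) →
        deg z = z.sum fun l a => a * D p l) ∧
      (∀ w : List (E n F) →₀ ℝ, PosC (n + 1) w → deg (bd ℝ w) = 0) ∧
      (∀ z z' : List (E n F) →₀ ℝ, Zc z → Zc z' → deg (z + z') = deg z + deg z') ∧
      (∀ (c : ℝ) (z : List (E n F) →₀ ℝ), Zc z → deg (c • z) = c * deg z) ∧
      (∀ z : List (E n F) →₀ ℝ, Zc z → |deg z| ≤ z.sum fun _ a => |a|)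

/-- DG6: the package. -/
def S_DG6 : Prop :=
  ∀ (n : ℕ) (F : Type) [NormedAddCommGroup F] [InnerProductSpace ℝ F], 0 < n →
    Nonempty (DegPkg n F)

/-- PK: the package with the chain map. -/
def S_PK : Prop :=
  ∀ (n : ℕ) (F : Type) [NormedAddCommGroup F] [InnerProductSpace ℝ F],
    ¬ FiniteDimensional ℝ F → 0 < n → Nonempty (Pkg n F)

end Eu

end MP8a95ee
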