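import Pool.Agent.Work.MP_8a95ee_gt.Eu.Stmts2

set_option autoImplicit false

/-!
# MP_8a95ee, Eu, Z2: dual chains
-/

namespace MP8a95ee.Eu

open Classical

namespace Z2

theorem getD_app (s t : List ℕ) (i : ℕ) : (s ++ t).getD i 0 =
    if i < s.length then s.getD i 0 else t.getD (i - s.length) 0 := by
  by_cases h : i < s.length
  · rw [if_pos h, List.getD_append _ _ _ _ h]
  · rw [if_neg h, List.getD_append_right _ _ _ _ (not_lt.1 h)]

theorem oL_alt {L : Finset (Finset ℕ)} {n : ℕ} {o : (Fin n → ℕ) → ℤ}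
    (ho : IsSimplicialCycle L n o) (s₁ : List ℕ) (a b : ℕ) (s₂ : List ℕ) :
    oL o (s₁ ++ a :: b :: s₂) = - oL o (s₁ ++ b :: a :: s₂) := by
  have hl : (s₁ ++ a :: b :: s₂).length = (s₁ ++ b :: a :: s₂).length := by
    simp only [List.length_append, List.length_cons]
  unfold oL
  rw [← hl]
  by_cases hn : (s₁ ++ a :: b :: s₂).length = n
  · rw [if_pos hn, if_pos hn]
    have hn' : s₁.length + (s₂.length + 1 + 1) = n := by
      rw [← hn]
      simp only [List.length_append, List.length_cons]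
    have hi0 : s₁.length < n := by omega
    have hi1 : s₁.length + 1 < n := by omega
    have key : (fun i : Fin n => (s₁ ++ a :: b :: s₂).getD i 0) =
        (fun i : Fin n => (s₁ ++ b :: a :: s₂).getD i 0) ∘
          Equiv.swap (⟨s₁.length, hi0⟩ : Fin n) ⟨s₁.length + 1, hi1⟩ := by
      funext i
      rw [Function.comp_apply]
      by_cases h0 : i = ⟨s₁.length, hi0⟩
      · subst h0
        rw [Equiv.swap_apply_left, getD_app, getD_app]
        simp
      · by_cases h1 : i = ⟨s₁.length + 1, hi1⟩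
        · subst h1
          rw [Equiv.swap_apply_right, getD_app, getD_app]
          simp
        · rw [Equiv.swap_apply_of_ne_of_ne h0 h1, getD_app, getD_app]
          by_cases h2 : (i : ℕ) < s₁.length
          · rw [if_pos h2, if_pos h2]
          · rw [if_neg h2, if_neg h2]
            have h0' : (i : ℕ) ≠ s₁.length := fun h => h0 (Fin.ext h)
            have h1' : (i : ℕ) ≠ s₁.length + 1 := fun h => h1 (Fin.ext h)
            obtain ⟨j, hj⟩ : ∃ j, (i : ℕ) - s₁.length = j + 2 := ⟨(i : ℕ) - s₁.length - 2, by omega⟩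
            rw [hj, List.getD_cons_succ, List.getD_cons_succ, List.getD_cons_succ,
              List.getD_cons_succ]
    rw [key, ho.1 _ _ _ (by
      intro h
      have := congrArg Fin.val h
      simp at this)]
    push_cast
    rfl
  · rw [if_neg hn, if_neg hn, neg_zero]

theorem oL_sum {L : Finset (Finset ℕ)} {n : ℕ} {o : (Fin n → ℕ) → ℤ}
    (ho : IsSimplicialCycle L n o) (s : List ℕ) (hs : s.length + 1 = n) :
    ∑ v ∈ verts L, oL o (s ++ [v]) = 0 := by
  have hl : s.length < n := by omega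
  have h1 : ∀ v ∈ verts L, oL o (s ++ [v]) =
      ((o (Function.update (fun i : Fin n => s.getD i 0) ⟨s.length, hl⟩ v) : ℤ) : ℝ) := by
    intro v _
    unfold oL
    rw [if_pos (by rw [List.length_append]; simpa using hs)]
    congr 2
    funext i
    by_cases h0 : i = ⟨s.length, hl⟩
    · subst h0
      rw [Function.update_self, getD_app]
      simp
    · rw [Function.update_of_ne h0, getD_app, if_pos]
      have h0' : (i : ℕ) ≠ s.length := fun h => h0 (Fin.ext h)
      have := i.2
      omega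
  rw [Finset.sum_congr rfl h1, ← Int.cast_sum, ho.2.2, Int.cast_zero]

theorem inj_of_ne {L : Finset (Finset ℕ)} {n : ℕ} {o : (Fin n → ℕ) → ℤ}
    (ho : IsSimplicialCycle L n o) {s : Fin n → ℕ} (hs : o s ≠ 0) : Function.Injective s := by
  intro i j hij
  by_contra hne
  have h1 := ho.1 s i j hne
  have h2 : s ∘ Equiv.swap i j = s := by
    funext k
    simp only [Function.comp_apply]
    rcases eq_or_ne k i with rfl | hki
    · rw [Equiv.swap_apply_left, hij]
    · rcases eq_or_ne k j with rfl | hkj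
      · rw [Equiv.swap_apply_right, hij]
      · rw [Equiv.swap_apply_of_ne_of_ne hki hkj]
  rw [h2] at h1
  exact hs (by omega)

theorem oL_ne {L : Finset (Finset ℕ)} {n : ℕ} {o : (Fin n → ℕ) → ℤ}
    (ho : IsSimplicialCycle L n o) (s : List ℕ) (hs : oL o s ≠ 0) :
    s.toFinset ∈ L ∧ s.toFinset.card = n := by
  unfold oL at hs
  by_cases hn : s.length = n
  · rw [if_pos hn] at hs
    have hs' : o (fun i : Fin n => s.getD i 0) ≠ 0 := fun h => hs (by rw [h, Int.cast_zero])
    have hinj := inj_of_ne ho hs'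
    have himg : Finset.univ.image (fun i : Fin n => s.getD i 0) = s.toFinset := by
      ext x
      rw [Finset.mem_image, List.mem_toFinset]
      constructor
      · rintro ⟨i, -, rfl⟩
        have hi : (i : ℕ) < s.length := by rw [hn]; exact i.2
        rw [List.getD_eq_getElem _ _ hi]
        exact List.getElem_mem hi
      · intro hx
        obtain ⟨i, hi, rfl⟩ := List.getElem_of_mem hx
        exact ⟨⟨i, by rw [← hn]; exact hi⟩, Finset.mem_univ _, List.getD_eq_getElem _ _ hi⟩
    refine ⟨himg ▸ ho.2.1 _ hs', ?_⟩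
    rw [← himg, Finset.card_image_of_injective _ hinj, Finset.card_univ, Fintype.card_fin]
  · exact absurd (if_neg hn) hs

/-- a chosen facet -/
noncomputable def fac (n : ℕ) (L : Finset (Finset ℕ)) (t : Finset ℕ) : Finset ℕ :=
  if h : ∃ σ : Finset ℕ, σ ∈ L ∧ σ.card = n ∧ t ⊆ σ then h.choose else ∅

theorem fac_spec {n : ℕ} {L : Finset (Finset ℕ)} {t : Finset ℕ}
    (h : ∃ σ : Finset ℕ, σ ∈ L ∧ σ.card = n ∧ t ⊆ σ) :
    fac n L t ∈ L ∧ (fac n L t).card = n ∧ t ⊆ fac n L t := by
  unfold fac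
  rw [dif_pos h]
  exact h.choose_spec

/-- the chains -/
noncomputable def cc (n : ℕ) (L : Finset (Finset ℕ)) (o : (Fin n → ℕ) → ℤ) :
    ℕ → List ℕ → (List (Finset ℕ) →₀ ℝ)
  | 0, s => oL o s • Finsupp.single [s.toFinset] 1
  | k + 1, s => consm ℝ (fac n L s.toFinset) (∑ v ∈ verts L, cc n L o k (s ++ [v]))

theorem toF (s₁ : List ℕ) (a b : ℕ) (s₂ : List ℕ) :
    (s₁ ++ a :: b :: s₂).toFinset = (s₁ ++ b :: a :: s₂).toFinset := by
  ext x
  simp only [List.mem_toFinset, List.mem_append, List.mem_cons]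
  tauto

variable {L : Finset (Finset ℕ)} {n : ℕ} {o : (Fin n → ℕ) → ℤ}

theorem cc_alt (ho : IsSimplicialCycle L n o) (k : ℕ) :
    ∀ (s₁ : List ℕ) (a b : ℕ) (s₂ : List ℕ),
      cc n L o k (s₁ ++ a :: b :: s₂) = - cc n L o k (s₁ ++ b :: a :: s₂) := by
  induction k with
  | zero =>
    intro s₁ a b s₂
    show oL o _ • Finsupp.single [_] (1 : ℝ) = - (oL o _ • Finsupp.single [_] 1)
    rw [oL_alt ho, toF, neg_smul]
  | succ k ih =>
    intro s₁ a b s₂
    show consm ℝ (fac n L _) (∑ v ∈ verts L, cc n L o k ((s₁ ++ a :: b :: s₂) ++ [v])) =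
      - consm ℝ (fac n L _) (∑ v ∈ verts L, cc n L o k ((s₁ ++ b :: a :: s₂) ++ [v]))
    rw [toF, ← map_neg, ← Finset.sum_neg_distrib]
    congr 1
    refine Finset.sum_congr rfl fun v _ => ?_
    have := ih s₁ a b (s₂ ++ [v])
    simpa only [List.append_assoc, List.cons_append] using this

theorem cc_supp (ho : IsSimplicialCycle L n o) (k : ℕ) :
    ∀ s : List ℕ, ∀ l ∈ (cc n L o k s).support, l.length = k + 1 ∧
      ∀ σ ∈ l, σ ∈ L ∧ σ.card = n ∧ s.toFinset ⊆ σ := by
  induction k with
  | zero =>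
    intro s l hl
    rw [Finsupp.mem_support_iff] at hl
    have h0 : (oL o s • Finsupp.single [s.toFinset] (1 : ℝ)) l ≠ 0 := hl
    rw [Finsupp.smul_apply, smul_eq_mul] at h0
    have h1 := left_ne_zero_of_mul h0
    have h2 := right_ne_zero_of_mul h0
    have h3 : [s.toFinset] = l := by
      by_contra hne
      exact h2 (Finsupp.single_eq_of_ne' hne)
    obtain ⟨h4, h5⟩ := oL_ne ho s h1
    subst h3
    refine ⟨rfl, fun σ hσ => ?_⟩
    rw [List.mem_singleton] at hσ
    subst hσ
    exact ⟨h4, h5, subset_rfl⟩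
  | succ k ih =>
    intro s l hl
    have hl' : l ∈ (Finsupp.mapDomain (List.cons (fac n L s.toFinset))
      (∑ v ∈ verts L, cc n L o k (s ++ [v]))).support := hl
    have h1 := Finsupp.mapDomain_support hl'
    rw [Finset.mem_image] at h1
    obtain ⟨l', hl2, rfl⟩ := h1
    have h2 : ∃ v, l' ∈ (cc n L o k (s ++ [v])).support := by
      by_contra hne
      push Not at hne
      rw [Finsupp.mem_support_iff, Finsupp.finsetSum_apply] at hl2
      refine hl2 (Finset.sum_eq_zero fun v _ => ?_)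
      exact Finsupp.notMem_support_iff.1 (hne v)
    obtain ⟨v, hv⟩ := h2
    obtain ⟨h3, h4⟩ := ih _ _ hv
    have hsub : s.toFinset ⊆ (s ++ [v]).toFinset := by
      intro x hx
      rw [List.mem_toFinset] at hx ⊢
      exact List.mem_append_left _ hx
    have hex : ∃ σ : Finset ℕ, σ ∈ L ∧ σ.card = n ∧ s.toFinset ⊆ σ := by
      have : l' ≠ [] := by
        intro h
        rw [h] at h3
        simp at h3
      obtain ⟨σ, hσ⟩ := List.exists_mem_of_ne_nil _ this
      obtain ⟨a1, a2, a3⟩ := h4 σ hσ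
      exact ⟨σ, a1, a2, hsub.trans a3⟩
    refine ⟨by rw [List.length_cons, h3], fun σ hσ => ?_⟩
    rcases List.mem_cons.1 hσ with rfl | hσ
    · exact fac_spec hex
    · obtain ⟨a1, a2, a3⟩ := h4 σ hσ
      exact ⟨a1, a2, hsub.trans a3⟩

theorem two_sum {M : Type} [AddCommGroup M] [Module ℝ M] (V : Finset ℕ) (F : ℕ → ℕ → M)
    (h : ∀ a b, F a b = - F b a) : ∑ a ∈ V, ∑ b ∈ V, F a b = 0 := by
  set X := ∑ a ∈ V, ∑ b ∈ V, F a b with hX
  have h4 : X = - X := by
    calc X = ∑ b ∈ V, ∑ a ∈ V, F a b := Finset.sum_comm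
      _ = ∑ b ∈ V, ∑ a ∈ V, - F b a :=
        Finset.sum_congr rfl fun b _ => Finset.sum_congr rfl fun a _ => h a b
      _ = - X := by
        rw [hX, ← Finset.sum_neg_distrib]
        refine Finset.sum_congr rfl fun b _ => ?_
        rw [Finset.sum_neg_distrib]
  have h5 : (2 : ℝ) • X = 0 := by
    rw [two_smul]
    nth_rewrite 2 [h4]
    exact add_neg_cancel X
  exact (smul_eq_zero.1 h5).resolve_left two_ne_zero

theorem bd_single (σ : Finset ℕ) : bd ℝ (Finsupp.single [σ] (1 : ℝ)) =
    (Finsupp.single [] 1 : List (Finset ℕ) →₀ ℝ) := by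
  unfold bd
  rw [Finsupp.linearCombination_single, one_smul]
  show Finsupp.single [] 1 - Finsupp.mapDomain (List.cons σ) (0 : List (Finset ℕ) →₀ ℝ) = _
  rw [Finsupp.mapDomain_zero, sub_zero]

theorem cc_bdy (ho : IsSimplicialCycle L n o) (h1 : S_LC1) (k : ℕ) :
    ∀ s : List ℕ, s.length + (k + 1) = n →
      bd ℝ (cc n L o (k + 1) s) = ∑ v ∈ verts L, cc n L o k (s ++ [v]) := by
  induction k with
  | zero =>
    intro s hs
    show bd ℝ (consm ℝ (fac n L s.toFinset) (∑ v ∈ verts L, cc n L o 0 (s ++ [v]))) = _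
    rw [(h1 ℝ (Finset ℕ) (Finset ℕ)).1]
    have h2 : bd ℝ (∑ v ∈ verts L, cc n L o 0 (s ++ [v])) = 0 := by
      rw [map_sum]
      have h3 : ∀ v ∈ verts L, bd ℝ (cc n L o 0 (s ++ [v])) =
          oL o (s ++ [v]) • (Finsupp.single [] 1 : List (Finset ℕ) →₀ ℝ) := by
        intro v _
        show bd ℝ (oL o (s ++ [v]) • Finsupp.single [(s ++ [v]).toFinset] (1 : ℝ)) = _
        rw [map_smul, bd_single]
      rw [Finset.sum_congr rfl h3, ← Finset.sum_smul, oL_sum ho s hs, zero_smul]
    rw [h2, map_zero, sub_zero]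
  | succ k ih =>
    intro s hs
    show bd ℝ (consm ℝ (fac n L s.toFinset) (∑ v ∈ verts L, cc n L o (k + 1) (s ++ [v]))) = _
    rw [(h1 ℝ (Finset ℕ) (Finset ℕ)).1]
    have h2 : bd ℝ (∑ v ∈ verts L, cc n L o (k + 1) (s ++ [v])) = 0 := by
      rw [map_sum]
      have h3 : ∀ v ∈ verts L, bd ℝ (cc n L o (k + 1) (s ++ [v])) =
          ∑ w ∈ verts L, cc n L o k (s ++ [v] ++ [w]) := by
        intro v _
        exact ih _ (by rw [List.length_append, List.length_singleton]; omega)
      rw [Finset.sum_congr rfl h3]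
      refine two_sum _ _ fun a b => ?_
      have := cc_alt (L := L) (o := o) ho k s a b []
      simpa only [List.append_assoc, List.cons_append, List.nil_append] using this
    rw [h2, map_zero, sub_zero]

/-- the augmentation -/
noncomputable def aug : (List (Finset ℕ) →₀ ℝ) →ₗ[ℝ] ℝ :=
  Finsupp.linearCombination ℝ (fun _ => (1 : ℝ))

theorem aug_eq (z : List (Finset ℕ) →₀ ℝ) : z.sum (fun _ a => a) = aug z := by
  unfold aug
  rw [Finsupp.linearCombination_apply]
  simp only [smul_eq_mul, mul_one]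

theorem aug_consm (a : Finset ℕ) (z : List (Finset ℕ) →₀ ℝ) : aug (consm ℝ a z) = aug z := by
  show Finsupp.linearCombination ℝ _ (Finsupp.mapDomain (List.cons a) z) = _
  rw [Finsupp.linearCombination_mapDomain]
  rfl

theorem cc_aug (ho : IsSimplicialCycle L n o) (k : ℕ) :
    ∀ s : List ℕ, s.length + (k + 1) = n → aug (cc n L o (k + 1) s) = 0 := by
  induction k with
  | zero =>
    intro s hs
    show aug (consm ℝ (fac n L s.toFinset) (∑ v ∈ verts L, cc n L o 0 (s ++ [v]))) = 0
    rw [aug_consm, map_sum]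
    have h3 : ∀ v ∈ verts L, aug (cc n L o 0 (s ++ [v])) = oL o (s ++ [v]) := by
      intro v _
      show aug (oL o (s ++ [v]) • Finsupp.single [(s ++ [v]).toFinset] (1 : ℝ)) = _
      rw [map_smul]
      unfold aug
      rw [Finsupp.linearCombination_single, one_smul, smul_eq_mul, mul_one]
    rw [Finset.sum_congr rfl h3]
    exact oL_sum ho s hs
  | succ k ih =>
    intro s hs
    show aug (consm ℝ (fac n L s.toFinset) (∑ v ∈ verts L, cc n L o (k + 1) (s ++ [v]))) = 0
    rw [aug_consm, map_sum]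
    refine Finset.sum_eq_zero fun v _ => ih _ ?_
    rw [List.length_append, List.length_singleton]
    omega

end Z2

theorem prfZ2 (h1 : S_LC1) : S_Z2 := by
  intro n L o hn ho
  refine ⟨{ c := fun s => if s.length ≤ n then Z2.cc n L o (n - s.length) s else 0
            top := ?_, alt := ?_, supp := ?_, bdy := ?_, aug := ?_ }⟩
  · intro s hs
    rw [if_pos hs.le, hs, Nat.sub_self]
    rfl
  · intro s₁ a b s₂
    have hl : (s₁ ++ a :: b :: s₂).length = (s₁ ++ b :: a :: s₂).length := by
      simp only [List.length_append, List.length_cons]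
    rw [hl]
    by_cases h : (s₁ ++ b :: a :: s₂).length ≤ n
    · rw [if_pos h, if_pos h]
      exact Z2.cc_alt ho _ _ _ _ _
    · rw [if_neg h, if_neg h, neg_zero]
  · intro s l hl
    by_cases h : s.length ≤ n
    · rw [if_pos h] at hl
      obtain ⟨a1, a2⟩ := Z2.cc_supp ho _ s l hl
      exact ⟨by omega, a2⟩
    · rw [if_neg h] at hl
      simp at hl
  · intro s hs
    obtain ⟨k, hk⟩ : ∃ k, n = s.length + (k + 1) := ⟨n - s.length - 1, by omega⟩
    have e1 : n - s.length = k + 1 := by omega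
    rw [if_pos hs.le, e1, Z2.cc_bdy ho h1 k s hk.symm]
    refine Finset.sum_congr rfl fun v _ => ?_
    have e2 : (s ++ [v]).length = s.length + 1 := by
      rw [List.length_append, List.length_singleton]
    have e3 : n - (s ++ [v]).length = k := by omega
    rw [if_pos (by omega), e3]
  · intro s hs
    obtain ⟨k, hk⟩ : ∃ k, n = s.length + (k + 1) := ⟨n - s.length - 1, by omega⟩
    have e1 : n - s.length = k + 1 := by omega
    rw [if_pos hs.le, e1, Z2.aug_eq]
    exact Z2.cc_aug ho k s hk.symm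

end MP8a95ee.Eu
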